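import Pool.Agent.GSU.St

set_option autoImplicit false

namespace Pool.Agent.GSU

open Finset N435e839e Pool.Agent.Lib_helper10.Erdos460

namespace LSMA

lemma total_le (n : ℕ) : totalSum false n ≤ 1 + Real.log n := by
  have h1 := harmonic_le_one_add_log n
  refine le_trans ?_ h1
  rw [harmonic_eq_sum_Icc]
  push_cast
  unfold totalSum
  have h2 : selected false n ⊆ Icc 1 n := by
    intro a ha
    unfold selected at ha
    have := (mem_filter.1 ha).2
    exact mem_Icc.2 ⟨this.1, this.2.le⟩
  calc ∑ a ∈ selected false n, (1 : ℝ) / (a : ℝ) ≤ ∑ a ∈ Icc 1 n, (1 : ℝ) / (a : ℝ) :=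
        sum_le_sum_of_subset_of_nonneg h2 fun i _ _ => by positivity
    _ = _ := sum_congr rfl fun i _ => by rw [one_div]

end LSMA

open LSMA in
theorem SMA : SMA_Stmt := by
  intro y N n hy hyN hn hnN
  set S := totalSum false n with hS
  set P := ∑ a ∈ (selected false n).filter (fun a => a ≤ y), (1 : ℝ) / a with hP
  have hN2 : (2 : ℝ) ≤ N := by exact_mod_cast hy.trans hyN
  have hy2 : (2 : ℝ) ≤ y := by exact_mod_cast hy
  have hyN' : (y : ℝ) ≤ N := by exact_mod_cast hyN
  have hn1 : (1 : ℝ) ≤ n := by exact_mod_cast hn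
  have hnN' : (n : ℝ) ≤ N := by exact_mod_cast hnN
  have hlogn : Real.log n ≤ Real.log N := Real.log_le_log (by linarith) hnN'
  have hlogN : 0 ≤ Real.log N := Real.log_nonneg (by linarith)
  have hl2 : (1 : ℝ) / 2 < Real.log 2 := by have := Real.log_two_gt_d9; linarith
  have hlogy : Real.log 2 ≤ Real.log y := Real.log_le_log (by norm_num) hy2
  have hlogyN : Real.log y ≤ Real.log N := Real.log_le_log (by linarith) hyN'
  have hlogy0 : 0 < Real.log y := by linarith
  have hP0 : 0 ≤ P := sum_nonneg fun a _ => by positivity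
  have hPS : P ≤ S := by
    rw [hP, hS]
    unfold totalSum
    exact sum_le_sum_of_subset_of_nonneg (filter_subset _ _) fun i _ _ => by positivity
  have hS1 : S ≤ 1 + Real.log N := (total_le n).trans (by linarith)
  have hg0 : 0 ≤ gam := (Real.exp_pos _).le
  have hg1 : gam ≤ 1 := by
    unfold gam
    rw [Real.exp_le_one_iff]
    have := Real.one_half_lt_eulerMascheroniConstant
    linarith
  have hq1 : 1 ≤ Real.log N / Real.log y := by rw [le_div_iff₀ hlogy0]; linarith
  have hq2 : Real.log N / Real.log y ≤ 2 * Real.log N := by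
    rw [div_le_iff₀ hlogy0]
    nlinarith
  have hG0 : 0 ≤ Real.log (Real.log N / Real.log y) := Real.log_nonneg hq1
  have hG1 : Real.log (Real.log N / Real.log y) ≤ 2 * Real.log N := by
    have := Real.log_le_sub_one_of_pos (lt_of_lt_of_le one_pos hq1)
    linarith
  have hgG0 : 0 ≤ gam * Real.log (Real.log N / Real.log y) := mul_nonneg hg0 hG0
  have hgG1 : gam * Real.log (Real.log N / Real.log y) ≤ 2 * Real.log N := by
    calc gam * Real.log (Real.log N / Real.log y) ≤ 1 * Real.log (Real.log N / Real.log y) :=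
          mul_le_mul_of_nonneg_right hg1 hG0
      _ ≤ _ := by rw [one_mul]; exact hG1
  apply sq_le_sq'
  · linarith
  · linarith

end Pool.Agent.GSU
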