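import Pool.Agent.GSU.St

/-!
# MP_8775f9_nt, fourth hand-in: the sum of `1/a` over a residue class in `(Y, 2Y]`
-/

set_option autoImplicit false

namespace Pool.Agent.GSU

open Finset N435e839e Pool.Agent.Lib_helper10.Erdos460

namespace LARS

/-- The elements of the residue class in `(Y, 2Y]` form an arithmetic progression. -/
lemma filter_eq (Y m c : ℕ) (hm : 1 ≤ m) : ∃ a₀ k : ℕ, Y < a₀ ∧ a₀ ≤ Y + m ∧
    (∀ i, i < k ↔ a₀ + i * m ≤ 2 * Y) ∧
    (Ioc Y (2 * Y)).filter (fun a => a ≡ c [MOD m]) = (range k).image (fun i => a₀ + i * m) := by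
  have hd : (c + (m - 1) * (Y + 1)) % m < m := Nat.mod_lt _ hm
  have hmod : Y + 1 + (c + (m - 1) * (Y + 1)) % m ≡ c [MOD m] := by
    have h1 : Y + 1 + (c + (m - 1) * (Y + 1)) % m ≡ Y + 1 + (c + (m - 1) * (Y + 1)) [MOD m] :=
      Nat.ModEq.add_left _ (Nat.mod_modEq _ _)
    refine h1.trans ?_
    have h2 : Y + 1 + (c + (m - 1) * (Y + 1)) = c + m * (Y + 1) := by
      obtain ⟨m', rfl⟩ : ∃ m', m = m' + 1 := ⟨m - 1, by omega⟩
      rw [Nat.add_sub_cancel]
      ring
    rw [h2]
    have h3 : c + m * (Y + 1) ≡ c + 0 [MOD m] :=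
      Nat.ModEq.add_left _ ((Nat.modEq_zero_iff_dvd).2 (Dvd.intro _ rfl))
    exact h3
  generalize (c + (m - 1) * (Y + 1)) % m = d at hd hmod
  have hk : ∀ i, i < (2 * Y + m - (Y + 1 + d)) / m ↔ Y + 1 + d + i * m ≤ 2 * Y := by
    intro i
    rw [← Nat.succ_le_iff, Nat.le_div_iff_mul_le (by omega), Nat.succ_mul]
    omega
  refine ⟨Y + 1 + d, (2 * Y + m - (Y + 1 + d)) / m, by omega, by omega, hk, ?_⟩
  ext a
  rw [mem_filter, mem_Ioc, mem_image]
  constructor
  · rintro ⟨⟨h1, h2⟩, h3⟩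
    have h4 : a ≡ Y + 1 + d [MOD m] := h3.trans hmod.symm
    have h5 : Y + 1 + d ≤ a := by
      by_contra hlt
      push Not at hlt
      have h6 := (Nat.modEq_iff_dvd' hlt.le).1 h4
      have h7 := Nat.le_of_dvd (by omega) h6
      omega
    obtain ⟨i, hi⟩ := (Nat.modEq_iff_dvd' h5).1 h4.symm
    have h8 : a = Y + 1 + d + i * m := by
      rw [mul_comm i m]; omega
    refine ⟨i, ?_, h8.symm⟩
    rw [mem_range, hk]
    omega
  · rintro ⟨i, hi, rfl⟩
    rw [mem_range, hk] at hi
    refine ⟨⟨by omega, hi⟩, ?_⟩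
    have h3 : Y + 1 + d + i * m ≡ Y + 1 + d + 0 [MOD m] :=
      Nat.ModEq.add_left _ ((Nat.modEq_zero_iff_dvd).2 (Dvd.intro_left _ rfl))
    exact h3.trans hmod

lemma step_le {a m : ℝ} (ha : 0 < a) (hm : 0 < m) : Real.log (a + m) - Real.log a ≤ m * (1 / a) := by
  rw [← Real.log_div (by positivity) ha.ne']
  refine (Real.log_le_sub_one_of_pos (by positivity)).trans (le_of_eq ?_)
  field_simp
  ring

lemma le_step {a m : ℝ} (ha : 0 < a) (hm : 0 < m) :
    m * (1 / (a + m)) ≤ Real.log (a + m) - Real.log a := by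
  have h : Real.log a - Real.log (a + m) ≤ -(m * (1 / (a + m))) := by
    rw [← Real.log_div ha.ne' (by positivity)]
    refine (Real.log_le_sub_one_of_pos (by positivity)).trans (le_of_eq ?_)
    field_simp
    ring
  linarith

lemma lower {a m : ℝ} (ha : 0 < a) (hm : 0 < m) (k : ℕ) :
    Real.log (a + k * m) - Real.log a ≤ m * ∑ i ∈ range k, 1 / (a + i * m) := by
  induction k with
  | zero => simp
  | succ k ih =>
    rw [sum_range_succ, mul_add]
    have h := step_le (a := a + k * m) (m := m) (by positivity) hm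
    have e : a + ((k + 1 : ℕ) : ℝ) * m = a + k * m + m := by push_cast; ring
    rw [e]
    linarith

lemma upper {a m : ℝ} (ha : 0 < a) (hm : 0 < m) (k : ℕ) :
    m * ∑ i ∈ range (k + 1), 1 / (a + i * m) ≤ m * (1 / a) + (Real.log (a + k * m) - Real.log a) := by
  induction k with
  | zero => simp
  | succ k ih =>
    rw [sum_range_succ, mul_add]
    have h := le_step (a := a + k * m) (m := m) (by positivity) hm
    have e : a + ((k + 1 : ℕ) : ℝ) * m = a + k * m + m := by push_cast; ring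
    rw [e]
    linarith

end LARS

open LARS in
theorem ARS : ARS_Stmt := by
  intro Y m c hY hm
  obtain ⟨a₀, k, h1, h2, hk, he⟩ := filter_eq Y m c hm
  rw [he, sum_image (fun i _ j _ hij => by
    have h3 : i * m = j * m := by
      have : a₀ + i * m = a₀ + j * m := hij
      omega
    exact Nat.eq_of_mul_eq_mul_right (by omega) h3)]
  have hY0 : (0 : ℝ) < Y := by exact_mod_cast hY
  have hm0 : (0 : ℝ) < m := by exact_mod_cast hm
  have ha0 : (0 : ℝ) < a₀ := by exact_mod_cast (by omega : 0 < a₀)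
  have h1' : (Y : ℝ) ≤ a₀ := by exact_mod_cast h1.le
  have h2' : (a₀ : ℝ) ≤ Y + m := by exact_mod_cast h2
  have hcast : ∑ i ∈ range k, (1 : ℝ) / ((a₀ + i * m : ℕ) : ℝ) =
      ∑ i ∈ range k, 1 / ((a₀ : ℝ) + i * m) := by
    apply sum_congr rfl
    intro i _
    push_cast
    rfl
  rw [hcast]
  have hlog2 : (0 : ℝ) ≤ Real.log 2 := Real.log_nonneg (by norm_num)
  have hmul : ∀ x : ℝ, m * |x| = |m * x| := fun x => by rw [abs_mul, abs_of_pos hm0]
  have hgoal : |(m : ℝ) * ((∑ i ∈ range k, 1 / ((a₀ : ℝ) + i * m)) - Real.log 2 / m)| ≤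
      m * (1 / Y) := by
    have e : (m : ℝ) * ((∑ i ∈ range k, 1 / ((a₀ : ℝ) + i * m)) - Real.log 2 / m) =
        m * (∑ i ∈ range k, 1 / ((a₀ : ℝ) + i * m)) - Real.log 2 := by
      field_simp
    rw [e, abs_le]
    constructor
    · have h3 := lower ha0 hm0 k
      have h4 : 2 * Y < a₀ + k * m := by
        by_contra hc
        push Not at hc
        exact lt_irrefl k ((hk k).2 hc)
      have h4' : (2 * Y : ℝ) ≤ a₀ + k * m := by exact_mod_cast h4.le
      have h5 : Real.log (2 * Y) ≤ Real.log (a₀ + k * m) :=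
        Real.log_le_log (by positivity) h4'
      have h6 : Real.log a₀ ≤ Real.log (Y + m) := Real.log_le_log ha0 h2'
      have h7 := step_le hY0 hm0
      have h8 : Real.log (2 * Y) = Real.log 2 + Real.log Y :=
        Real.log_mul (by norm_num) hY0.ne'
      linarith
    · rcases Nat.eq_zero_or_pos k with rfl | hkpos
      · simp only [range_zero, sum_empty, mul_zero]
        have : (0 : ℝ) ≤ m * (1 / Y) := by positivity
        linarith
      · obtain ⟨k', rfl⟩ : ∃ k', k = k' + 1 := ⟨k - 1, by omega⟩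
        have h3 := upper ha0 hm0 k'
        have h4 : a₀ + k' * m ≤ 2 * Y := (hk k').1 (by omega)
        have h4' : (a₀ + k' * m : ℝ) ≤ 2 * Y := by exact_mod_cast h4
        have h5 : Real.log (a₀ + k' * m) ≤ Real.log (2 * Y) :=
          Real.log_le_log (by positivity) h4'
        have h6 : Real.log Y ≤ Real.log a₀ := Real.log_le_log hY0 h1'
        have h8 : Real.log (2 * Y) = Real.log 2 + Real.log Y :=
          Real.log_mul (by norm_num) hY0.ne'
        have h9 : (m : ℝ) * (1 / a₀) ≤ m * (1 / Y) :=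
          mul_le_mul_of_nonneg_left (one_div_le_one_div_of_le hY0 h1') hm0.le
        linarith
  rw [← hmul] at hgoal
  have h10 := le_of_mul_le_mul_left hgoal hm0
  refine h10.trans ?_
  apply div_le_div_of_nonneg_right _ hY0.le
  norm_num

end Pool.Agent.GSU
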