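import Pool.Agent.GSU.St

set_option autoImplicit false

namespace Pool.Agent.GSU

open Finset N435e839e Pool.Agent.Lib_helper10.Erdos460

namespace LAVG

lemma subsum_insert (w : Finset ℕ → ℝ) {a : ℕ} {X : Finset ℕ} (ha : a ∉ X) :
    subsum w (insert a X) = subsum w X + subsum (fun T => w (insert a T)) X := by
  unfold subsum
  rw [Finset.sum_powerset_insert ha]

end LAVG

open LAVG in
theorem AVG : AVG_Stmt := by
  intro Q S w hQS
  induction Q using Finset.induction_on generalizing w with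
  | empty =>
    simp only [powerset_empty, sum_singleton, prod_empty, empty_sdiff, mul_one, one_mul,
      union_empty]
    rfl
  | insert a Q ha ih =>
    have haS : a ∉ S := fun h => Finset.disjoint_left.1 hQS (mem_insert_self a Q) h
    have hQ : Disjoint Q S := Finset.disjoint_of_subset_left (subset_insert a Q) hQS
    have ih1 := ih w hQ
    have ih2 := ih (fun T => w (insert a T)) hQ
    rw [Finset.sum_powerset_insert ha]
    have e1 : ∀ S0 ∈ Q.powerset,
        (∏ p ∈ S0, 1 / (p : ℝ)) * (∏ p ∈ insert a Q \ S0, (1 - 1 / (p : ℝ))) * subsum w (S ∪ S0)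
        = (1 - 1 / (a : ℝ)) * ((∏ p ∈ S0, 1 / (p : ℝ)) * (∏ p ∈ Q \ S0, (1 - 1 / (p : ℝ))) *
          subsum w (S ∪ S0)) := by
      intro S0 hS0
      have haS0 : a ∉ S0 := fun h => ha (mem_powerset.1 hS0 h)
      rw [insert_sdiff_of_notMem Q haS0, prod_insert (fun h => ha (mem_sdiff.1 h).1)]
      ring
    have e2 : ∀ S0 ∈ Q.powerset,
        (∏ p ∈ insert a S0, 1 / (p : ℝ)) * (∏ p ∈ insert a Q \ insert a S0, (1 - 1 / (p : ℝ))) *
          subsum w (S ∪ insert a S0)
        = 1 / (a : ℝ) * ((∏ p ∈ S0, 1 / (p : ℝ)) * (∏ p ∈ Q \ S0, (1 - 1 / (p : ℝ))) *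
          subsum w (S ∪ S0)) + 1 / (a : ℝ) * ((∏ p ∈ S0, 1 / (p : ℝ)) *
          (∏ p ∈ Q \ S0, (1 - 1 / (p : ℝ))) * subsum (fun T => w (insert a T)) (S ∪ S0)) := by
      intro S0 hS0
      have haS0 : a ∉ S0 := fun h => ha (mem_powerset.1 hS0 h)
      have hX : a ∉ S ∪ S0 := by
        rw [mem_union]; push Not; exact ⟨haS, haS0⟩
      have hs : insert a Q \ insert a S0 = Q \ S0 := by
        ext x
        simp only [mem_sdiff, mem_insert, not_or]
        constructor
        · rintro ⟨h1 | h1, h2, h3⟩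
          · exact absurd h1 h2
          · exact ⟨h1, h3⟩
        · rintro ⟨h1, h2⟩
          refine ⟨Or.inr h1, ?_, h2⟩
          rintro rfl
          exact ha h1
      rw [prod_insert haS0, hs, union_insert, subsum_insert w hX]
      ring
    rw [sum_congr rfl e1, sum_congr rfl e2, sum_add_distrib, ← mul_sum, ← mul_sum, ← mul_sum, ih1,
      ih2]
    have e3 : ∀ T ∈ S.powerset,
        ∑ T0 ∈ (insert a Q).powerset, w (T ∪ T0) * ∏ p ∈ T0, 1 / (p : ℝ)
        = (∑ T0 ∈ Q.powerset, w (T ∪ T0) * ∏ p ∈ T0, 1 / (p : ℝ)) + 1 / (a : ℝ) *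
          ∑ T0 ∈ Q.powerset, w (insert a (T ∪ T0)) * ∏ p ∈ T0, 1 / (p : ℝ) := by
      intro T _
      rw [Finset.sum_powerset_insert ha, mul_sum]
      congr 1
      refine sum_congr rfl fun T0 hT0 => ?_
      have haT0 : a ∉ T0 := fun h => ha (mem_powerset.1 hT0 h)
      rw [prod_insert haT0, union_insert]
      ring
    rw [sum_congr rfl e3, sum_add_distrib, ← mul_sum]
    ring

end Pool.Agent.GSU
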