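import Pool.Agent.GSU.St

/-!
# MP_8775f9_nt, Theorem U: module BLK, the mean square of one dyadic block
-/

set_option autoImplicit false

namespace Pool.Agent.GSU

open Finset N435e839e Pool.Agent.Lib_helper10.Erdos460

namespace LBLK

lemma four_mul_le (L : ℕ) (hL : 5 ≤ L) : 4 * (L + 1) ≤ 2 ^ L := by
  induction L, hL using Nat.le_induction with
  | base => norm_num
  | succ n hn ih =>
    rw [pow_succ]
    omega

lemma gam_nonneg : 0 ≤ gam := (Real.exp_pos _).le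

lemma gam_le_one : gam ≤ 1 := by
  unfold gam
  rw [Real.exp_le_one_iff]
  have := Real.one_half_lt_eulerMascheroniConstant
  linarith

lemma log_two_gt : (1 : ℝ) / 2 < Real.log 2 := by
  have := Real.log_two_gt_d9
  linarith

/-- the main term at a power of two -/
lemma V_two {C2 : ℝ} (hC2 : 0 < C2)
    (hM : ∀ z : ℕ, 2 ≤ z → |V z - gam / Real.log z| ≤ C2 / Real.log z ^ 2) (i : ℕ) (hi : 1 ≤ i) :
    |V (2 ^ i) * Real.log 2 - gam / i| ≤ 2 * C2 / (i : ℝ) ^ 2 := by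
  have hz : 2 ≤ 2 ^ i := by
    calc 2 = 2 ^ 1 := (pow_one 2).symm
      _ ≤ 2 ^ i := Nat.pow_le_pow_right (by norm_num) hi
  have h := hM (2 ^ i) hz
  have hlog : Real.log ((2 ^ i : ℕ) : ℝ) = i * Real.log 2 := by
    push_cast
    rw [Real.log_pow]
  rw [hlog] at h
  have hl := log_two_gt
  have hl0 : (0 : ℝ) < Real.log 2 := by linarith
  have hi0 : (0 : ℝ) < i := by exact_mod_cast hi
  have e1 : V (2 ^ i) * Real.log 2 - gam / i =
      Real.log 2 * (V (2 ^ i) - gam / (i * Real.log 2)) := by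
    field_simp
  rw [e1, abs_mul, abs_of_pos hl0]
  calc Real.log 2 * |V (2 ^ i) - gam / (i * Real.log 2)|
      ≤ Real.log 2 * (C2 / (i * Real.log 2) ^ 2) := mul_le_mul_of_nonneg_left h hl0.le
    _ = C2 / (i : ℝ) ^ 2 * (1 / Real.log 2) := by field_simp
    _ ≤ C2 / (i : ℝ) ^ 2 * 2 := by
        refine mul_le_mul_of_nonneg_left ?_ (by positivity)
        rw [div_le_iff₀ hl0]
        linarith
    _ = 2 * C2 / (i : ℝ) ^ 2 := by ring

lemma log_le_real (j : ℕ) (hj : 1 ≤ j) : (Nat.log 2 j : ℝ) ≤ 2 * Real.log j := by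
  have h1 : 2 ^ Nat.log 2 j ≤ j := Nat.pow_log_le_self 2 (by omega)
  have h2 : ((2 : ℝ) ^ Nat.log 2 j) ≤ j := by exact_mod_cast h1
  have h3 := Real.log_le_log (by positivity) h2
  rw [Real.log_pow] at h3
  have hl := log_two_gt
  have h4 : (0 : ℝ) ≤ Nat.log 2 j := Nat.cast_nonneg _
  nlinarith

lemma sq_between {x lo up α β d : ℝ} (h1 : lo + α ≤ x) (h2 : x ≤ up + β) (hα : |α| ≤ d)
    (hβ : |β| ≤ d) : x ^ 2 ≤ 3 * (lo ^ 2 + up ^ 2 + d ^ 2) := by
  have hd : 0 ≤ d := (abs_nonneg _).trans hα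
  have hα' := abs_le.1 hα
  have hβ' := abs_le.1 hβ
  have h3 : |x| ≤ |lo| + |up| + d := by
    rw [abs_le]
    constructor
    · have := neg_abs_le lo
      have := abs_nonneg up
      linarith
    · have := le_abs_self up
      have := abs_nonneg lo
      linarith
  have h4 : x ^ 2 ≤ (|lo| + |up| + d) ^ 2 := by
    rw [← sq_abs x]
    exact pow_le_pow_left₀ (abs_nonneg _) h3 2
  have h5 : (|lo| + |up| + d) ^ 2 ≤ 3 * (|lo| ^ 2 + |up| ^ 2 + d ^ 2) := by
    nlinarith [sq_nonneg (|lo| - |up|), sq_nonneg (|lo| - d), sq_nonneg (|up| - d)]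
  rw [sq_abs, sq_abs] at h5
  exact h4.trans h5

lemma qq_pos (y : ℕ) : 0 < qq y := by
  unfold qq P0
  exact Finset.prod_pos fun p hp => (Nat.prime_of_mem_primesBelow hp).pos

lemma cls_card (M K y r : ℕ) (h : qq y ^ 4 ≤ K) :
    ((cls M K (qq y) r).card : ℝ) ≤ 2 * ((K : ℝ) / qq y) := by
  have hq := qq_pos y
  have h1 := count_modEq M K (qq y) r hq
  have h2 : qq y ≤ K := le_trans (Nat.le_self_pow (by norm_num) _) h
  have h3 : (1 : ℝ) ≤ (K : ℝ) / qq y := by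
    rw [le_div_iff₀ (by exact_mod_cast hq), one_mul]
    exact_mod_cast h2
  have h4 := (abs_le.1 h1).2
  unfold cls
  linarith

end LBLK

open LBLK in
theorem BLK (h1 : KPN_Stmt) (h2 : MER_Stmt) (h3 : SQZ_Stmt) : BLK_Stmt := by
  obtain ⟨B1, hB1, C1, hC1, hK⟩ := h1
  obtain ⟨C2, hC2, hM⟩ := h2
  refine ⟨B1 + 32, by omega, 8 * C1 + 3 * (10 * C2 + 8), by positivity, ?_⟩
  intro y j M K r hy hyj hjM hjK hqK
  -- `j` is large
  have hj32 : 32 ≤ j := by
    have h4 : 2 ^ 32 ≤ 2 ^ j := by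
      refine le_trans ?_ hyj
      calc 2 ^ 32 ≤ (y + 1) ^ 32 := Nat.pow_le_pow_left (by omega) 32
        _ ≤ (y + 1) ^ (B1 + 32) := Nat.pow_le_pow_right (by omega) (by omega)
    exact (Nat.pow_le_pow_iff_right (by norm_num)).1 h4
  obtain ⟨L, hL⟩ : ∃ L, L = Nat.log 2 j := ⟨_, rfl⟩
  have hL5 : 5 ≤ L := by
    rw [hL]
    exact Nat.le_log_of_pow_le (by norm_num) (by omega)
  have hLj : 2 ^ L ≤ j := by
    rw [hL]
    exact Nat.pow_log_le_self 2 (by omega)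
  have hL4 : 4 * (L + 1) ≤ j := (four_mul_le L hL5).trans hLj
  obtain ⟨k, hk⟩ : ∃ k, k = 2 * (L + 1) := ⟨_, rfl⟩
  have hkj : 2 * k ≤ j := by omega
  have hj2k : j ^ 2 ≤ 2 ^ k := by
    have h4 : j < 2 ^ (L + 1) := by
      rw [hL]
      exact Nat.lt_pow_succ_log_self (by norm_num) j
    rw [hk, mul_comm 2 (L + 1), pow_mul]
    exact Nat.pow_le_pow_left h4.le 2
  have hjr : (32 : ℝ) ≤ j := by exact_mod_cast hj32
  have hj0 : (0 : ℝ) < j := by linarith
  have hlogj : 0 ≤ Real.log j := Real.log_nonneg (by linarith)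
  have hlogy : 0 ≤ Real.log y := Real.log_nonneg (by exact_mod_cast (by omega : 1 ≤ y))
  have hl := log_two_gt
  have hl0 : (0 : ℝ) < Real.log 2 := by linarith
  have hK1 : 1 ≤ K := le_trans (Nat.one_le_pow _ _ (qq_pos y)) hqK
  have hlogK : 0 ≤ Real.log K := Real.log_nonneg (by exact_mod_cast hK1)
  -- the two applications of `KPN`
  have hyB : (y + 1) ^ B1 ≤ 2 ^ j :=
    le_trans (Nat.pow_le_pow_right (by omega) (by omega)) hyj
  have hjB : (2 ^ j) ^ B1 ≤ K :=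
    le_trans (Nat.pow_le_pow_right (Nat.one_le_two_pow) (by omega)) hjK
  have hA := hK y (2 ^ (j + 1)) (2 ^ j) M K r hy hyB
    (by
      rw [← pow_mul]
      exact Nat.pow_le_pow_right (by norm_num) (by omega))
    (by rw [pow_succ]; omega) hjB hqK
  have hB := hK y (2 ^ (j - k)) (2 ^ j) M K r hy hyB
    (by
      rw [← pow_mul]
      exact Nat.pow_le_pow_right (by norm_num) (by omega))
    (by
      have : 2 ^ (j - k) ≤ 2 ^ j := Nat.pow_le_pow_right (by norm_num) (by omega)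
      omega) hjB hqK
  have hlogY : Real.log ((2 ^ j : ℕ) : ℝ) = j * Real.log 2 := by
    push_cast
    rw [Real.log_pow]
  rw [hlogY] at hA hB
  -- the main terms
  have hVA := V_two hC2 hM (j + 1) (by omega)
  have hVB := V_two hC2 hM (j - k) (by omega)
  obtain ⟨D, hD⟩ : ∃ D : ℝ, D = 10 * C2 + 8 := ⟨_, rfl⟩
  obtain ⟨d, hd⟩ : ∃ d : ℝ, d = D * ((Real.log j + 1) / (j : ℝ) ^ 2) := ⟨_, rfl⟩
  have hg0 := gam_nonneg
  have hg1 := gam_le_one
  have hα : |V (2 ^ (j + 1)) * Real.log 2 - gam / j| ≤ d := by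
    have e1 : |gam / ((j + 1 : ℕ) : ℝ) - gam / j| ≤ 1 / (j : ℝ) ^ 2 := by
      rw [abs_sub_comm]
      have e2 : gam / (j : ℝ) - gam / ((j + 1 : ℕ) : ℝ) = gam / (j * (j + 1)) := by
        push_cast
        field_simp
        ring
      rw [e2, abs_of_nonneg (by positivity)]
      calc gam / (j * (j + 1)) ≤ 1 / (j * (j + 1)) := by gcongr
        _ ≤ 1 / (j : ℝ) ^ 2 := by
            apply one_div_le_one_div_of_le (by positivity)
            nlinarith
    have e3 : 2 * C2 / ((j + 1 : ℕ) : ℝ) ^ 2 ≤ 2 * C2 / (j : ℝ) ^ 2 := by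
      apply div_le_div_of_nonneg_left (by positivity) (by positivity)
      push_cast
      nlinarith
    calc |V (2 ^ (j + 1)) * Real.log 2 - gam / j|
        ≤ |V (2 ^ (j + 1)) * Real.log 2 - gam / ((j + 1 : ℕ) : ℝ)| +
          |gam / ((j + 1 : ℕ) : ℝ) - gam / j| := abs_sub_le _ _ _
      _ ≤ 2 * C2 / (j : ℝ) ^ 2 + 1 / (j : ℝ) ^ 2 := by linarith
      _ = (2 * C2 + 1) / (j : ℝ) ^ 2 := by ring
      _ ≤ D * (Real.log j + 1) / (j : ℝ) ^ 2 := by
          apply div_le_div_of_nonneg_right _ (by positivity)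
          rw [hD]
          nlinarith
      _ = d := by rw [hd]; ring
  have hkr : (k : ℝ) ≤ 4 * Real.log j + 2 := by
    have := log_le_real j (by omega)
    rw [hk, hL]
    push_cast
    linarith
  have hjk : ((j - k : ℕ) : ℝ) = (j : ℝ) - k := by
    rw [Nat.cast_sub (by omega)]
  have hjk2 : (j : ℝ) / 2 ≤ (j : ℝ) - k := by
    have : (2 * k : ℝ) ≤ j := by exact_mod_cast hkj
    linarith
  have hk0 : (0 : ℝ) ≤ k := Nat.cast_nonneg _
  have hβ : |V (2 ^ (j - k)) * Real.log 2 - gam / j| ≤ (8 * C2 + 2 * k) / (j : ℝ) ^ 2 := by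
    rw [hjk] at hVB
    have hp : (0 : ℝ) < (j : ℝ) - k := by linarith
    have e1 : |gam / ((j : ℝ) - k) - gam / j| ≤ 2 * k / (j : ℝ) ^ 2 := by
      have e2 : gam / ((j : ℝ) - k) - gam / j = gam * k / (j * (j - k)) := by
        field_simp
        ring
      rw [e2, abs_of_nonneg (by positivity)]
      calc gam * k / (j * (j - k)) ≤ 1 * k / (j * (j - k)) := by gcongr
        _ ≤ 1 * k / (j * (j / 2)) := by
            apply div_le_div_of_nonneg_left (by positivity) (by positivity)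
            exact mul_le_mul_of_nonneg_left hjk2 hj0.le
        _ = 2 * k / (j : ℝ) ^ 2 := by field_simp
    have e3 : 2 * C2 / ((j : ℝ) - k) ^ 2 ≤ 8 * C2 / (j : ℝ) ^ 2 := by
      calc 2 * C2 / ((j : ℝ) - k) ^ 2 ≤ 2 * C2 / ((j : ℝ) / 2) ^ 2 := by
            apply div_le_div_of_nonneg_left (by positivity) (by positivity)
            exact pow_le_pow_left₀ (by positivity) hjk2 2
        _ = 8 * C2 / (j : ℝ) ^ 2 := by field_simp; ring
    calc |V (2 ^ (j - k)) * Real.log 2 - gam / j|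
        ≤ |V (2 ^ (j - k)) * Real.log 2 - gam / ((j : ℝ) - k)| +
          |gam / ((j : ℝ) - k) - gam / j| := abs_sub_le _ _ _
      _ ≤ 8 * C2 / (j : ℝ) ^ 2 + 2 * k / (j : ℝ) ^ 2 := by linarith
      _ = (8 * C2 + 2 * k) / (j : ℝ) ^ 2 := by ring
  have hzY : (((2 ^ (j - k) : ℕ)) : ℝ) / ((2 ^ j : ℕ) : ℝ) ≤ 1 / (j : ℝ) ^ 2 := by
    rw [div_le_div_iff₀ (by positivity) (by positivity), one_mul]
    have h4 : 2 ^ (j - k) * j ^ 2 ≤ 2 ^ j := by
      calc 2 ^ (j - k) * j ^ 2 ≤ 2 ^ (j - k) * 2 ^ k := Nat.mul_le_mul_left _ hj2k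
        _ = 2 ^ j := by rw [← pow_add, Nat.sub_add_cancel (by omega)]
    exact_mod_cast h4
  have hβ' : |V (2 ^ (j - k)) * Real.log 2 - gam / j +
      (((2 ^ (j - k) : ℕ)) : ℝ) / ((2 ^ j : ℕ) : ℝ)| ≤ d := by
    have e0 : (0 : ℝ) ≤ (((2 ^ (j - k) : ℕ)) : ℝ) / ((2 ^ j : ℕ) : ℝ) := by positivity
    calc |V (2 ^ (j - k)) * Real.log 2 - gam / j + (((2 ^ (j - k) : ℕ)) : ℝ) / ((2 ^ j : ℕ) : ℝ)|
        ≤ |V (2 ^ (j - k)) * Real.log 2 - gam / j| +
          |(((2 ^ (j - k) : ℕ)) : ℝ) / ((2 ^ j : ℕ) : ℝ)| := abs_add_le _ _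
      _ ≤ (8 * C2 + 2 * k) / (j : ℝ) ^ 2 + 1 / (j : ℝ) ^ 2 := by
          rw [abs_of_nonneg e0]
          linarith
      _ = (8 * C2 + 2 * k + 1) / (j : ℝ) ^ 2 := by ring
      _ ≤ D * (Real.log j + 1) / (j : ℝ) ^ 2 := by
          apply div_le_div_of_nonneg_right _ (by positivity)
          rw [hD]
          nlinarith
      _ = d := by rw [hd]; ring
  -- the pointwise bound
  have hpt : ∀ n ∈ cls M K (qq y) r, (Bk n (2 ^ j) - gam / j) ^ 2 ≤
      3 * ((R (Nat.primesBelow (2 ^ (j + 1))) n (2 ^ j) - V (2 ^ (j + 1)) * Real.log 2) ^ 2 +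
        (R (Nat.primesBelow (2 ^ (j - k))) n (2 ^ j) - V (2 ^ (j - k)) * Real.log 2) ^ 2 +
        d ^ 2) := by
    intro n hn
    have hMn : M < n := by
      unfold cls at hn
      rw [Finset.mem_filter, Finset.mem_Ioc] at hn
      exact hn.1.1
    obtain ⟨s1, s2⟩ := h3 n (2 ^ j) (2 ^ (j - k)) Nat.one_le_two_pow (by omega)
    rw [show 2 * 2 ^ j = 2 ^ (j + 1) by rw [pow_succ]; ring] at s1
    refine sq_between (α := V (2 ^ (j + 1)) * Real.log 2 - gam / j)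
      (β := V (2 ^ (j - k)) * Real.log 2 - gam / j +
        (((2 ^ (j - k) : ℕ)) : ℝ) / ((2 ^ j : ℕ) : ℝ)) ?_ ?_ hα hβ'
    · linarith
    · linarith
  have hcard := cls_card M K y r hqK
  obtain ⟨A, hAdef⟩ : ∃ A : ℝ, A = (K : ℝ) / qq y := ⟨_, rfl⟩
  have hA0 : 0 ≤ A := by rw [hAdef]; positivity
  rw [← hAdef] at hA hB hcard ⊢
  obtain ⟨E, hE⟩ : ∃ E : ℝ, E = (Real.log y + Real.log j + 1) / (j : ℝ) ^ 2 + 1 / Real.log K :=
    ⟨_, rfl⟩
  have hK0 : 0 ≤ 1 / Real.log K := by positivity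
  have hE0 : 0 ≤ E := by rw [hE]; positivity
  have hX : Real.log y / (j * Real.log 2) ^ 2 + 1 / Real.log K ≤ 3 * E := by
    have hl2 : 1 ≤ 3 * Real.log 2 ^ 2 := by
      have := Real.log_two_gt_d9
      nlinarith
    have e1 : Real.log y / (j * Real.log 2) ^ 2 ≤ 3 * (Real.log y / (j : ℝ) ^ 2) := by
      rw [mul_pow, div_le_iff₀ (by positivity)]
      have e2 : 3 * (Real.log y / (j : ℝ) ^ 2) * ((j : ℝ) ^ 2 * Real.log 2 ^ 2) =
          Real.log y * (3 * Real.log 2 ^ 2) := by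
        field_simp
      rw [e2]
      nlinarith
    have e3 : Real.log y / (j : ℝ) ^ 2 ≤ (Real.log y + Real.log j + 1) / (j : ℝ) ^ 2 := by
      apply div_le_div_of_nonneg_right _ (by positivity)
      linarith
    rw [hE]
    linarith
  have hX0 : 0 ≤ Real.log y / (j * Real.log 2) ^ 2 + 1 / Real.log K := by positivity
  have hdE : d ≤ D * E := by
    rw [hd]
    refine mul_le_mul_of_nonneg_left ?_ (by rw [hD]; positivity)
    have e3 : (Real.log j + 1) / (j : ℝ) ^ 2 ≤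
        (Real.log y + Real.log j + 1) / (j : ℝ) ^ 2 := by
      apply div_le_div_of_nonneg_right _ (by positivity)
      linarith
    rw [hE]
    linarith
  have hD0 : 0 < D := by rw [hD]; positivity
  have hd0 : 0 ≤ d := by rw [hd]; positivity
  have hS : ∀ T : ℝ, T ≤ A * (C1 * (Real.log y / (j * Real.log 2) ^ 2 + 1 / Real.log K)) ^ 2 →
      T ≤ A * (3 * C1 * E) ^ 2 := by
    intro T hT
    refine hT.trans (mul_le_mul_of_nonneg_left ?_ hA0)
    refine pow_le_pow_left₀ (by positivity) ?_ 2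
    calc C1 * (Real.log y / (j * Real.log 2) ^ 2 + 1 / Real.log K) ≤ C1 * (3 * E) :=
          mul_le_mul_of_nonneg_left hX hC1.le
      _ = 3 * C1 * E := by ring
  have hA' := hS _ hA
  have hB' := hS _ hB
  have hdd : ((cls M K (qq y) r).card : ℝ) * d ^ 2 ≤ 2 * A * (D * E) ^ 2 := by
    calc ((cls M K (qq y) r).card : ℝ) * d ^ 2 ≤ 2 * A * d ^ 2 :=
          mul_le_mul_of_nonneg_right hcard (sq_nonneg _)
      _ ≤ 2 * A * (D * E) ^ 2 :=
          mul_le_mul_of_nonneg_left (pow_le_pow_left₀ hd0 hdE 2) (by positivity)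
  calc ∑ n ∈ cls M K (qq y) r, (Bk n (2 ^ j) - gam / j) ^ 2
      ≤ ∑ n ∈ cls M K (qq y) r, 3 *
        ((R (Nat.primesBelow (2 ^ (j + 1))) n (2 ^ j) - V (2 ^ (j + 1)) * Real.log 2) ^ 2 +
        (R (Nat.primesBelow (2 ^ (j - k))) n (2 ^ j) - V (2 ^ (j - k)) * Real.log 2) ^ 2 +
        d ^ 2) := Finset.sum_le_sum hpt
    _ = 3 * ((∑ n ∈ cls M K (qq y) r,
          (R (Nat.primesBelow (2 ^ (j + 1))) n (2 ^ j) - V (2 ^ (j + 1)) * Real.log 2) ^ 2) +
        (∑ n ∈ cls M K (qq y) r,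
          (R (Nat.primesBelow (2 ^ (j - k))) n (2 ^ j) - V (2 ^ (j - k)) * Real.log 2) ^ 2) +
        ((cls M K (qq y) r).card : ℝ) * d ^ 2) := by
        rw [← Finset.mul_sum, Finset.sum_add_distrib, Finset.sum_add_distrib, Finset.sum_const,
          nsmul_eq_mul]
    _ ≤ 3 * (A * (3 * C1 * E) ^ 2 + A * (3 * C1 * E) ^ 2 + 2 * A * (D * E) ^ 2) := by
        linarith
    _ = A * E ^ 2 * (54 * C1 ^ 2 + 6 * D ^ 2) := by ring
    _ ≤ A * E ^ 2 * (8 * C1 + 3 * D) ^ 2 := by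
        refine mul_le_mul_of_nonneg_left ?_ (by positivity)
        nlinarith [mul_pos hC1 hD0, sq_nonneg C1, sq_nonneg D]
    _ = A * ((8 * C1 + 3 * (10 * C2 + 8)) *
        ((Real.log y + Real.log j + 1) / (j : ℝ) ^ 2 + 1 / Real.log K)) ^ 2 := by
        rw [← hE, ← hD]
        ring

end Pool.Agent.GSU
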