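import Pool.Agent.GSU.St

/-!
# CAB: bounds for the coefficients `c_a`
-/

set_option autoImplicit false

namespace Pool.Agent.GSU

open Finset N435e839e Pool.Agent.Lib_helper10.Erdos460

namespace LCAB

lemma subsum_le (y r a L0 : ℕ) (w0 : Finset ℕ → ℝ) (h1 : ∀ T, |w0 T| ≤ 1)
    (h2 : ∀ T ⊆ P0 y, w0 T ≠ 0 → ∏ q ∈ T, q ≤ L0) :
    |subsum w0 (hit (P0 y) r a)| ≤ L0 := by
  have hP : ∀ p ∈ P0 y, p.Prime := fun p hp => Nat.prime_of_mem_primesBelow hp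
  have h3 : ∑ T ∈ (P0 y).powerset, |w0 T| ≤ L0 := sum_abs_le w0 (P0 y) hP L0 h2 h1
  refine le_trans ?_ h3
  unfold subsum
  refine (abs_sum_le_sum_abs _ _).trans ?_
  exact sum_le_sum_of_subset_of_nonneg (powerset_mono.2 (filter_subset _ _))
    fun _ _ _ => abs_nonneg _

end LCAB

theorem CAB : CAB_Stmt := by
  intro y Y r L0 w0 hY h1 h2
  have hY0 : (0 : ℝ) < Y := by exact_mod_cast hY
  have h3 : ∀ a ∈ Ioc Y (2 * Y), |ca w0 y r a| ≤ L0 / Y := by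
    intro a ha
    rw [mem_Ioc] at ha
    have h4 : (Y : ℝ) ≤ a := by exact_mod_cast ha.1.le
    have h5 : (0 : ℝ) < a := hY0.trans_le h4
    unfold ca
    rw [abs_mul, abs_of_nonneg (by positivity : (0 : ℝ) ≤ 1 / (a : ℝ)), one_div_mul_eq_div]
    exact div_le_div₀ (Nat.cast_nonneg _) (LCAB.subsum_le y r a L0 w0 h1 h2) hY0 h4
  refine ⟨h3, (sum_le_card_nsmul _ _ _ h3).trans ?_⟩
  rw [Nat.card_Ioc, nsmul_eq_mul]
  have h6 : 2 * Y - Y = Y := by omega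
  rw [h6, mul_div_cancel₀ _ hY0.ne']

end Pool.Agent.GSU
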