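import Pool.Agent.GSU.St

set_option autoImplicit false

namespace Pool.Agent.GSU

open Finset N435e839e Pool.Agent.Lib_helper10.Erdos460

namespace LCLS

/-- congruences modulo distinct primes are a congruence modulo the product -/
lemma modEq_prod (U : Finset ℕ) (hU : ∀ p ∈ U, p.Prime) (a c : ℕ) :
    (∀ p ∈ U, a ≡ c [MOD p]) ↔ a ≡ c [MOD ∏ p ∈ U, p] := by
  constructor
  · intro h
    rw [Nat.modEq_iff_dvd]
    push_cast
    refine Finset.prod_dvd_of_coprime (fun p hp q hq hpq => ?_) fun p hp => ?_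
    · show IsCoprime ((p : ℕ) : ℤ) ((q : ℕ) : ℤ)
      exact Nat.isCoprime_iff_coprime.2 ((Nat.coprime_primes (hU p hp) (hU q hq)).2 hpq)
    · exact (Nat.modEq_iff_dvd.1 (h p hp))
  · intro h p hp
    exact h.of_dvd (Finset.dvd_prod_of_mem (fun p => p) hp)

lemma crt (U T : Finset ℕ) (hU : ∀ p ∈ U, p.Prime) (hT : ∀ p ∈ T, p.Prime)
    (hd : ∀ p ∈ U, ∀ q ∈ T, p ≠ q) (c r : ℕ) :
    ∃ k : ℕ, ∀ a : ℕ, ((∀ p ∈ U, a ≡ c [MOD p]) ∧ ∀ p ∈ T, r ≡ a [MOD p]) ↔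
      a ≡ k [MOD (∏ p ∈ U, p) * ∏ p ∈ T, p] := by
  have hco : (∏ p ∈ U, p).Coprime (∏ p ∈ T, p) :=
    Nat.Coprime.prod_left fun p hp => Nat.Coprime.prod_right fun q hq =>
      (Nat.coprime_primes (hU p hp) (hT q hq)).2 (hd p hp q hq)
  obtain ⟨k, hk1, hk2⟩ := Nat.chineseRemainder hco c r
  refine ⟨k, fun a => ?_⟩
  rw [← Nat.modEq_and_modEq_iff_modEq_mul hco, modEq_prod U hU]
  have h2 : (∀ p ∈ T, r ≡ a [MOD p]) ↔ a ≡ r [MOD ∏ p ∈ T, p] := by
    rw [← modEq_prod T hT]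
    exact forall₂_congr fun p _ => ⟨Nat.ModEq.symm, Nat.ModEq.symm⟩
  rw [h2]
  constructor
  · rintro ⟨h, h'⟩
    exact ⟨h.trans hk1.symm, h'.trans hk2.symm⟩
  · rintro ⟨h, h'⟩
    exact ⟨h.trans hk1, h'.trans hk2⟩

lemma subsum_hit (w0 : Finset ℕ → ℝ) (P : Finset ℕ) (r a : ℕ) :
    subsum w0 (hit P r a) =
      ∑ T ∈ P.powerset, w0 T * (if ∀ p ∈ T, r ≡ a [MOD p] then 1 else 0) := by
  classical
  unfold subsum hit
  simp only [mul_ite, mul_one, mul_zero]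
  rw [← sum_filter]
  refine sum_congr ?_ fun _ _ => rfl
  ext T
  rw [mem_filter, mem_powerset, mem_powerset]
  constructor
  · intro h
    exact ⟨h.trans (filter_subset _ _), fun p hp => (mem_filter.1 (h hp)).2⟩
  · rintro ⟨h1, h2⟩ p hp
    exact mem_filter.2 ⟨h1 hp, h2 p hp⟩

end LCLS

theorem CLS (h : ARS_Stmt) : CLS_Stmt := by
  classical
  intro y z Y r c L0 w0 U hY hU hw hL
  have hP0 : ∀ q ∈ P0 y, q.Prime := fun q hq => (Nat.mem_primesBelow.1 hq).2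
  have hUp : ∀ p ∈ U, p.Prime := fun p hp =>
    (Nat.mem_primesBelow.1 (mem_filter.1 (hU hp)).1).2
  have hUy : ∀ p ∈ U, y < p := fun p hp => (mem_filter.1 (hU hp)).2
  have hP0y : ∀ q ∈ P0 y, q ≤ y := fun q hq => by
    have := (Nat.mem_primesBelow.1 hq).1
    omega
  set B : Finset ℕ := (Ioc Y (2 * Y)).filter (fun a => ∀ p ∈ U, a ≡ c [MOD p]) with hB
  -- rewriting of the sum
  have e1 : ∑ a ∈ B, ca w0 y r a = ∑ T ∈ (P0 y).powerset,
      w0 T * ∑ a ∈ B.filter (fun a => ∀ p ∈ T, r ≡ a [MOD p]), (1 : ℝ) / a := by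
    have : ∀ a, ca w0 y r a = ∑ T ∈ (P0 y).powerset,
        w0 T * (if ∀ p ∈ T, r ≡ a [MOD p] then (1 : ℝ) / a else 0) := by
      intro a
      unfold ca
      rw [LCLS.subsum_hit, mul_sum]
      refine sum_congr rfl fun T _ => ?_
      split_ifs
      · ring
      · ring
    rw [sum_congr rfl fun a _ => this a, sum_comm]
    refine sum_congr rfl fun T _ => ?_
    rw [← mul_sum, ← sum_filter]
  have e2 : meanw w0 (P0 y) * Real.log 2 / ∏ p ∈ U, (p : ℝ) = ∑ T ∈ (P0 y).powerset,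
      w0 T * (Real.log 2 / (((∏ p ∈ U, p) * ∏ p ∈ T, p : ℕ) : ℝ)) := by
    unfold meanw
    rw [sum_mul, sum_div]
    refine sum_congr rfl fun T _ => ?_
    rw [prod_one_div]
    push_cast
    rw [mul_one_div, div_mul_eq_mul_div, div_div, mul_div_assoc, mul_comm (∏ p ∈ T, (p : ℝ))]
  rw [e1, e2, ← sum_sub_distrib]
  have key : ∀ T ∈ (P0 y).powerset,
      |w0 T * (∑ a ∈ B.filter (fun a => ∀ p ∈ T, r ≡ a [MOD p]), (1 : ℝ) / a) -
        w0 T * (Real.log 2 / (((∏ p ∈ U, p) * ∏ p ∈ T, p : ℕ) : ℝ))| ≤ |w0 T| * (2 / Y) := by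
    intro T hT
    have hTP := mem_powerset.1 hT
    rw [← mul_sub, abs_mul]
    refine mul_le_mul_of_nonneg_left ?_ (abs_nonneg _)
    obtain ⟨k, hk⟩ := LCLS.crt U T hUp (fun p hp => hP0 p (hTP hp))
      (fun p hp q hq => by
        have h1 := hUy p hp
        have h2 := hP0y q (hTP hq)
        omega) c r
    have hset : B.filter (fun a => ∀ p ∈ T, r ≡ a [MOD p]) =
        (Ioc Y (2 * Y)).filter (fun a => a ≡ k [MOD (∏ p ∈ U, p) * ∏ p ∈ T, p]) := by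
      rw [hB, filter_filter]
      exact filter_congr fun a _ => hk a
    rw [hset]
    refine h Y _ k hY ?_
    have h1 : 0 < ∏ p ∈ U, p := prod_pos fun p hp => (hUp p hp).pos
    have h2 : 0 < ∏ p ∈ T, p := prod_pos fun p hp => (hP0 p (hTP hp)).pos
    exact Nat.mul_pos h1 h2
  refine (abs_sum_le_sum_abs _ _).trans ((sum_le_sum key).trans ?_)
  rw [← sum_mul]
  have h3 := sum_abs_le w0 (P0 y) hP0 L0 hL hw
  have hY0 : (0 : ℝ) < Y := by exact_mod_cast hY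
  calc (∑ T ∈ (P0 y).powerset, |w0 T|) * (2 / (Y : ℝ)) ≤ (L0 : ℝ) * (2 / (Y : ℝ)) :=
        mul_le_mul_of_nonneg_right h3 (by positivity)
    _ = 2 * L0 / Y := by ring

end Pool.Agent.GSU
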