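import Pool.Agent.GSU.St

set_option autoImplicit false

namespace Pool.Agent.GSU

open Finset N435e839e Pool.Agent.Lib_helper10.Erdos460

namespace LCNT

theorem prime_of_mem {y z p : ℕ} (h : p ∈ P1 y z) : p.Prime ∧ y < p := by
  unfold P1 at h
  rw [mem_filter] at h
  exact ⟨Nat.prime_of_mem_primesBelow h.1, h.2⟩

theorem qq_pos (y : ℕ) : 0 < qq y := by
  unfold qq
  refine prod_pos fun p hp => ?_
  exact (Nat.prime_of_mem_primesBelow hp).pos

theorem qq_coprime {y z p : ℕ} (h : p ∈ P1 y z) : Nat.Coprime (qq y) p := by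
  obtain ⟨hp, hy⟩ := prime_of_mem h
  unfold qq
  refine Nat.Coprime.prod_left fun q hq => ?_
  have hq' : q.Prime := Nat.prime_of_mem_primesBelow hq
  have hlt : q < y + 1 := Nat.lt_of_mem_primesBelow hq
  rw [Nat.coprime_primes hq' hp]
  omega

end LCNT

open LCNT in
theorem CNT : CNT_Stmt := by
  classical
  intro y z M K r a b T T' hT hT'
  refine ⟨fun hab => ?_, fun hab => ?_⟩
  · have hU : ∀ q ∈ T ∪ T', q ∈ P1 y z := by
      intro q hq
      rcases mem_union.1 hq with h | h
      · exact hT h
      · exact hT' h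
    let B : ℕ → Finset ℕ := fun p => {(if p ∈ T then a else b) % p}
    have h1 := count_crt M K B (T ∪ T') (fun q hq => (prime_of_mem (hU q hq)).1)
      (by
        intro q hq x hx
        rw [mem_singleton.1 hx]
        exact Nat.mod_lt _ (prime_of_mem (hU q hq)).1.pos)
      (qq y) r (qq_pos y) (fun q hq => qq_coprime (hU q hq))
    have hset : (cls M K (qq y) r).filter (fun n => (∀ p ∈ T, n ≡ a [MOD p]) ∧
        ∀ p ∈ T', n ≡ b [MOD p]) = (Ioc M (M + K)).filter
        (fun n => n ≡ r [MOD qq y] ∧ ∀ q ∈ T ∪ T', n % q ∈ B q) := by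
      unfold cls
      rw [filter_filter]
      refine filter_congr fun n _ => and_congr_right fun _ => ?_
      constructor
      · rintro ⟨h2, h3⟩ q hq
        rw [mem_singleton]
        by_cases hqT : q ∈ T
        · rw [if_pos hqT]
          exact h2 q hqT
        · rw [if_neg hqT]
          exact h3 q ((mem_union.1 hq).resolve_left hqT)
      · intro h2
        have h3 : ∀ p ∈ T, n ≡ a [MOD p] := by
          intro p hp
          have h4 := h2 p (mem_union_left _ hp)
          rw [mem_singleton, if_pos hp] at h4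
          exact h4
        refine ⟨h3, fun p hp => ?_⟩
        by_cases hpT : p ∈ T
        · exact (h3 p hpT).trans (hab p (mem_inter.2 ⟨hpT, hp⟩))
        · have h4 := h2 p (mem_union_right _ hp)
          rw [mem_singleton, if_neg hpT] at h4
          exact h4
    rw [hset]
    have hB : ∀ q, ((B q).card : ℝ) = 1 := fun q => by simp [B]
    simp only [hB, prod_const_one] at h1
    have hne : ∀ S ⊆ T ∪ T', ∏ p ∈ S, (p : ℝ) ≠ 0 := by
      intro S hS
      refine prod_ne_zero_iff.2 fun p hp => ?_
      exact_mod_cast (prime_of_mem (hU p (hS hp))).1.pos.ne'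
    have h2 : ∏ q ∈ T ∪ T', (1 : ℝ) / q =
        (∏ p ∈ T ∩ T', (p : ℝ)) / ((∏ p ∈ T, (p : ℝ)) * ∏ p ∈ T', (p : ℝ)) := by
      have h3 := prod_union_inter (s₁ := T) (s₂ := T') (f := fun p : ℕ => (p : ℝ))
      rw [prod_div_distrib, prod_const_one, ← h3,
        div_eq_div_iff (hne _ (Subset.refl _)) (mul_ne_zero (hne _ (Subset.refl _))
          (hne _ (inter_subset_left.trans subset_union_left)))]
      ring
    rw [h2] at h1
    exact h1
  · rw [eq_empty_iff_forall_notMem]
    intro n hn
    rw [mem_filter] at hn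
    apply hab
    intro p hp
    rw [mem_inter] at hp
    exact ((hn.2.1 p hp.1).symm).trans (hn.2.2 p hp.2)

end Pool.Agent.GSU
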