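import Pool.Agent.GSU.St

/-!
# Module CSQ: square sums over residue classes
-/

set_option autoImplicit false

namespace Pool.Agent.GSU

open Finset N435e839e Pool.Agent.Lib_helper10.Erdos460

theorem CSQ (h1 : CLS_Stmt) (h2 : CAB_Stmt) : CSQ_Stmt := by
  intro y z Y r L0 w0 U hY hL0 hU hw hlev hm0
  have hYR : (1 : ℝ) ≤ (Y : ℝ) := by exact_mod_cast hY
  have hY0 : (0 : ℝ) < (Y : ℝ) := by linarith
  have hLR : (1 : ℝ) ≤ (L0 : ℝ) := by exact_mod_cast hL0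
  set m : ℝ := meanw w0 (P0 y) * Real.log 2 with hm
  set g : ℝ := ∏ p ∈ U, (p : ℝ) with hg
  have hg1 : 1 ≤ g := by
    have e : g = ((∏ p ∈ U, p : ℕ) : ℝ) := by
      rw [hg]
      push_cast
      rfl
    have h3 : 0 < ∏ p ∈ U, p := by
      refine Finset.prod_pos fun p hp => ?_
      have h4 := hU hp
      unfold P1 at h4
      exact (Nat.prime_of_mem_primesBelow (Finset.mem_filter.1 h4).1).pos
    rw [e]
    exact_mod_cast h3
  have hg0 : 0 < g := by linarith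
  have hmb : |m| ≤ 2 := by
    rw [hm, abs_mul, abs_of_pos (Real.log_pos one_lt_two)]
    have h3 : Real.log 2 ≤ 1 := by
      have := Real.log_two_lt_d9
      linarith
    calc |meanw w0 (P0 y)| * Real.log 2 ≤ 2 * 1 :=
          mul_le_mul hm0 h3 (Real.log_pos one_lt_two).le (by norm_num)
      _ = 2 := by norm_num
  -- the class sums
  have hcls : ∀ a : ℕ, |(∑ b ∈ (Ioc Y (2 * Y)).filter (fun b => ∀ p ∈ U, a ≡ b [MOD p]),
      ca w0 y r b) - m / g| ≤ 2 * L0 / Y := by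
    intro a
    have h3 := h1 y z Y r a L0 w0 U hY hU hw hlev
    have e : (Ioc Y (2 * Y)).filter (fun b => ∀ p ∈ U, a ≡ b [MOD p]) =
        (Ioc Y (2 * Y)).filter (fun b => ∀ p ∈ U, b ≡ a [MOD p]) := by
      refine Finset.filter_congr fun b _ => ?_
      exact ⟨fun h p hp => (h p hp).symm, fun h p hp => (h p hp).symm⟩
    rw [e]
    exact h3
  have htot : |(∑ a ∈ Ioc Y (2 * Y), ca w0 y r a) - m| ≤ 2 * L0 / Y := by
    have h3 := h1 y z Y r 0 L0 w0 ∅ hY (Finset.empty_subset _) hw hlev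
    simpa using h3
  obtain ⟨_, hab⟩ := h2 y Y r L0 w0 hY hw hlev
  set C : ℕ → ℝ := fun a => ∑ b ∈ (Ioc Y (2 * Y)).filter (fun b => ∀ p ∈ U, a ≡ b [MOD p]),
      ca w0 y r b with hC
  have e1 : ∑ a ∈ Ioc Y (2 * Y),
      ∑ b ∈ (Ioc Y (2 * Y)).filter (fun b => ∀ p ∈ U, a ≡ b [MOD p]),
        ca w0 y r a * ca w0 y r b = ∑ a ∈ Ioc Y (2 * Y), ca w0 y r a * C a :=
    Finset.sum_congr rfl fun a _ => (Finset.mul_sum _ _ _).symm
  have e2 : g * (∑ a ∈ Ioc Y (2 * Y), ca w0 y r a * C a) - m ^ 2 =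
      m * ((∑ a ∈ Ioc Y (2 * Y), ca w0 y r a) - m) +
        g * ∑ a ∈ Ioc Y (2 * Y), ca w0 y r a * (C a - m / g) := by
    have e3 : ∑ a ∈ Ioc Y (2 * Y), ca w0 y r a * (C a - m / g) =
        (∑ a ∈ Ioc Y (2 * Y), ca w0 y r a * C a) -
          (∑ a ∈ Ioc Y (2 * Y), ca w0 y r a) * (m / g) := by
      rw [Finset.sum_mul, ← Finset.sum_sub_distrib]
      refine Finset.sum_congr rfl fun a _ => ?_
      ring
    rw [e3]
    have e4 : g * ((∑ a ∈ Ioc Y (2 * Y), ca w0 y r a) * (m / g)) =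
        m * ∑ a ∈ Ioc Y (2 * Y), ca w0 y r a := by
      field_simp
    linear_combination e4
  have hd : (0 : ℝ) ≤ 2 * L0 / Y := by positivity
  have b1 : |m * ((∑ a ∈ Ioc Y (2 * Y), ca w0 y r a) - m)| ≤ 2 * (2 * L0 / Y) := by
    rw [abs_mul]
    exact mul_le_mul hmb htot (abs_nonneg _) (by norm_num)
  have b2 : |∑ a ∈ Ioc Y (2 * Y), ca w0 y r a * (C a - m / g)| ≤ L0 * (2 * L0 / Y) := by
    refine (Finset.abs_sum_le_sum_abs _ _).trans ?_
    calc ∑ a ∈ Ioc Y (2 * Y), |ca w0 y r a * (C a - m / g)|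
        ≤ ∑ a ∈ Ioc Y (2 * Y), |ca w0 y r a| * (2 * L0 / Y) := by
          refine Finset.sum_le_sum fun a _ => ?_
          rw [abs_mul]
          exact mul_le_mul_of_nonneg_left (hcls a) (abs_nonneg _)
      _ = (∑ a ∈ Ioc Y (2 * Y), |ca w0 y r a|) * (2 * L0 / Y) := by rw [Finset.sum_mul]
      _ ≤ L0 * (2 * L0 / Y) := mul_le_mul_of_nonneg_right hab hd
  have hsq : √(Y : ℝ) ≤ Y := by
    rw [Real.sqrt_le_left hY0.le]
    nlinarith
  have hsq0 : 0 < √(Y : ℝ) := Real.sqrt_pos.2 hY0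
  have b3 : 2 * (2 * (L0 : ℝ) / Y) + g * (L0 * (2 * L0 / Y)) ≤
      16 * (L0 : ℝ) ^ 2 * g / √(Y : ℝ) := by
    have h3 : 2 * (2 * (L0 : ℝ) / Y) + g * (L0 * (2 * L0 / Y)) =
        (4 * L0 + 2 * g * (L0 : ℝ) ^ 2) / Y := by
      field_simp
      ring
    rw [h3]
    have h4 : 4 * (L0 : ℝ) + 2 * g * (L0 : ℝ) ^ 2 ≤ 16 * (L0 : ℝ) ^ 2 * g := by
      have h5 : (L0 : ℝ) ≤ (L0 : ℝ) ^ 2 * g := by
        have h6 : (L0 : ℝ) * 1 ≤ (L0 : ℝ) * (L0 * g) := by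
          apply mul_le_mul_of_nonneg_left _ (by linarith)
          nlinarith
        nlinarith
      nlinarith
    calc (4 * (L0 : ℝ) + 2 * g * (L0 : ℝ) ^ 2) / Y ≤ (16 * (L0 : ℝ) ^ 2 * g) / Y :=
          div_le_div_of_nonneg_right h4 hY0.le
      _ ≤ 16 * (L0 : ℝ) ^ 2 * g / √(Y : ℝ) :=
          div_le_div_of_nonneg_left (by positivity) hsq0 hsq
  rw [e1, e2]
  refine (abs_add_le _ _).trans ?_
  rw [abs_mul g, abs_of_pos hg0]
  exact (add_le_add b1 (mul_le_mul_of_nonneg_left b2 hg0.le)).trans b3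

end Pool.Agent.GSU
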