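import Pool.Agent.GSU.St

/-!
# DEC: decomposition of the greedy sum into dyadic blocks
-/

set_option autoImplicit false

namespace Pool.Agent.GSU

open Finset N435e839e Pool.Agent.Lib_helper10.Erdos460

namespace LDEC

/-- contribution of the selected `a` in `(A, B]` -/
noncomputable def T (n A B : ℕ) : ℝ :=
  ∑ a ∈ (Ioc A B).filter (fun a => a ∈ selected false n), (1 : ℝ) / a

theorem T_add (n A B D : ℕ) (hAB : A ≤ B) (hBD : B ≤ D) : T n A D = T n A B + T n B D := by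
  unfold T
  rw [← Ioc_union_Ioc_eq_Ioc hAB hBD, filter_union, sum_union]
  refine disjoint_left.2 fun a ha ha' => ?_
  rw [mem_filter, mem_Ioc] at ha ha'
  omega

theorem T_nonneg (n A B : ℕ) : 0 ≤ T n A B :=
  sum_nonneg fun a _ => by positivity

theorem T_blocks (n J0 J1 : ℕ) (h : J0 ≤ J1) :
    ∑ j ∈ Ico J0 J1, Bk n (2 ^ j) = T n (2 ^ J0) (2 ^ J1) := by
  induction J1, h using Nat.le_induction with
  | base =>
    unfold T
    simp
  | succ j hj ih =>
    rw [sum_Ico_succ_top hj, ih, T_add n (2 ^ J0) (2 ^ j) (2 ^ (j + 1))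
      (Nat.pow_le_pow_right (by norm_num) hj) (Nat.pow_le_pow_right (by norm_num) (by omega))]
    unfold Bk
    rw [show 2 * 2 ^ j = 2 ^ (j + 1) by ring]
    rfl

theorem T_small (n y : ℕ) :
    ∑ a ∈ (selected false n).filter (fun a => a ≤ y), (1 : ℝ) / a = T n 0 y := by
  unfold T
  refine sum_congr ?_ fun _ _ => rfl
  ext a
  rw [mem_filter, mem_filter, mem_Ioc]
  constructor
  · rintro ⟨h1, h2⟩
    exact ⟨⟨sel_pos h1, h2⟩, h1⟩
  · rintro ⟨⟨_, h2⟩, h1⟩
    exact ⟨h1, h2⟩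

theorem T_total (n : ℕ) : totalSum false n = T n 0 (n - 1) := by
  unfold totalSum
  rw [← T_small]
  refine sum_congr ?_ fun _ _ => rfl
  ext a
  rw [mem_filter]
  constructor
  · intro h
    have := sel_lt h
    exact ⟨h, by omega⟩
  · exact fun h => h.1

end LDEC

open LDEC in
theorem DEC : DEC_Stmt := by
  obtain ⟨C, hC, h⟩ := tail_bound
  refine ⟨4 * C, by positivity, fun y n J0 J1 hy hyJ hJ hJn hJ0 => ?_⟩
  have hpow : 2 ^ J0 ≤ 2 ^ J1 := Nat.pow_le_pow_right (by norm_num) hJ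
  have hJ0' : 2 ≤ 2 ^ J0 := by
    calc 2 = 2 ^ 1 := by norm_num
      _ ≤ 2 ^ J0 := Nat.pow_le_pow_right (by norm_num) hJ0
  have e1 : totalSum false n = T n 0 y + T n y (2 ^ J0) + T n (2 ^ J0) (2 ^ J1) +
      T n (2 ^ J1) (n - 1) := by
    rw [T_total, T_add n 0 y (n - 1) (by omega) (by omega),
      T_add n y (2 ^ J0) (n - 1) hyJ (by omega),
      T_add n (2 ^ J0) (2 ^ J1) (n - 1) hpow (by omega)]
    ring
  rw [e1, T_small, T_blocks n J0 J1 hJ]
  have e2 : T n 0 y + T n y (2 ^ J0) + T n (2 ^ J0) (2 ^ J1) + T n (2 ^ J1) (n - 1) - T n 0 y -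
      T n (2 ^ J0) (2 ^ J1) = T n y (2 ^ J0) + T n (2 ^ J1) (n - 1) := by ring
  rw [e2, abs_of_nonneg (add_nonneg (T_nonneg _ _ _) (T_nonneg _ _ _))]
  have b1 := h n y (2 ^ J0) hy hyJ (by omega)
  have b2 := h n (2 ^ J1) (n - 1) (by omega) (by omega) (by omega)
  have hlog2 : (1 : ℝ) / 2 < Real.log 2 := by
    have := Real.log_two_gt_d9
    linarith
  have hy0 : (2 : ℝ) ≤ y := by exact_mod_cast hy
  have hly : Real.log 2 ≤ Real.log y := Real.log_le_log (by norm_num) hy0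
  have hly0 : 0 < Real.log y := by linarith
  have hJ0r : (1 : ℝ) ≤ J0 := by exact_mod_cast hJ0
  have hJ1r : (1 : ℝ) ≤ J1 := by exact_mod_cast hJ0.trans hJ
  have l0 : Real.log ((2 ^ J0 : ℕ) : ℝ) = J0 * Real.log 2 := by
    push_cast
    rw [Real.log_pow]
  have l1 : Real.log ((2 ^ J1 : ℕ) : ℝ) = J1 * Real.log 2 := by
    push_cast
    rw [Real.log_pow]
  have c0 : 1 / 2 ≤ (J0 : ℝ) * Real.log 2 := by nlinarith
  have c1 : 1 / 2 ≤ (J1 : ℝ) * Real.log 2 := by nlinarith
  have hn1 : (2 : ℝ) ≤ ((n - 1 : ℕ) : ℝ) := by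
    have : 2 ≤ n - 1 := by omega
    exact_mod_cast this
  have hnn : ((n - 1 : ℕ) : ℝ) ≤ (n : ℝ) := by
    exact_mod_cast Nat.sub_le n 1
  have ln1 : 0 < Real.log ((n - 1 : ℕ) : ℝ) := Real.log_pos (by linarith)
  have lnn : Real.log ((n - 1 : ℕ) : ℝ) ≤ Real.log n := Real.log_le_log (by linarith) hnn
  have lln : Real.log (Real.log ((n - 1 : ℕ) : ℝ)) ≤ Real.log (Real.log n) :=
    Real.log_le_log ln1 lnn
  have hlyJ : Real.log y ≤ J0 * Real.log 2 := by
    rw [← l0]
    exact Real.log_le_log (by linarith) (by exact_mod_cast hyJ)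
  have hlJn : (J1 : ℝ) * Real.log 2 ≤ Real.log n := by
    rw [← l1]
    exact Real.log_le_log (by positivity) (by exact_mod_cast hJn.le)
  have p1 : 0 ≤ Real.log (J0 * Real.log 2 / Real.log y) := by
    apply Real.log_nonneg
    rw [le_div_iff₀ hly0]
    linarith
  have p2 : 0 ≤ Real.log (Real.log n / (J1 * Real.log 2)) := by
    apply Real.log_nonneg
    rw [le_div_iff₀ (by linarith)]
    linarith
  have q1 : Real.log (J0 * Real.log 2 / Real.log y) =
      Real.log (J0 * Real.log 2) - Real.log (Real.log y) :=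
    Real.log_div (by linarith) hly0.ne'
  have q2 : Real.log (Real.log n / (J1 * Real.log 2)) =
      Real.log (Real.log n) - Real.log (J1 * Real.log 2) :=
    Real.log_div (by linarith) (by linarith)
  have r1 : 1 / Real.log y ≤ 2 := by
    rw [div_le_iff₀ hly0]
    linarith
  have r2 : 1 / ((J1 : ℝ) * Real.log 2) ≤ 2 := by
    rw [div_le_iff₀ (by linarith)]
    linarith
  rw [l0] at b1
  rw [l1] at b2
  set P := Real.log (J0 * Real.log 2 / Real.log y) with hP
  set Q := Real.log (Real.log n / (J1 * Real.log 2)) with hQ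
  have s1 : T n y (2 ^ J0) ≤ C * (2 + P) := by
    refine le_trans b1 (mul_le_mul_of_nonneg_left ?_ hC.le)
    linarith
  have s2 : T n (2 ^ J1) (n - 1) ≤ C * (2 + Q) := by
    refine le_trans b2 (mul_le_mul_of_nonneg_left ?_ hC.le)
    linarith
  nlinarith [mul_nonneg hC.le p1, mul_nonneg hC.le p2]

end Pool.Agent.GSU
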