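import Pool.Agent.GSU.St

/-!
# FCA: on a residue class the sieve sum has the coefficients `c_a`
-/

set_option autoImplicit false

namespace Pool.Agent.GSU

open Finset N435e839e Pool.Agent.Lib_helper10.Erdos460

namespace LFCA

lemma hit_class {y M K r n : ℕ} (h : n ∈ cls M K (qq y) r) (a : ℕ) :
    hit (P0 y) n a = hit (P0 y) r a := by
  have h1 : n ≡ r [MOD qq y] := (mem_filter.1 h).2
  unfold hit
  refine filter_congr fun p hp => ?_
  have h2 : n ≡ r [MOD p] := h1.of_dvd (dvd_prod_of_mem _ hp)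
  exact ⟨fun h3 => h2.symm.trans h3, fun h3 => h2.trans h3⟩

lemma subsum_hit (P : Finset ℕ) (w : Finset ℕ → ℝ) (n a : ℕ) :
    subsum w (hit P n a) =
      ∑ T ∈ P.powerset, w T * (if ∀ p ∈ T, n ≡ a [MOD p] then 1 else 0) := by
  have h1 : (hit P n a).powerset = P.powerset.filter (fun T => ∀ p ∈ T, n ≡ a [MOD p]) := by
    ext T
    rw [mem_filter, mem_powerset, mem_powerset]
    unfold hit
    constructor
    · intro h
      exact ⟨fun p hp => (mem_filter.1 (h hp)).1, fun p hp => (mem_filter.1 (h hp)).2⟩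
    · rintro ⟨h2, h3⟩ p hp
      exact mem_filter.2 ⟨h2 hp, h3 p hp⟩
  unfold subsum
  rw [h1, sum_filter]
  refine sum_congr rfl fun T _ => ?_
  split_ifs <;> simp

end LFCA

theorem FCA : FCA_Stmt := by
  intro y z Y M K r n w0 w1 h
  unfold F
  refine sum_congr rfl fun a _ => ?_
  rw [LFCA.hit_class h a, LFCA.subsum_hit (P1 y z) w1 n a]
  unfold ca
  rw [mul_assoc]

end Pool.Agent.GSU
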