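import Pool.Agent.GSU.St

/-!
# Theorem U from the main part and the trivial bound for small `n`
-/

set_option autoImplicit false

namespace Pool.Agent.GSU

open Finset N435e839e Pool.Agent.Lib_helper10.Erdos460

namespace LFIN

lemma qq_eq (y : ℕ) : qq y = primorial y := rfl

/-- The numerical estimate. -/
lemma num (N M q y : ℕ) (C : ℝ) (hC : 4 ≤ C) (hy : 2 ≤ y) (hN : Real.exp (C * y) ≤ N)
    (hM : (M : ℝ) ^ 2 ≤ N) (hq : 1 ≤ q) (hq4 : (q : ℝ) ≤ 4 ^ y) :
    ((M : ℝ) / q + 1) * (1 + 3 * Real.log N) ^ 2 ≤ 392 * ((N : ℝ) / q) := by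
  have hy' : (2 : ℝ) ≤ y := by exact_mod_cast hy
  have hNpos : (0 : ℝ) < N := lt_of_lt_of_le (Real.exp_pos _) hN
  have hqpos : (0 : ℝ) < q := by exact_mod_cast hq
  set s : ℝ := Real.sqrt N with hs
  have hs0 : 0 < s := Real.sqrt_pos.2 hNpos
  have hss : s * s = N := Real.mul_self_sqrt hNpos.le
  set u : ℝ := Real.sqrt s with hu
  have hu0 : 0 < u := Real.sqrt_pos.2 hs0
  have huu : u * u = s := Real.mul_self_sqrt hs0.le
  have hlog : Real.log N = 4 * Real.log u := by
    rw [← hss, ← huu, Real.log_mul (by positivity) (by positivity),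
      Real.log_mul hu0.ne' hu0.ne']
    ring
  have hlu : Real.log u ≤ u := (Real.log_le_sub_one_of_pos hu0).trans (by linarith)
  have hL : Real.log N ≤ 4 * u := by rw [hlog]; linarith
  have hL2 : 2 ≤ Real.log N := by
    have h1 : C * y ≤ Real.log N := (Real.le_log_iff_exp_le hNpos).2 hN
    nlinarith
  have hfac : (1 + 3 * Real.log N) ^ 2 ≤ 196 * s := by
    have h1 : 1 + 3 * Real.log N ≤ 14 * u := by linarith
    have h0 : 0 ≤ 1 + 3 * Real.log N := by linarith
    calc (1 + 3 * Real.log N) ^ 2 ≤ (14 * u) ^ 2 := by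
            apply pow_le_pow_left₀ h0 h1
      _ = 196 * s := by rw [← huu]; ring
  have hMs : (M : ℝ) ≤ s := by
    apply Real.le_sqrt_of_sq_le hM
  have hqs : (q : ℝ) ≤ s := by
    have h4 : (4 : ℝ) ≤ Real.exp 2 := by
      have h1 : (2.7182818283 : ℝ) < Real.exp 1 := Real.exp_one_gt_d9
      have h2 : Real.exp 2 = Real.exp 1 * Real.exp 1 := by rw [← Real.exp_add]; norm_num
      rw [h2]; nlinarith
    have h5 : (4 : ℝ) ^ y ≤ Real.exp (2 * y) := by
      calc (4 : ℝ) ^ y ≤ (Real.exp 2) ^ y := pow_le_pow_left₀ (by norm_num) h4 y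
        _ = Real.exp (2 * y) := by rw [← Real.exp_nat_mul]; congr 1; ring
    have h6 : Real.exp (2 * y) ≤ s := by
      apply Real.le_sqrt_of_sq_le
      calc Real.exp (2 * y) ^ 2 = Real.exp (4 * y) := by
            rw [← Real.exp_nat_mul]; congr 1; push_cast; ring
        _ ≤ Real.exp (C * y) := by
            apply Real.exp_le_exp.2; nlinarith
        _ ≤ N := hN
    linarith
  have hone : 1 ≤ s / q := by
    rw [le_div_iff₀ hqpos]; linarith
  have hMq : (M : ℝ) / q + 1 ≤ 2 * (s / q) := by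
    have : (M : ℝ) / q ≤ s / q := div_le_div_of_nonneg_right hMs hqpos.le
    linarith
  have hMq0 : 0 ≤ (M : ℝ) / q + 1 := by positivity
  calc ((M : ℝ) / q + 1) * (1 + 3 * Real.log N) ^ 2
      ≤ (2 * (s / q)) * (196 * s) := by
        apply mul_le_mul hMq hfac (by positivity) (by positivity)
    _ = 392 * ((N : ℝ) / q) := by rw [← hss]; ring

end LFIN

theorem FIN (h1 : MAI_Stmt) (h2 : SMA_Stmt) : FIN_Stmt := by
  obtain ⟨C1, hC1, hmai⟩ := h1
  refine ⟨C1 + 392 + 4, by linarith, ?_⟩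
  intro y N r hy hN
  have hy' : (2 : ℝ) ≤ y := by exact_mod_cast hy
  have hNpos : (0 : ℝ) < N := lt_of_lt_of_le (Real.exp_pos _) hN
  have hq1 : 1 ≤ primorial y := primorial_pos y
  have hqpos : (0 : ℝ) < (primorial y : ℝ) := by exact_mod_cast hq1
  have hN1 : Real.exp (C1 * y) ≤ N := by
    refine le_trans (Real.exp_le_exp.2 ?_) hN
    nlinarith
  have hyN : y ≤ N := by
    have h3 : (y : ℝ) ≤ N := by
      calc (y : ℝ) ≤ (C1 + 392 + 4) * y + 1 := by nlinarith
        _ ≤ Real.exp ((C1 + 392 + 4) * y) := Real.add_one_le_exp _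
        _ ≤ N := hN
    exact_mod_cast h3
  set M : ℕ := Nat.sqrt N with hM
  have hMN : M ≤ N := Nat.sqrt_le_self N
  set t : ℕ → ℝ := fun n => (totalSum false n -
    (∑ a ∈ (selected false n).filter (fun a => a ≤ y), (1 : ℝ) / a) -
      Real.exp (-Real.eulerMascheroniConstant) * Real.log (Real.log N / Real.log y)) ^ 2 with ht
  have hsplit : (Icc 1 N).filter (fun n => n ≡ r [MOD primorial y]) =
      (Icc 1 M).filter (fun n => n ≡ r [MOD primorial y]) ∪ cls M (N - M) (qq y) r := by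
    ext n
    simp only [mem_filter, mem_union, mem_Icc, cls, mem_Ioc, LFIN.qq_eq]
    constructor
    · rintro ⟨⟨ha, hb⟩, hc⟩
      by_cases hn : n ≤ M
      · exact Or.inl ⟨⟨ha, hn⟩, hc⟩
      · exact Or.inr ⟨⟨by omega, by omega⟩, hc⟩
    · rintro (⟨⟨ha, hb⟩, hc⟩ | ⟨⟨ha, hb⟩, hc⟩)
      · exact ⟨⟨ha, by omega⟩, hc⟩
      · exact ⟨⟨by omega, by omega⟩, hc⟩
  have hdisj : Disjoint ((Icc 1 M).filter (fun n => n ≡ r [MOD primorial y]))
      (cls M (N - M) (qq y) r) := by
    rw [Finset.disjoint_left]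
    intro n hn hn'
    simp only [mem_filter, mem_Icc, cls, mem_Ioc] at hn hn'
    omega
  have hcard : ((((Icc 1 M).filter (fun n => n ≡ r [MOD primorial y])).card : ℕ) : ℝ) ≤
      (M : ℝ) / primorial y + 1 := by
    have h3 := count_modEq 0 M (primorial y) r hq1
    have h4 : (Icc 1 M).filter (fun n => n ≡ r [MOD primorial y]) =
        (Ioc 0 (0 + M)).filter (fun n => n ≡ r [MOD primorial y]) := by
      ext n
      simp only [mem_filter, mem_Icc, mem_Ioc]
      constructor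
      · rintro ⟨⟨ha, hb⟩, hc⟩
        exact ⟨⟨by omega, by omega⟩, hc⟩
      · rintro ⟨⟨ha, hb⟩, hc⟩
        exact ⟨⟨by omega, by omega⟩, hc⟩
    rw [h4]
    have h5 := (abs_le.1 h3).2
    linarith
  have hsmall : ∑ n ∈ (Icc 1 M).filter (fun n => n ≡ r [MOD primorial y]), t n ≤
      ((M : ℝ) / primorial y + 1) * (1 + 3 * Real.log N) ^ 2 := by
    calc ∑ n ∈ (Icc 1 M).filter (fun n => n ≡ r [MOD primorial y]), t n
        ≤ ∑ n ∈ (Icc 1 M).filter (fun n => n ≡ r [MOD primorial y]),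
            (1 + 3 * Real.log N) ^ 2 := by
          apply Finset.sum_le_sum
          intro n hn
          rw [mem_filter, mem_Icc] at hn
          exact h2 y N n hy hyN hn.1.1 (by omega)
      _ = ((((Icc 1 M).filter (fun n => n ≡ r [MOD primorial y])).card : ℕ) : ℝ) *
            (1 + 3 * Real.log N) ^ 2 := by
          rw [Finset.sum_const, nsmul_eq_mul]
      _ ≤ _ := mul_le_mul_of_nonneg_right hcard (sq_nonneg _)
  have hMsq : (M : ℝ) ^ 2 ≤ N := by
    have h3 : M ^ 2 ≤ N := by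
      have := Nat.sqrt_le' N
      simpa [hM] using this
    exact_mod_cast h3
  have hq4 : ((primorial y : ℕ) : ℝ) ≤ 4 ^ y := by
    exact_mod_cast primorial_le_four_pow y
  have hnum := LFIN.num N M (primorial y) y (C1 + 392 + 4) (by linarith) hy hN hMsq hq1 hq4
  have hmain := hmai y N r hy hN1
  rw [hsplit, Finset.sum_union hdisj]
  have hmain' : ∑ n ∈ cls M (N - M) (qq y) r, t n ≤ C1 * ((N : ℝ) / primorial y) := hmain
  have hNq : 0 ≤ (N : ℝ) / primorial y := by positivity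
  calc _ ≤ ((M : ℝ) / primorial y + 1) * (1 + 3 * Real.log N) ^ 2 +
        C1 * ((N : ℝ) / primorial y) := add_le_add hsmall hmain'
    _ ≤ 392 * ((N : ℝ) / primorial y) + C1 * ((N : ℝ) / primorial y) := by linarith
    _ ≤ (C1 + 392 + 4) * ((N : ℝ) / primorial y) := by nlinarith

end Pool.Agent.GSU
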