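import Pool.Agent.GSU.St

/-!
# Module HAR: finite sums of the harmonic series
-/

set_option autoImplicit false

namespace Pool.Agent.GSU

open Finset

lemma LHAR.aux (J0 : ℕ) (h0 : 1 ≤ J0) (J1 : ℕ) (h : J0 ≤ J1) :
    0 ≤ (∑ j ∈ Ico J0 J1, 1 / (j : ℝ)) - Real.log (J1 / J0) ∧
      (∑ j ∈ Ico J0 J1, 1 / (j : ℝ)) - Real.log (J1 / J0) ≤ 1 / (J0 : ℝ) - 1 / (J1 : ℝ) := by
  have hJ0 : (0 : ℝ) < J0 := by exact_mod_cast h0
  induction J1, h using Nat.le_induction with
  | base => rw [Ico_self, sum_empty, div_self hJ0.ne', Real.log_one]; simp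
  | succ J hJ ih =>
    have hJp : (0 : ℝ) < J := hJ0.trans_le (by exact_mod_cast hJ)
    have hJ1 : (0 : ℝ) < (J : ℝ) + 1 := by linarith
    have e1 : Real.log (((J + 1 : ℕ) : ℝ) / J0) =
        Real.log (J / J0) + Real.log (((J : ℝ) + 1) / J) := by
      rw [← Real.log_mul (by positivity) (by positivity)]
      congr 1
      push_cast
      field_simp
    have l1 : Real.log (((J : ℝ) + 1) / J) ≤ 1 / J := by
      have := Real.log_le_sub_one_of_pos (show (0 : ℝ) < ((J : ℝ) + 1) / J by positivity)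
      have e : ((J : ℝ) + 1) / J - 1 = 1 / J := by field_simp; ring
      rwa [e] at this
    have l2 : 1 / ((J : ℝ) + 1) ≤ Real.log (((J : ℝ) + 1) / J) := by
      have := Real.one_sub_inv_le_log_of_pos (show (0 : ℝ) < ((J : ℝ) + 1) / J by positivity)
      have e : 1 - (((J : ℝ) + 1) / J)⁻¹ = 1 / ((J : ℝ) + 1) := by
        rw [inv_div]
        field_simp
        ring
      rwa [e] at this
    rw [Finset.sum_Ico_succ_top hJ, e1]
    push_cast
    constructor
    · linarith [ih.1]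
    · linarith [ih.2]

theorem HAR : HAR_Stmt := by
  intro J0 J1 h0 h
  obtain ⟨h1, h2⟩ := LHAR.aux J0 h0 J1 h
  have h3 : 1 / (J0 : ℝ) ≤ 1 := by
    rw [div_le_one (by exact_mod_cast h0)]
    exact_mod_cast h0
  have h4 : 0 ≤ 1 / (J1 : ℝ) := by positivity
  rw [abs_le]
  constructor <;> linarith

end Pool.Agent.GSU
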