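import Pool.Agent.GSU.St

/-!
# KPN: mean square of the rough sum of a block
-/

set_option autoImplicit false

namespace Pool.Agent.GSU

open Finset N435e839e Pool.Agent.Lib_helper10.Erdos460

namespace LKPN

lemma notlt (y z : ℕ) (h : y < z) :
    (Nat.primesBelow z).filter (fun p => ¬ y < p) = P0 y := by
  ext p
  simp only [mem_filter, P0, Nat.mem_primesBelow]
  constructor
  · rintro ⟨⟨h1, h2⟩, h3⟩
    exact ⟨by omega, h2⟩
  · rintro ⟨h1, h2⟩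
    exact ⟨⟨by omega, h2⟩, by omega⟩

/-- the product over the primes in `(y, z)` -/
noncomputable def V1 (y z : ℕ) : ℝ := ∏ p ∈ P1 y z, (1 - 1 / (p : ℝ))

lemma prime_P1 {y z p : ℕ} (hp : p ∈ P1 y z) : p.Prime :=
  (Nat.mem_primesBelow.1 (mem_filter.1 hp).1).2

lemma prime_P0 {y p : ℕ} (hp : p ∈ P0 y) : p.Prime :=
  (Nat.mem_primesBelow.1 hp).2

lemma V_split (y z : ℕ) (h : y < z) : V z = V (y + 1) * V1 y z := by
  have h1 := Finset.prod_filter_mul_prod_filter_not (Nat.primesBelow z) (fun p => y < p)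
    (fun p : ℕ => (1 - 1 / (p : ℝ)))
  rw [notlt y z h] at h1
  unfold V V1
  rw [← h1, mul_comm]
  rfl

lemma V1_pos (y z : ℕ) : 0 < V1 y z :=
  prod_pos fun _ hp => (prime_factor_bounds (prime_P1 hp)).1

lemma V1_le_one (y z : ℕ) : V1 y z ≤ 1 :=
  prod_le_one (fun _ hp => (prime_factor_bounds (prime_P1 hp)).1.le)
    fun _ hp => (prime_factor_bounds (prime_P1 hp)).2

lemma G3_pos (y z : ℕ) : 0 < G3 y z := prod_pos fun _ _ => by positivity

lemma G3_mul_le (y z : ℕ) : G3 y z * V1 y z ^ 3 ≤ 1 := by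
  unfold G3 V1
  rw [← prod_pow, ← prod_mul_distrib]
  refine prod_le_one ?_ ?_
  · intro p hp
    have := (prime_factor_bounds (prime_P1 hp)).1
    positivity
  · intro p hp
    have hp2 : (2 : ℝ) ≤ p := by exact_mod_cast (prime_P1 hp).two_le
    have h1 : 1 / (p : ℝ) ≤ 1 / 2 := one_div_le_one_div_of_le (by norm_num) hp2
    have h2 : 0 ≤ 1 / (p : ℝ) := by positivity
    have h3 : 3 / (p : ℝ) = 3 * (1 / (p : ℝ)) := by ring
    rw [h3]
    set x := 1 / (p : ℝ)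
    have h4 : (1 + 3 * x) * (1 - x) ^ 3 = 1 - x ^ 2 * (6 - 8 * x + 3 * x ^ 2) := by ring
    rw [h4]
    have h5 : 0 ≤ x ^ 2 * (6 - 8 * x + 3 * x ^ 2) :=
      mul_nonneg (sq_nonneg x) (by nlinarith [sq_nonneg x])
    linarith

/-- the pointwise estimate -/
lemma pt {R Fpp Fmp Fpm V0 V1 τ0 τ1 a0 b0 a1 b1 l : ℝ} (hl0 : 0 ≤ l) (hl1 : l ≤ 1)
    (hV0 : 0 ≤ V0) (hV1 : 0 ≤ V1) (hτ0 : 0 ≤ τ0) (hτ0' : τ0 ≤ 1 / 4) (hτ1 : 0 ≤ τ1)
    (hτ1' : τ1 ≤ 1 / 4) (ha0 : V0 ≤ a0) (ha0' : a0 ≤ V0 * (1 + τ0)) (hb0 : V0 * (1 - τ0) ≤ b0)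
    (ha1 : V1 ≤ a1) (ha1' : a1 ≤ V1 * (1 + τ1)) (hb1 : V1 * (1 - τ1) ≤ b1)
    (h1 : R ≤ Fpp) (h2 : Fmp + Fpm - Fpp ≤ R) :
    (R - V0 * V1 * l) ^ 2 ≤ 4 * ((Fpp - a0 * a1 * l) ^ 2 + (Fmp - b0 * a1 * l) ^ 2 +
      (Fpm - a0 * b1 * l) ^ 2 + 9 * (V0 * V1) ^ 2 * (τ0 + τ1) ^ 2) := by
  have hw : 0 ≤ V0 * V1 := mul_nonneg hV0 hV1
  have ha00 : 0 ≤ a0 := hV0.trans ha0
  have ha10 : 0 ≤ a1 := hV1.trans ha1
  have k1 : a0 * a1 ≤ V0 * (1 + τ0) * (V1 * (1 + τ1)) :=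
    mul_le_mul ha0' ha1' ha10 (mul_nonneg hV0 (by linarith))
  have k2 : V0 * V1 ≤ a0 * a1 := mul_le_mul ha0 ha1 hV1 ha00
  have k3 : V0 * (1 - τ0) * V1 ≤ b0 * a1 :=
    mul_le_mul hb0 ha1 hV1 ((mul_nonneg hV0 (by linarith)).trans hb0)
  have k4 : V0 * (V1 * (1 - τ1)) ≤ a0 * b1 :=
    mul_le_mul ha0 hb1 (mul_nonneg hV1 (by linarith)) ha00
  have hτ : τ0 * τ1 ≤ τ0 + τ1 := by nlinarith
  have hτn : 0 ≤ τ0 * τ1 := mul_nonneg hτ0 hτ1
  set w := V0 * V1 with hwdef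
  set D := 3 * w * (τ0 + τ1) with hD
  have hD0 : 0 ≤ D := by positivity
  have e1 : a0 * a1 - w ≤ D := by
    have : a0 * a1 ≤ w * (1 + τ0 + τ1 + τ0 * τ1) := by
      refine k1.trans (le_of_eq ?_)
      rw [hwdef]; ring
    nlinarith [mul_le_mul_of_nonneg_left hτ hw, mul_nonneg hw hτ0, mul_nonneg hw hτ1]
  have e2 : -D ≤ b0 * a1 + a0 * b1 - a0 * a1 - w := by
    have k3' : w * (1 - τ0) ≤ b0 * a1 := by
      refine le_trans (le_of_eq ?_) k3
      rw [hwdef]; ring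
    have k4' : w * (1 - τ1) ≤ a0 * b1 := by
      refine le_trans (le_of_eq ?_) k4
      rw [hwdef]; ring
    have k1' : a0 * a1 ≤ w * (1 + τ0 + τ1 + τ0 * τ1) := by
      refine k1.trans (le_of_eq ?_)
      rw [hwdef]; ring
    nlinarith [mul_le_mul_of_nonneg_left hτ hw, mul_nonneg hw hτ0, mul_nonneg hw hτ1]
  have e1' : (a0 * a1 - w) * l ≤ D :=
    (mul_le_mul_of_nonneg_right e1 hl0).trans (mul_le_of_le_one_right hD0 hl1)
  have e2' : -D ≤ (b0 * a1 + a0 * b1 - a0 * a1 - w) * l := by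
    have := mul_le_mul_of_nonneg_right e2 hl0
    have h5 := mul_le_of_le_one_right hD0 hl1
    linarith
  set x1 := Fpp - a0 * a1 * l with hx1
  set x2 := Fmp - b0 * a1 * l with hx2
  set x3 := Fpm - a0 * b1 * l with hx3
  have u1 : R - w * l ≤ x1 + D := by
    have : (a0 * a1 - w) * l = a0 * a1 * l - w * l := by ring
    rw [hx1]
    linarith
  have u2 : x2 + x3 - x1 - D ≤ R - w * l := by
    have : (b0 * a1 + a0 * b1 - a0 * a1 - w) * l =
      b0 * a1 * l + a0 * b1 * l - a0 * a1 * l - w * l := by ring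
    rw [hx1, hx2, hx3]
    linarith
  have u3 : |R - w * l| ≤ |x1| + |x2| + |x3| + D := by
    rw [abs_le]
    constructor
    · have := neg_abs_le x2
      have := neg_abs_le x3
      have := le_abs_self x1
      linarith
    · have := le_abs_self x1
      have := abs_nonneg x2
      have := abs_nonneg x3
      linarith
  have u4 : (R - w * l) ^ 2 ≤ (|x1| + |x2| + |x3| + D) ^ 2 := by
    rw [← sq_abs (R - w * l)]
    exact pow_le_pow_left₀ (abs_nonneg _) u3 2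
  have u5 : (|x1| + |x2| + |x3| + D) ^ 2 ≤ 4 * (|x1| ^ 2 + |x2| ^ 2 + |x3| ^ 2 + D ^ 2) := by
    nlinarith [sq_nonneg (|x1| - |x2|), sq_nonneg (|x1| - |x3|), sq_nonneg (|x1| - D),
      sq_nonneg (|x2| - |x3|), sq_nonneg (|x2| - D), sq_nonneg (|x3| - D)]
  rw [sq_abs, sq_abs, sq_abs] at u5
  refine u4.trans (u5.trans (le_of_eq ?_))
  rw [hD]
  ring

lemma cls_card (M K q r : ℕ) (hq : 0 < q) (hK : q ≤ K) :
    ((cls M K q r).card : ℝ) ≤ 2 * ((K : ℝ) / q) := by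
  have h1 := (abs_le.1 (count_modEq M K q r hq)).2
  have h2 : (1 : ℝ) ≤ (K : ℝ) / q := by
    rw [le_div_iff₀ (by exact_mod_cast hq), one_mul]
    exact_mod_cast hK
  unfold cls
  linarith

/-- the numerical estimates; `v = Y ^ (1/32)`, `w = K ^ (1/8)`, `ell = log Y` -/
lemma num1 {c ell v k0 G L0 : ℝ} (hc : 0 < c) (hv : 1 ≤ v) (hell : 0 < ell) (hellv : ell ≤ 32 * v)
    (hk0 : k0 ≤ (ell / c) ^ 4) (hG0 : 0 ≤ G) (hG : G ≤ (2 * ell / c) ^ 3)
    (hL00 : 0 ≤ L0) (hL0 : L0 ≤ v ^ 2) :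
    k0 * L0 ^ 2 * (G / v ^ 16) ≤ (8 * 32 ^ 11 / c ^ 7) * (1 / ell ^ 4) := by
  have hv0 : 0 < v := by linarith
  have h1 : k0 * L0 ^ 2 * G ≤ (ell / c) ^ 4 * (v ^ 2) ^ 2 * (2 * ell / c) ^ 3 := by
    refine mul_le_mul (mul_le_mul hk0 (pow_le_pow_left₀ hL00 hL0 2) (by positivity)
      (by positivity)) hG hG0 (by positivity)
  have h2 : ell ^ 11 ≤ (32 * v) ^ 11 := pow_le_pow_left₀ hell.le hellv 11
  have h3 : v ^ 11 ≤ v ^ 12 := pow_le_pow_right₀ hv (by norm_num)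
  have h4 : k0 * L0 ^ 2 * (G / v ^ 16) = k0 * L0 ^ 2 * G / v ^ 16 := by ring
  rw [h4, div_le_iff₀ (by positivity)]
  refine h1.trans ?_
  have h5 : (ell / c) ^ 4 * (v ^ 2) ^ 2 * (2 * ell / c) ^ 3 =
      (8 / c ^ 7) * v ^ 4 * ell ^ 11 * (1 / ell ^ 4) := by
    field_simp
    norm_num
  have h6 : 8 * 32 ^ 11 / c ^ 7 * (1 / ell ^ 4) * v ^ 16 =
      (8 / c ^ 7) * v ^ 4 * (32 ^ 11 * v ^ 12) * (1 / ell ^ 4) := by
    ring
  rw [h5, h6]
  refine mul_le_mul_of_nonneg_right (mul_le_mul_of_nonneg_left ?_ (by positivity)) (by positivity)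
  calc ell ^ 11 ≤ (32 * v) ^ 11 := h2
    _ = 32 ^ 11 * v ^ 11 := by ring
    _ ≤ 32 ^ 11 * v ^ 12 := by linarith

lemma num2 {c ell v w k0 L0 L1 q : ℝ} (hc : 0 < c) (hv : 1 ≤ v) (hell : 0 < ell)
    (hellv : ell ≤ 32 * v) (hk0 : k0 ≤ (ell / c) ^ 4)
    (hL00 : 0 ≤ L0) (hL0 : L0 ≤ v ^ 2) (hL10 : 0 ≤ L1) (hL1 : L1 ≤ w) (hw : 1 ≤ w)
    (hvw : v ^ 4 ≤ w) (hq : 0 < q) (hqw : q ≤ w ^ 2) :
    k0 * L0 ^ 2 * L1 ^ 2 ≤ (32 ^ 8 / c ^ 4) * (w ^ 8 / q) * (1 / ell ^ 4) := by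
  have hv0 : 0 < v := by linarith
  have hw0 : 0 < w := by linarith
  have h1 : k0 * L0 ^ 2 * L1 ^ 2 ≤ (ell / c) ^ 4 * (v ^ 2) ^ 2 * w ^ 2 := by
    refine mul_le_mul (mul_le_mul hk0 (pow_le_pow_left₀ hL00 hL0 2) (by positivity)
      (by positivity)) (pow_le_pow_left₀ hL10 hL1 2) (by positivity) (by positivity)
  refine h1.trans ?_
  have h2 : ell ^ 8 ≤ (32 * v) ^ 8 := pow_le_pow_left₀ hell.le hellv 8
  have h3 : ell ^ 8 * v ^ 4 * w ^ 2 * q ≤ 32 ^ 8 * w ^ 8 := by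
    calc ell ^ 8 * v ^ 4 * w ^ 2 * q ≤ (32 * v) ^ 8 * v ^ 4 * w ^ 2 * w ^ 2 := by
          refine mul_le_mul (mul_le_mul_of_nonneg_right (mul_le_mul_of_nonneg_right h2
            (by positivity)) (by positivity)) hqw hq.le (by positivity)
      _ = 32 ^ 8 * (v ^ 4) ^ 3 * w ^ 4 := by ring
      _ ≤ 32 ^ 8 * w ^ 3 * w ^ 4 := by
          refine mul_le_mul_of_nonneg_right (mul_le_mul_of_nonneg_left
            (pow_le_pow_left₀ (by positivity) hvw 3) (by positivity)) (by positivity)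
      _ = 32 ^ 8 * w ^ 7 := by ring
      _ ≤ 32 ^ 8 * w ^ 8 := by
          refine mul_le_mul_of_nonneg_left (pow_le_pow_right₀ hw (by norm_num)) (by positivity)
  have h5 : (ell / c) ^ 4 * (v ^ 2) ^ 2 * w ^ 2 =
      (ell ^ 8 * v ^ 4 * w ^ 2 * q) * (1 / (c ^ 4 * ell ^ 4 * q)) := by
    field_simp
  have h6 : 32 ^ 8 / c ^ 4 * (w ^ 8 / q) * (1 / ell ^ 4) =
      (32 ^ 8 * w ^ 8) * (1 / (c ^ 4 * ell ^ 4 * q)) := by
    field_simp
  rw [h5, h6]
  exact mul_le_mul_of_nonneg_right h3 (by positivity)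

lemma aux1 {y : ℝ} (h : 2 ≤ y) : y + 1 ≤ y ^ 2 := by nlinarith

lemma aux2 {a b : ℝ} (h : 1 / 4 * a ≤ b) : a ≤ 4 * b := by linarith

lemma aux3 {a V τ : ℝ} (hV0 : 0 ≤ V) (hV : V ≤ 1) (h1 : V ≤ a) (h2 : a ≤ V * (1 + τ))
    (hτ : τ ≤ 1 / 4) (_ : 0 ≤ τ) : |a| ≤ 2 := by
  rw [abs_le]
  constructor
  · linarith
  · nlinarith

lemma aux4 {b V τ : ℝ} (hV0 : 0 ≤ V) (hV : V ≤ 1) (h1 : V * (1 - τ) ≤ b) (h2 : b ≤ V)
    (hτ : τ ≤ 1 / 4) : |b| ≤ 2 := by
  have : 0 ≤ V * (1 - τ) := mul_nonneg hV0 (by linarith)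
  rw [abs_le]
  constructor <;> linarith

lemma fin1 {x1 x2 x3 cd T Q S2 A D : ℝ} (h1 : x1 ≤ 160 * A * Q * S2)
    (h2 : x2 ≤ 160 * A * Q * S2) (h3 : x3 ≤ 160 * A * Q * S2) (hcd : cd ≤ 2 * Q)
    (hT : T ≤ D * S2) (hT0 : 0 ≤ T) (hQ : 0 ≤ Q) :
    4 * (x1 + x2 + x3 + cd * (9 * T)) ≤ Q * S2 * (1920 * A + 72 * D) := by
  have e4 : cd * (9 * T) ≤ 2 * Q * (9 * (D * S2)) :=
    mul_le_mul hcd (by linarith) (by linarith) (by linarith)
  have e5 : Q * S2 * (1920 * A + 72 * D) =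
    4 * (160 * A * Q * S2 + 160 * A * Q * S2 + 160 * A * Q * S2 + 2 * Q * (9 * (D * S2))) := by
    ring
  rw [e5]
  linarith

end LKPN

open LKPN in
theorem KPN (h1 : PAR_Stmt) (h2 : RW_Stmt) (h3 : MNL_Stmt) (h4 : SND_Stmt) (h5 : VAR_Stmt) :
    KPN_Stmt := by
  classical
  obtain ⟨B0, hB0, C0, hC0, hPAR⟩ := h1
  obtain ⟨c, C', hc, hC', hVb⟩ := V_bounds
  set A1 : ℝ := 8 * 32 ^ 11 / c ^ 7 with hA1
  set A2 : ℝ := 32 ^ 8 / c ^ 4 with hA2
  have hA1p : 0 < A1 := by positivity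
  have hA2p : 0 < A2 := by positivity
  set CC : ℝ := 1 + 1920 * (A1 + A2) + 72 * (64 * C' * C0) ^ 2 with hCC
  have hCC1 : 1 ≤ CC := by
    have : 0 ≤ 1920 * (A1 + A2) + 72 * (64 * C' * C0) ^ 2 := by positivity
    linarith
  refine ⟨16 * B0, by omega, CC, by linarith, ?_⟩
  intro y z Y M K r hy hyY hYz hzY hYK hqK
  -- sizes
  have hy3 : 3 ^ (16 * B0) ≤ Y := le_trans (Nat.pow_le_pow_left (by omega) _) hyY
  have hY3 : 3 ≤ Y := by
    refine le_trans ?_ hy3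
    calc 3 = 3 ^ 1 := by norm_num
      _ ≤ 3 ^ (16 * B0) := Nat.pow_le_pow_right (by norm_num) (by omega)
  have hYp : 0 < Y := by omega
  have hyz : y < z := by
    by_contra hcon
    push Not at hcon
    have e1 : z ^ 2 ≤ y ^ 2 := Nat.pow_le_pow_left hcon 2
    have e2 : (y + 1) ^ 2 ≤ (y + 1) ^ (16 * B0) := Nat.pow_le_pow_right (by omega) (by omega)
    have e3 : y ^ 2 < (y + 1) ^ 2 := Nat.pow_lt_pow_left (by omega) (by norm_num)
    omega
  have hz2 : 2 ≤ z := by omega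
  have hzY2 : z ≤ Y ^ 2 := by nlinarith
  have hKp : 0 < K := lt_of_lt_of_le (Nat.pow_pos hYp) hYK
  have hYK1 : Y ≤ K := by
    refine le_trans ?_ hYK
    calc Y = Y ^ 1 := by ring
      _ ≤ Y ^ (16 * B0) := Nat.pow_le_pow_right hYp (by omega)
  have hyY1 : y + 1 ≤ Y := by
    refine le_trans ?_ hyY
    calc y + 1 = (y + 1) ^ 1 := by ring
      _ ≤ (y + 1) ^ (16 * B0) := Nat.pow_le_pow_right (by omega) (by omega)
  have hqp : 0 < qq y := prod_pos fun p hp => (prime_P0 hp).pos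
  have hqKn : qq y ≤ K := by
    refine le_trans ?_ hqK
    calc qq y = (qq y) ^ 1 := by ring
      _ ≤ (qq y) ^ 4 := Nat.pow_le_pow_right hqp (by norm_num)
  -- reals
  have hYR : (3 : ℝ) ≤ Y := by exact_mod_cast hY3
  have hYR0 : (0 : ℝ) < Y := by linarith
  have hKR0 : (0 : ℝ) < K := by exact_mod_cast hKp
  have hKR3 : (3 : ℝ) ≤ K := by exact_mod_cast hY3.trans hYK1
  set ell := Real.log Y with hell
  have hell0 : 0 < ell := Real.log_pos (by linarith)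
  set v : ℝ := (Y : ℝ) ^ ((1 : ℝ) / 32) with hv
  have hv0 : 0 < v := Real.rpow_pos_of_pos hYR0 _
  have hv1 : 1 ≤ v := Real.one_le_rpow (by linarith) (by norm_num)
  have hv32 : v ^ 32 = Y := by
    rw [hv, ← Real.rpow_natCast, ← Real.rpow_mul hYR0.le]
    norm_num
  have hellv' : ell = 32 * Real.log v := by
    rw [hell, ← hv32, Real.log_pow]
    norm_num
  have hellv : ell ≤ 32 * v := by
    have := Real.log_le_sub_one_of_pos hv0
    rw [hellv']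
    linarith
  set w : ℝ := (K : ℝ) ^ ((1 : ℝ) / 8) with hw
  have hw0 : 0 < w := Real.rpow_pos_of_pos hKR0 _
  have hw1 : 1 ≤ w := Real.one_le_rpow (by linarith) (by norm_num)
  have hw8 : w ^ 8 = K := by
    rw [hw, ← Real.rpow_natCast, ← Real.rpow_mul hKR0.le]
    norm_num
  have hlw : Real.log K = 8 * Real.log w := by
    rw [← hw8, Real.log_pow]
    norm_num
  have hlK : 0 < Real.log K := Real.log_pos (by linarith)
  -- the weights for the small primes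
  have hx0 : (((y + 1 : ℕ) : ℝ)) ^ B0 ≤ v ^ 2 := by
    have e1 : ((((y + 1 : ℕ) : ℝ)) ^ B0) ^ 16 ≤ (v ^ 2) ^ 16 := by
      have e2 : (v ^ 2) ^ 16 = Y := by rw [← hv32]; ring
      rw [e2, ← pow_mul, mul_comm B0 16]
      exact_mod_cast hyY
    exact le_of_pow_le_pow_left₀ (by norm_num) (by positivity) e1
  obtain ⟨s0, τ0, Up0, Low0, hW0, hs0, hτ00, hτ04, hτ0⟩ := hPAR (y + 1) (by omega) (v ^ 2) hx0
  -- the weights for the large primes
  have hx1 : ((z : ℝ)) ^ B0 ≤ w := by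
    have e1 : (((z : ℝ)) ^ B0) ^ 8 ≤ w ^ 8 := by
      rw [hw8, ← pow_mul]
      have e2 : z ^ (B0 * 8) ≤ K := by
        refine le_trans (Nat.pow_le_pow_left hzY2 _) ?_
        rw [← pow_mul]
        have : 2 * (B0 * 8) = 16 * B0 := by ring
        rw [this]
        exact hYK
      exact_mod_cast e2
    exact le_of_pow_le_pow_left₀ (by norm_num) hw0.le e1
  obtain ⟨s1, τ1, Up1, Low1, hW1, hs1, hτ10, hτ14, hτ1⟩ := hPAR z hz2 w hx1
  obtain ⟨Up, Low, hRW⟩ := h2 y z s1 τ1 Up1 Low1 hyz hW1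
  set L0 : ℕ := (y + 1) ^ s0 with hL0
  set L1 : ℕ := z ^ s1 with hL1
  set V0 : ℝ := V (y + 1) with hV0
  have hV0p : 0 < V0 := V_pos _
  have hV01 : V0 ≤ 1 := V_le_one _
  set W1 : ℝ := V1 y z with hW1def
  have hW1p : 0 < W1 := V1_pos y z
  have hW11 : W1 ≤ 1 := V1_le_one y z
  have hVz : V z = V0 * W1 := V_split y z hyz
  have hquot : V z / V0 = W1 := by rw [hVz]; field_simp
  set K1 : ℝ := V0⁻¹ ^ 2 with hK1
  have hK11 : 1 ≤ K1 := one_le_pow₀ (one_le_inv₀ hV0p |>.2 hV01)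
  -- means
  have hup0 := (h3 (P0 y) Up0 (fun p hp => prime_P0 hp)).1 hW0.up
  have hlow0 := (h3 (P0 y) Low0 (fun p hp => prime_P0 hp)).2 hW0.low
  have hup1 := (h3 (P1 y z) Up (fun p hp => prime_P1 hp)).1 hRW.up
  have hlow1 := (h3 (P1 y z) Low (fun p hp => prime_P1 hp)).2 hRW.low
  have eV0 : ∏ p ∈ P0 y, (1 - 1 / (p : ℝ)) = V0 := rfl
  have eW1 : ∏ p ∈ P1 y z, (1 - 1 / (p : ℝ)) = W1 := rfl
  rw [eV0] at hup0 hlow0
  rw [eW1] at hup1 hlow1
  have hup0' : meanw Up0 (P0 y) ≤ V0 * (1 + τ0) := hW0.up_mean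
  have hlow0' : V0 * (1 - τ0) ≤ meanw Low0 (P0 y) := hW0.low_mean
  have hup1' : meanw Up (P1 y z) ≤ W1 * (1 + τ1) := by
    have := hRW.up_mean
    rwa [← hV0, hquot] at this
  have hlow1' : W1 * (1 - τ1) ≤ meanw Low (P1 y z) := by
    have := hRW.low_mean
    rwa [← hV0, hquot] at this
  set a0 := meanw Up0 (P0 y) with ha0
  set b0 := meanw Low0 (P0 y) with hb0
  set a1 := meanw Up (P1 y z) with ha1
  set b1 := meanw Low (P1 y z) with hb1
  have ha0abs : |a0| ≤ 2 := aux3 hV0p.le hV01 hup0 hup0' hτ04 hτ00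
  have hb0abs : |b0| ≤ 2 := aux4 hV0p.le hV01 hlow0' hlow0 hτ04
  have ha1abs : |a1| ≤ 2 := aux3 hW1p.le hW11 hup1 hup1' hτ14 hτ10
  have hb1abs : |b1| ≤ 2 := aux4 hW1p.le hW11 hlow1' hlow1 hτ14
  have hL01 : 1 ≤ L0 := Nat.one_le_pow _ _ (by omega)
  have hL11 : 1 ≤ L1 := Nat.one_le_pow _ _ (by omega)
  have D1 : Dat y z Y L0 L1 K1 Up0 Up :=
    ⟨by omega, hL01, hL11, hK11, hW0.up_abs, hW0.up_level, ha0abs, hRW.up_abs, hRW.up_level,
      ha1abs⟩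
  have D2 : Dat y z Y L0 L1 K1 Low0 Up :=
    ⟨by omega, hL01, hL11, hK11, hW0.low_abs, hW0.low_level, hb0abs, hRW.up_abs, hRW.up_level,
      ha1abs⟩
  have D3 : Dat y z Y L0 L1 K1 Up0 Low :=
    ⟨by omega, hL01, hL11, hK11, hW0.up_abs, hW0.up_level, ha0abs, hRW.low_abs, hRW.low_level,
      hb1abs⟩
  have E1 := h5 y z Y M K r L0 L1 K1 Up0 Up D1
  have E2 := h5 y z Y M K r L0 L1 K1 Low0 Up D2
  have E3 := h5 y z Y M K r L0 L1 K1 Up0 Low D3
  rw [← ha0, ← ha1] at E1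
  rw [← hb0, ← ha1] at E2
  rw [← ha0, ← hb1] at E3
  -- pointwise
  have hl2 : Real.log 2 ≤ 1 := by
    have := Real.log_le_sub_one_of_pos (x := 2) (by norm_num)
    linarith
  have hl20 : 0 ≤ Real.log 2 := Real.log_nonneg (by norm_num)
  have hpt : ∀ n ∈ cls M K (qq y) r, (R (Nat.primesBelow z) n Y - V z * Real.log 2) ^ 2 ≤
      4 * ((F Up0 Up y z n Y - a0 * a1 * Real.log 2) ^ 2 +
        (F Low0 Up y z n Y - b0 * a1 * Real.log 2) ^ 2 +
        (F Up0 Low y z n Y - a0 * b1 * Real.log 2) ^ 2 +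
        9 * (V0 * W1) ^ 2 * (τ0 + τ1) ^ 2) := by
    intro n _
    have hs := h4 y z s0 τ0 Up0 Low0 K1 L1 τ1 Up Low hyz hW0 hRW n Y
    rw [hVz]
    exact pt hl20 hl2 hV0p.le hW1p.le hτ00 hτ04 hτ10 hτ14 hup0 hup0' hlow0' hup1 hup1' hlow1'
      hs.1 hs.2
  have hsum := sum_le_sum hpt
  rw [← mul_sum, sum_add_distrib, sum_add_distrib, sum_add_distrib, sum_const,
    nsmul_eq_mul] at hsum
  refine hsum.trans ?_
  set Q : ℝ := (K : ℝ) / qq y with hQ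
  have hqR : (0 : ℝ) < qq y := by exact_mod_cast hqp
  have hQ0 : 0 < Q := by positivity
  have hcard : ((cls M K (qq y) r).card : ℝ) ≤ 2 * Q := cls_card M K (qq y) r hqp hqKn
  set S : ℝ := Real.log y / ell ^ 2 + 1 / Real.log K with hS
  have hyR : (2 : ℝ) ≤ y := by exact_mod_cast hy
  have hly : Real.log 2 ≤ Real.log y := Real.log_le_log (by norm_num) hyR
  have hl2h : (1 : ℝ) / 2 ≤ Real.log 2 := by
    have := Real.log_two_gt_d9
    linarith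
  have hly0 : 0 < Real.log y := by linarith
  have hS0 : 0 < S := by positivity
  -- E
  have hlog1 : Real.log ((y + 1 : ℕ) : ℝ) ≤ ell :=
    Real.log_le_log (by positivity) (by exact_mod_cast hyY1)
  have hlog10 : 0 < Real.log ((y + 1 : ℕ) : ℝ) := by
    refine Real.log_pos ?_
    push_cast
    linarith
  have hV0l : c / Real.log ((y + 1 : ℕ) : ℝ) ≤ V0 := (hVb (y + 1) (by omega)).1
  have hV0inv : V0⁻¹ ≤ ell / c := by
    have e1 : V0⁻¹ ≤ (c / Real.log ((y + 1 : ℕ) : ℝ))⁻¹ :=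
      inv_anti₀ (by positivity) hV0l
    refine e1.trans ?_
    rw [inv_div]
    exact div_le_div_of_nonneg_right hlog1 hc.le
  have hk0 : K1 ^ 2 ≤ (ell / c) ^ 4 := by
    have : K1 ^ 2 = V0⁻¹ ^ 4 := by rw [hK1]; ring
    rw [this]
    exact pow_le_pow_left₀ (by positivity) hV0inv 4
  have hzR : (2 : ℝ) ≤ z := by exact_mod_cast hz2
  have hlz0 : 0 < Real.log z := Real.log_pos (by linarith)
  have hlz : Real.log z ≤ 2 * ell := by
    have e1 : Real.log z ≤ Real.log ((Y : ℝ) ^ 2) :=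
      Real.log_le_log (by linarith) (by exact_mod_cast hzY2)
    rw [Real.log_pow] at e1
    push_cast at e1
    exact e1
  have hlz' : ell ≤ 2 * Real.log z := by
    have e1 : Real.log Y ≤ Real.log ((z : ℝ) ^ 2) :=
      Real.log_le_log hYR0 (by exact_mod_cast hYz)
    rw [Real.log_pow] at e1
    push_cast at e1
    exact e1
  have hVzb := hVb z hz2
  have hG : G3 y z ≤ (2 * ell / c) ^ 3 := by
    have e1 : G3 y z ≤ (W1⁻¹) ^ 3 := by
      rw [inv_pow, ← one_div, le_div_iff₀ (by positivity)]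
      exact G3_mul_le y z
    have e2 : W1⁻¹ ≤ (V z)⁻¹ := by
      refine inv_anti₀ (V_pos z) ?_
      rw [hVz]
      exact mul_le_of_le_one_left hW1p.le hV01
    have e3 : (V z)⁻¹ ≤ (c / Real.log z)⁻¹ := inv_anti₀ (by positivity) hVzb.1
    have e4 : (c / Real.log z)⁻¹ ≤ 2 * ell / c := by
      rw [inv_div]
      exact div_le_div_of_nonneg_right hlz hc.le
    exact e1.trans (pow_le_pow_left₀ (by positivity) (e2.trans (e3.trans e4)) 3)
  have hL0v : (L0 : ℝ) ≤ v ^ 2 := by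
    rw [hL0]
    push_cast
    push_cast at hs0
    exact hs0
  have hL1w : (L1 : ℝ) ≤ w := by
    rw [hL1]
    push_cast
    exact hs1
  have hsqrt : √(Y : ℝ) = v ^ 16 := by
    rw [← hv32, show v ^ 32 = (v ^ 16) ^ 2 by ring]
    exact Real.sqrt_sq (by positivity)
  have hvw : v ^ 4 ≤ w := by
    have e1 : (v ^ 4) ^ 8 ≤ w ^ 8 := by
      rw [hw8, ← pow_mul, hv32]
      exact_mod_cast hYK1
    exact le_of_pow_le_pow_left₀ (by norm_num) hw0.le e1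
  have hqw : ((qq y : ℕ) : ℝ) ≤ w ^ 2 := by
    have e1 : (((qq y : ℕ) : ℝ)) ^ 4 ≤ (w ^ 2) ^ 4 := by
      rw [← pow_mul, show 2 * 4 = 8 by norm_num, hw8]
      exact_mod_cast hqK
    exact le_of_pow_le_pow_left₀ (by norm_num) (by positivity) e1
  have N1 := num1 hc hv1 hell0 hellv hk0 (G3_pos y z).le hG (Nat.cast_nonneg L0)
    hL0v
  have N2 := num2 hc hv1 hell0 hellv hk0 (Nat.cast_nonneg L0) hL0v (Nat.cast_nonneg L1) hL1w hw1
    hvw hqR hqw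
  rw [hw8, ← hQ, ← hA2] at N2
  rw [← hA1] at N1
  have hE : 40 * K1 ^ 2 * (L0 : ℝ) ^ 2 * (Q * (G3 y z / √(Y : ℝ)) + (L1 : ℝ) ^ 2) ≤
      40 * (A1 + A2) * Q * (1 / ell ^ 4) := by
    rw [hsqrt]
    have e1 := mul_le_mul_of_nonneg_left N1 hQ0.le
    have e2 : 40 * K1 ^ 2 * (L0 : ℝ) ^ 2 * (Q * (G3 y z / v ^ 16) + (L1 : ℝ) ^ 2) =
      40 * (Q * (K1 ^ 2 * (L0 : ℝ) ^ 2 * (G3 y z / v ^ 16))) +
        40 * (K1 ^ 2 * (L0 : ℝ) ^ 2 * (L1 : ℝ) ^ 2) := by ring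
    rw [e2]
    have e3 : 40 * (A1 + A2) * Q * (1 / ell ^ 4) =
      40 * (Q * (A1 * (1 / ell ^ 4))) + 40 * (A2 * Q * (1 / ell ^ 4)) := by ring
    rw [e3]
    exact add_le_add (mul_le_mul_of_nonneg_left e1 (by norm_num))
      (mul_le_mul_of_nonneg_left N2 (by norm_num))
  have hell4 : 1 / ell ^ 4 ≤ 4 * S ^ 2 := by
    have e1 : Real.log y / ell ^ 2 ≤ S := by
      have : 0 < 1 / Real.log K := by positivity
      rw [hS]
      linarith
    have e2 : (1 / 2) / ell ^ 2 ≤ Real.log y / ell ^ 2 :=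
      div_le_div_of_nonneg_right (by linarith) (by positivity)
    have e3 : ((1 / 2) / ell ^ 2) ^ 2 ≤ S ^ 2 :=
      pow_le_pow_left₀ (by positivity) (e2.trans e1) 2
    have e4 : ((1 / 2) / ell ^ 2) ^ 2 = (1 / 4) * (1 / ell ^ 4) := by
      field_simp
      norm_num
    rw [e4] at e3
    exact aux2 e3
  have hEE : 40 * K1 ^ 2 * (L0 : ℝ) ^ 2 * (Q * (G3 y z / √(Y : ℝ)) + (L1 : ℝ) ^ 2) ≤
      160 * (A1 + A2) * Q * S ^ 2 := by
    refine hE.trans ?_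
    have e1 := mul_le_mul_of_nonneg_left hell4 (by positivity : 0 ≤ 40 * (A1 + A2) * Q)
    exact e1.trans (le_of_eq (by ring))
  -- the last term
  have hlast : V0 * W1 * (τ0 + τ1) ≤ 64 * C' * C0 * S := by
    rw [← hVz]
    have e1 : V z ≤ 2 * C' / ell := by
      refine hVzb.2.trans ?_
      rw [div_le_div_iff₀ hlz0 hell0]
      exact (mul_le_mul_of_nonneg_left hlz' hC'.le).trans (le_of_eq (by ring))
    have e2 : τ0 ≤ 32 * C0 * Real.log y / ell := by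
      refine hτ0.trans ?_
      have e3 : Real.log (v ^ 2) = ell / 16 := by
        rw [Real.log_pow, hellv']
        push_cast
        ring
      have e4 : Real.log ((y + 1 : ℕ) : ℝ) ≤ 2 * Real.log y := by
        have e5 : Real.log ((y + 1 : ℕ) : ℝ) ≤ Real.log ((y : ℝ) ^ 2) := by
          refine Real.log_le_log (by positivity) ?_
          push_cast
          exact aux1 hyR
        rw [Real.log_pow] at e5
        push_cast at e5 ⊢
        exact e5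
      rw [e3, div_div_eq_mul_div]
      refine div_le_div_of_nonneg_right ?_ hell0.le
      have e6 := mul_le_mul_of_nonneg_right (mul_le_mul_of_nonneg_left e4 hC0.le)
        (by norm_num : (0 : ℝ) ≤ 16)
      exact e6.trans (le_of_eq (by ring))
    have e3 : τ1 ≤ 16 * C0 * ell / Real.log K := by
      refine hτ1.trans ?_
      have e4 : Real.log w = Real.log K / 8 := by
        rw [hlw]
        ring
      rw [e4, div_div_eq_mul_div]
      refine div_le_div_of_nonneg_right ?_ hlK.le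
      have e6 := mul_le_mul_of_nonneg_right (mul_le_mul_of_nonneg_left hlz hC0.le)
        (by norm_num : (0 : ℝ) ≤ 8)
      exact e6.trans (le_of_eq (by ring))
    calc V z * (τ0 + τ1) ≤ 2 * C' / ell * (32 * C0 * Real.log y / ell +
          16 * C0 * ell / Real.log K) := by
          exact mul_le_mul e1 (add_le_add e2 e3) (add_nonneg hτ00 hτ10) (by positivity)
      _ = 64 * C' * C0 * (Real.log y / ell ^ 2) + 32 * C' * C0 * (1 / Real.log K) := by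
          field_simp
          ring
      _ ≤ 64 * C' * C0 * S := by
          rw [hS]
          have e7 : 0 ≤ 32 * C' * C0 * (1 / Real.log K) := by positivity
          have e8 : 64 * C' * C0 * (Real.log y / ell ^ 2 + 1 / Real.log K) =
            64 * C' * C0 * (Real.log y / ell ^ 2) + 32 * C' * C0 * (1 / Real.log K) +
              32 * C' * C0 * (1 / Real.log K) := by ring
          rw [e8]
          exact le_add_of_nonneg_right e7
  have hlast2 : (V0 * W1) ^ 2 * (τ0 + τ1) ^ 2 ≤ (64 * C' * C0) ^ 2 * S ^ 2 := by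
    rw [← mul_pow, ← mul_pow]
    exact pow_le_pow_left₀ (by positivity) hlast 2
  have hfin := fin1 (E1.trans hEE) (E2.trans hEE) (E3.trans hEE) hcard hlast2
    (by positivity) hQ0.le
  rw [← mul_assoc 9] at hfin
  refine hfin.trans ?_
  have e5 : (1920 * (A1 + A2) + 72 * (64 * C' * C0) ^ 2) ≤ CC ^ 2 := by
    have e7 : CC ≤ CC ^ 2 := le_self_pow₀ hCC1 (by norm_num)
    refine le_trans ?_ e7
    rw [hCC, add_assoc]
    exact le_add_of_nonneg_left zero_le_one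
  have e6 := mul_le_mul_of_nonneg_left e5 (by positivity : 0 ≤ Q * S ^ 2)
  refine e6.trans (le_of_eq ?_)
  ring

end Pool.Agent.GSU
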