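import Pool.Agent.GSU.St

/-!
# MP_8775f9_nt, Theorem U: the main part (module MAI)
-/

set_option autoImplicit false

namespace Pool.Agent.GSU

open Finset N435e839e Pool.Agent.Lib_helper10.Erdos460

namespace LMAI

lemma qq_le (y : ℕ) : qq y ≤ 4 ^ y := primorial_le_four_pow y

lemma qq_pos (y : ℕ) : 0 < qq y := by
  unfold qq
  refine Finset.prod_pos fun p hp => ?_
  exact (Nat.prime_of_mem_primesBelow hp).pos

/-- Choice of `J0` and `J1`. -/
lemma params (B : ℕ) (hB : 1 ≤ B) : ∃ C : ℝ, 0 < C ∧ ∀ y N : ℕ, 2 ≤ y →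
    Real.exp (C * y) ≤ N → ∃ J0 J1 : ℕ, 1 ≤ J0 ∧ J0 ≤ J1 ∧ (y + 1) ^ B ≤ 2 ^ J0 ∧
      (J0 : ℝ) * Real.log 2 ≤ 3 * B * Real.log y ∧ 2 ^ (J1 + 1) ≤ Nat.sqrt N ∧
      2 ^ (J1 * B) ≤ N - Nat.sqrt N ∧ qq y ^ 4 ≤ N - Nat.sqrt N ∧
      Real.log N ≤ 2 * (2 * B + 4) * ((J1 : ℝ) * Real.log 2) ∧
      (J1 : ℝ) * Real.log 2 ≤ Real.log N := by
  refine ⟨2 * (2 * B + 4) * (3 * B + 1) + 20, by positivity, fun y N hy hN => ?_⟩
  have hBR : (1 : ℝ) ≤ B := by exact_mod_cast hB
  have hyR : (2 : ℝ) ≤ y := by exact_mod_cast hy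
  have hl2 : 0 < Real.log 2 := Real.log_pos (by norm_num)
  have hl21 : Real.log 2 ≤ 1 := by linarith [Real.log_two_lt_d9]
  have hly : Real.log 2 ≤ Real.log y := Real.log_le_log (by norm_num) hyR
  have hlyy : Real.log y ≤ y := (Real.log_le_sub_one_of_pos (by linarith)).trans (by linarith)
  have hNR : (0 : ℝ) < N := (Real.exp_pos _).trans_le hN
  have hN0 : N ≠ 0 := by
    rintro rfl
    simp at hNR
  have hlN : (2 * (2 * B + 4) * (3 * B + 1) + 20) * (y : ℝ) ≤ Real.log N := by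
    have := Real.log_le_log (Real.exp_pos _) hN
    rwa [Real.log_exp] at this
  -- `J0`
  set J0 := Nat.clog 2 ((y + 1) ^ B) with hJ0
  have a1 : (y + 1) ^ B ≤ 2 ^ J0 := Nat.le_pow_clog (by norm_num) _
  have a2 : 1 < (y + 1) ^ B := Nat.one_lt_pow (by omega) (by omega)
  have a3 : 1 ≤ J0 := by
    by_contra h
    have h0 : J0 = 0 := by omega
    rw [h0, pow_zero] at a1
    omega
  have a4 : 2 ^ (J0 - 1) < (y + 1) ^ B := Nat.pow_pred_clog_lt_self (by norm_num) a2
  have a5 : ((J0 : ℝ) - 1) * Real.log 2 ≤ B * Real.log (y + 1) := by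
    have h1 : ((2 : ℝ) ^ (J0 - 1)) ≤ ((y : ℝ) + 1) ^ B := by
      exact_mod_cast a4.le
    have h2 := Real.log_le_log (by positivity) h1
    rw [Real.log_pow, Real.log_pow, Nat.cast_sub a3, Nat.cast_one] at h2
    exact h2
  have a6 : Real.log (y + 1) ≤ 2 * Real.log y := by
    have h1 : (y : ℝ) + 1 ≤ (y : ℝ) ^ 2 := by nlinarith
    have h2 := Real.log_le_log (by positivity) h1
    rwa [Real.log_pow, Nat.cast_ofNat] at h2
  have a7 : (J0 : ℝ) * Real.log 2 ≤ 3 * B * Real.log y := by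
    have h1 : (B : ℝ) * Real.log (y + 1) ≤ B * (2 * Real.log y) :=
      mul_le_mul_of_nonneg_left a6 (by linarith)
    have h2 : Real.log y ≤ B * Real.log y := by nlinarith
    nlinarith
  -- `J1`
  set D : ℕ := 2 * B + 4 with hD
  have hDR : (D : ℝ) = 2 * B + 4 := by rw [hD]; push_cast; ring
  set J1 := Nat.log (2 ^ D) N with hJ1
  have b0 : 1 < 2 ^ D := Nat.one_lt_pow (by omega) (by norm_num)
  have b1 : 2 ^ (D * J1) ≤ N := by
    rw [pow_mul]
    exact Nat.pow_log_le_self _ hN0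
  have b2 : N < 2 ^ (D * (J1 + 1)) := by
    rw [pow_mul]
    exact Nat.lt_pow_succ_log_self b0 N
  have b3 : Real.log N ≤ D * ((J1 : ℝ) + 1) * Real.log 2 := by
    have h1 : (N : ℝ) ≤ (2 : ℝ) ^ (D * (J1 + 1)) := by exact_mod_cast b2.le
    have h2 := Real.log_le_log hNR h1
    rw [Real.log_pow] at h2
    push_cast at h2
    exact h2
  have hDpos : (0 : ℝ) < D := by rw [hDR]; linarith
  have hC1 : 2 * (D : ℝ) * (3 * B + 1) * y + 20 * y ≤ Real.log N := by
    rw [hDR]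
    linarith
  have b4 : J0 ≤ J1 := by
    have h1 : (D : ℝ) * (J0 * Real.log 2) ≤ D * (3 * B * y) := by
      refine mul_le_mul_of_nonneg_left (a7.trans ?_) hDpos.le
      exact mul_le_mul_of_nonneg_left hlyy (by linarith)
    have h3 : (D : ℝ) * Real.log 2 ≤ D * y := mul_le_mul_of_nonneg_left (by linarith) hDpos.le
    have h4 : 0 ≤ (D : ℝ) * (3 * B + 1) * y := by positivity
    have h5 : (D : ℝ) * (J0 * Real.log 2) ≤ D * (J1 * Real.log 2) := by nlinarith
    have h6 : (J0 : ℝ) * Real.log 2 ≤ J1 * Real.log 2 := le_of_mul_le_mul_left h5 hDpos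
    have h7 : (J0 : ℝ) ≤ J1 := le_of_mul_le_mul_right h6 hl2
    exact_mod_cast h7
  have hJ1 : 1 ≤ J1 := a3.trans b4
  have hDJ : 6 * J1 ≤ D * J1 := Nat.mul_le_mul_right _ (by omega)
  have b5 : 2 ^ (J1 + 1) ≤ Nat.sqrt N := by
    rw [Nat.le_sqrt, ← pow_add]
    exact (Nat.pow_le_pow_right (by norm_num) (by omega)).trans b1
  have b6 : 2 ≤ Nat.sqrt N := by
    have : 2 ^ 1 ≤ 2 ^ (J1 + 1) := Nat.pow_le_pow_right (by norm_num) (by omega)
    omega
  have b7 : 2 * Nat.sqrt N ≤ N := (Nat.mul_le_mul_right _ b6).trans (Nat.sqrt_le N)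
  have b8 : 2 ^ (J1 * B) ≤ N - Nat.sqrt N := by
    have h1 : 2 ^ (J1 * B + 1) ≤ N := by
      refine (Nat.pow_le_pow_right (by norm_num) ?_).trans b1
      have h2 : D * J1 = J1 * B + J1 * B + 4 * J1 := by rw [hD]; ring
      omega
    rw [pow_succ] at h1
    omega
  have b9 : qq y ^ 4 ≤ N - Nat.sqrt N := by
    have h1 : qq y ^ 4 ≤ 2 ^ (8 * y) := by
      calc qq y ^ 4 ≤ (4 ^ y) ^ 4 := Nat.pow_le_pow_left (qq_le y) 4
        _ = 2 ^ (8 * y) := by
          rw [show (4 : ℕ) = 2 ^ 2 by norm_num, ← pow_mul, ← pow_mul]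
          congr 1
          ring
    have h2 : 2 ^ (8 * y + 1) ≤ N := by
      have h3 : Real.log ((2 : ℝ) ^ (8 * y + 1)) ≤ Real.log N := by
        rw [Real.log_pow]
        push_cast
        have h4 : 0 ≤ 2 * (D : ℝ) * (3 * B + 1) * y := by positivity
        nlinarith
      have h5 : ((2 : ℝ) ^ (8 * y + 1)) ≤ N := (Real.log_le_log_iff (by positivity) hNR).1 h3
      exact_mod_cast h5
    rw [pow_succ] at h2
    omega
  refine ⟨J0, J1, a3, b4, a1, a7, b5, b8, b9, ?_, ?_⟩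
  · rw [← hDR]
    have h1 : (D : ℝ) * Real.log 2 ≤ D * y := mul_le_mul_of_nonneg_left (by linarith) hDpos.le
    have h2 : (0 : ℝ) ≤ D * B * y := by positivity
    nlinarith
  · have h1 : ((2 : ℝ) ^ J1) ≤ N := by
      have h2 : 2 ^ J1 ≤ N := (Nat.pow_le_pow_right (by norm_num) (by omega)).trans b1
      exact_mod_cast h2
    have h2 := Real.log_le_log (by positivity) h1
    rwa [Real.log_pow] at h2

lemma gam_nonneg : 0 ≤ gam := (Real.exp_pos _).le

lemma gam_le : gam ≤ 1 := by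
  unfold gam
  rw [Real.exp_le_one_iff]
  linarith [Real.one_half_lt_eulerMascheroniConstant]

/-- The pointwise bound. -/
lemma point (h4 : HAR_Stmt) {C5 : ℝ} (hC5 : 0 < C5)
    (hDEC : ∀ (y n J0 J1 : ℕ), 2 ≤ y → y ≤ 2 ^ J0 → J0 ≤ J1 → 2 ^ J1 < n → 1 ≤ J0 →
    |totalSum false n - (∑ a ∈ (selected false n).filter (fun a => a ≤ y), (1 : ℝ) / a) -
        ∑ j ∈ Ico J0 J1, Bk n (2 ^ j)| ≤
      C5 * (1 + Real.log (J0 * Real.log 2 / Real.log y) +
        Real.log (Real.log n / (J1 * Real.log 2)))) (B y N n J0 J1 : ℕ) (hB : 1 ≤ B)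
    (hy : 2 ≤ y) (p1 : 1 ≤ J0) (p2 : J0 ≤ J1) (p3 : y ≤ 2 ^ J0)
    (p4 : (J0 : ℝ) * Real.log 2 ≤ 3 * B * Real.log y) (p5 : 2 ^ J1 < n) (p6 : n ≤ N)
    (p7 : Real.log N ≤ 2 * (2 * B + 4) * ((J1 : ℝ) * Real.log 2))
    (p8 : (J1 : ℝ) * Real.log 2 ≤ Real.log N) :
    |totalSum false n - (∑ a ∈ (selected false n).filter (fun a => a ≤ y), (1 : ℝ) / a) -
        gam * Real.log (Real.log N / Real.log y)| ≤
      (C5 * (1 + Real.log (3 * B) + Real.log (2 * (2 * B + 4))) + 1 +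
        (Real.log (3 * B) + Real.log (2 * (2 * B + 4)))) +
      ∑ j ∈ Ico J0 J1, |Bk n (2 ^ j) - gam / j| := by
  have hBR : (1 : ℝ) ≤ B := by exact_mod_cast hB
  have hyR : (2 : ℝ) ≤ y := by exact_mod_cast hy
  have hl2 : 0 < Real.log 2 := Real.log_pos (by norm_num)
  have hly : 0 < Real.log y := Real.log_pos (by linarith)
  have hJ0 : (1 : ℝ) ≤ J0 := by exact_mod_cast p1
  have hJ1 : (1 : ℝ) ≤ J1 := by exact_mod_cast p1.trans p2
  have hn : (1 : ℝ) < n := by
    have : 1 < n := lt_of_le_of_lt Nat.one_le_two_pow p5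
    exact_mod_cast this
  have hnN : (n : ℝ) ≤ N := by exact_mod_cast p6
  have hln : 0 < Real.log n := Real.log_pos hn
  have hlnN : Real.log n ≤ Real.log N := Real.log_le_log (by linarith) hnN
  have hlN : 0 < Real.log N := hln.trans_le hlnN
  have q1 : Real.log y ≤ J0 * Real.log 2 := by
    have h1 : (y : ℝ) ≤ (2 : ℝ) ^ J0 := by exact_mod_cast p3
    have h2 := Real.log_le_log (by linarith) h1
    rwa [Real.log_pow] at h2
  have u1 : Real.log (J0 * Real.log 2 / Real.log y) ≤ Real.log (3 * B) := by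
    refine Real.log_le_log (by positivity) ?_
    rw [div_le_iff₀ hly]
    exact p4
  have u1' : 0 ≤ Real.log (J0 * Real.log 2 / Real.log y) := by
    apply Real.log_nonneg
    rw [le_div_iff₀ hly, one_mul]
    exact q1
  have hJ1l : 0 < (J1 : ℝ) * Real.log 2 := by positivity
  have u2 : Real.log (Real.log N / (J1 * Real.log 2)) ≤ Real.log (2 * (2 * B + 4)) := by
    refine Real.log_le_log (by positivity) ?_
    rw [div_le_iff₀ hJ1l]
    exact p7
  have u2' : 0 ≤ Real.log (Real.log N / (J1 * Real.log 2)) := by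
    apply Real.log_nonneg
    rw [le_div_iff₀ hJ1l, one_mul]
    exact p8
  have u3 : Real.log (Real.log n / (J1 * Real.log 2)) ≤ Real.log (2 * (2 * B + 4)) := by
    refine le_trans (Real.log_le_log (by positivity) ?_) u2
    exact div_le_div_of_nonneg_right hlnN hJ1l.le
  have d1 := hDEC y n J0 J1 hy p3 p2 p5 p1
  have d2 : C5 * (1 + Real.log (J0 * Real.log 2 / Real.log y) +
        Real.log (Real.log n / (J1 * Real.log 2))) ≤
      C5 * (1 + Real.log (3 * B) + Real.log (2 * (2 * B + 4))) :=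
    mul_le_mul_of_nonneg_left (by linarith) hC5.le
  have d3 := h4 J0 J1 p1 p2
  have d4 : Real.log (Real.log N / Real.log y) =
      Real.log ((J1 : ℝ) / J0) + Real.log (J0 * Real.log 2 / Real.log y) +
        Real.log (Real.log N / (J1 * Real.log 2)) := by
    rw [← Real.log_mul (by positivity) (by positivity), ← Real.log_mul (by positivity)
      (by positivity)]
    congr 1
    field_simp
  have d5 : |Real.log (Real.log N / Real.log y) - Real.log ((J1 : ℝ) / J0)| ≤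
      Real.log (3 * B) + Real.log (2 * (2 * B + 4)) := by
    rw [d4, abs_le]
    constructor <;> linarith
  have d6 : |(∑ j ∈ Ico J0 J1, Bk n (2 ^ j)) - gam * ∑ j ∈ Ico J0 J1, 1 / (j : ℝ)| ≤
      ∑ j ∈ Ico J0 J1, |Bk n (2 ^ j) - gam / j| := by
    rw [Finset.mul_sum, ← Finset.sum_sub_distrib]
    refine (Finset.abs_sum_le_sum_abs _ _).trans (le_of_eq ?_)
    refine Finset.sum_congr rfl fun j _ => ?_
    rw [mul_one_div]
  have d7 : |gam * (∑ j ∈ Ico J0 J1, 1 / (j : ℝ)) - gam * Real.log (Real.log N / Real.log y)| ≤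
      1 + (Real.log (3 * B) + Real.log (2 * (2 * B + 4))) := by
    rw [← mul_sub, abs_mul, abs_of_nonneg gam_nonneg]
    have h1 : |(∑ j ∈ Ico J0 J1, 1 / (j : ℝ)) - Real.log (Real.log N / Real.log y)| ≤
        1 + (Real.log (3 * B) + Real.log (2 * (2 * B + 4))) := by
      rw [abs_le] at d3 d5 ⊢
      constructor <;> linarith [d3.1, d3.2, d5.1, d5.2]
    calc gam * |(∑ j ∈ Ico J0 J1, 1 / (j : ℝ)) - Real.log (Real.log N / Real.log y)|
        ≤ 1 * |(∑ j ∈ Ico J0 J1, 1 / (j : ℝ)) - Real.log (Real.log N / Real.log y)| :=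
          mul_le_mul_of_nonneg_right gam_le (abs_nonneg _)
      _ ≤ _ := by rw [one_mul]; exact h1
  rw [abs_le] at d1 d6 d7 ⊢
  constructor <;> linarith [d1.1, d1.2, d6.1, d6.2, d7.1, d7.2]

end LMAI

open LMAI in
theorem MAI (h1 : BLK_Stmt) (h2 : MIN_Stmt) (h3 : SER_Stmt) (h4 : HAR_Stmt) (h5 : DEC_Stmt) :
    MAI_Stmt := by
  obtain ⟨B, hB, C1, hC1, hBLK⟩ := h1
  obtain ⟨C3, hC3, hSER⟩ := h3
  obtain ⟨C5, hC5, hDEC⟩ := h5
  obtain ⟨Cp, hCp, hpar⟩ := params B hB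
  set C' : ℝ := C5 * (1 + Real.log (3 * B) + Real.log (2 * (2 * B + 4))) + 1 +
        (Real.log (3 * B) + Real.log (2 * (2 * B + 4))) with hC'
  refine ⟨Cp + 4 * C' ^ 2 + 2 * (C1 * C3) ^ 2, by positivity, fun y N r hy hN => ?_⟩
  have hBR : (1 : ℝ) ≤ B := by exact_mod_cast hB
  have hyR : (2 : ℝ) ≤ y := by exact_mod_cast hy
  have hN' : Real.exp (Cp * y) ≤ N := by
    refine le_trans (Real.exp_le_exp.2 ?_) hN
    refine mul_le_mul_of_nonneg_right ?_ (by linarith)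
    have : 0 ≤ 4 * C' ^ 2 + 2 * (C1 * C3) ^ 2 := by positivity
    linarith
  obtain ⟨J0, J1, p1, p2, p3, p4, p5, p6, p7, p8, p9⟩ := hpar y N hy hN'
  set M := Nat.sqrt N with hM
  set K := N - M with hK
  have hMN : M ≤ N := Nat.sqrt_le_self N
  have hMK : M + K = N := by omega
  have hq : 0 < qq y := qq_pos y
  have hqR : (0 : ℝ) < qq y := by exact_mod_cast hq
  have hqK : qq y ≤ K := (Nat.le_self_pow (by norm_num) _).trans p7
  have hKN : K ≤ N := by omega
  have hKR : (K : ℝ) ≤ N := by exact_mod_cast hKN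
  have hqKR : (qq y : ℝ) ≤ K := by exact_mod_cast hqK
  have hy0 : y ≤ 2 ^ J0 := by
    refine le_trans ?_ p3
    exact (Nat.le_succ y).trans (Nat.le_self_pow (by omega) _)
  have hJK : 2 ^ J1 ≤ K := (Nat.pow_le_pow_right (by norm_num) (Nat.le_mul_of_pos_right _ hB)).trans p6
  have hK2 : 2 ≤ K := by
    have h1 : 2 ^ 1 ≤ 2 ^ J1 := Nat.pow_le_pow_right (by norm_num) (p1.trans p2)
    omega
  have hlK : 0 < Real.log K := Real.log_pos (by exact_mod_cast hK2)
  have hly : 0 < Real.log y := Real.log_pos (by linarith)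
  -- the number of elements of the class
  have hcard : ((cls M K (qq y) r).card : ℝ) ≤ 2 * ((N : ℝ) / qq y) := by
    have h1 := count_modEq M K (qq y) r hq
    have h2 : ((cls M K (qq y) r).card : ℝ) ≤ (K : ℝ) / qq y + 1 := by
      have h3 := (abs_le.1 h1).2
      unfold cls
      linarith
    have h3 : (1 : ℝ) ≤ (K : ℝ) / qq y := by rwa [le_div_iff₀ hqR, one_mul]
    have h4 : (K : ℝ) / qq y ≤ (N : ℝ) / qq y := div_le_div_of_nonneg_right hKR hqR.le
    linarith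
  -- the sum of the deviations
  have hX : ∑ n ∈ cls M K (qq y) r, (∑ j ∈ Ico J0 J1, |Bk n (2 ^ j) - gam / j|) ^ 2 ≤
      (N : ℝ) / qq y * (C1 * C3) ^ 2 := by
    have e1 : ∀ j ∈ Ico J0 J1, 0 < C1 * ((Real.log y + Real.log j + 1) / (j : ℝ) ^ 2 +
        1 / Real.log K) := by
      intro j hj
      rw [Finset.mem_Ico] at hj
      have hj1 : (1 : ℝ) ≤ j := by exact_mod_cast p1.trans hj.1
      have hlj : 0 ≤ Real.log j := Real.log_nonneg hj1
      positivity
    have e2 := h2 (cls M K (qq y) r) (Ico J0 J1) (fun j n => Bk n (2 ^ j) - gam / j)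
      (fun j => C1 * ((Real.log y + Real.log j + 1) / (j : ℝ) ^ 2 + 1 / Real.log K))
      ((K : ℝ) / qq y) e1 (by
        intro j hj
        rw [Finset.mem_Ico] at hj
        refine hBLK y j M K r hy ?_ ?_ ?_ p7
        · exact p3.trans (Nat.pow_le_pow_right (by norm_num) hj.1)
        · rw [← pow_succ']
          exact (Nat.pow_le_pow_right (by norm_num) (by omega)).trans p5
        · rw [← pow_mul]
          exact (Nat.pow_le_pow_right (by norm_num) (Nat.mul_le_mul_right _ hj.2.le)).trans p6)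
    refine e2.trans ?_
    rw [← Finset.mul_sum]
    have e3 := hSER y J0 J1 K hy hy0 p1 hJK
    have e4 : 0 ≤ ∑ j ∈ Ico J0 J1, ((Real.log y + Real.log j + 1) / (j : ℝ) ^ 2 +
        1 / Real.log K) := by
      refine Finset.sum_nonneg fun j hj => ?_
      have := e1 j hj
      exact (pos_of_mul_pos_right this hC1.le).le
    have e5 : (C1 * ∑ j ∈ Ico J0 J1, ((Real.log y + Real.log j + 1) / (j : ℝ) ^ 2 +
        1 / Real.log K)) ^ 2 ≤ (C1 * C3) ^ 2 :=
      pow_le_pow_left₀ (by positivity) (mul_le_mul_of_nonneg_left e3 hC1.le) 2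
    exact mul_le_mul (div_le_div_of_nonneg_right hKR hqR.le) e5 (by positivity) (by positivity)
  -- pointwise
  have hpt : ∀ n ∈ cls M K (qq y) r,
      (totalSum false n - (∑ a ∈ (selected false n).filter (fun a => a ≤ y), (1 : ℝ) / a) -
        gam * Real.log (Real.log N / Real.log y)) ^ 2 ≤
      2 * C' ^ 2 + 2 * (∑ j ∈ Ico J0 J1, |Bk n (2 ^ j) - gam / j|) ^ 2 := by
    intro n hn
    unfold cls at hn
    rw [Finset.mem_filter, Finset.mem_Ioc, hMK] at hn
    have h1 := point h4 hC5 hDEC B y N n J0 J1 hB hy p1 p2 hy0 p4 (by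
      have : 2 ^ J1 ≤ 2 ^ (J1 + 1) := Nat.pow_le_pow_right (by norm_num) (by omega)
      omega) hn.1.2 p8 p9
    rw [← hC'] at h1
    have h6 : 0 ≤ ∑ j ∈ Ico J0 J1, |Bk n (2 ^ j) - gam / j| :=
      Finset.sum_nonneg fun j _ => abs_nonneg _
    have h7 := abs_nonneg (totalSum false n -
      (∑ a ∈ (selected false n).filter (fun a => a ≤ y), (1 : ℝ) / a) -
        gam * Real.log (Real.log N / Real.log y))
    rw [← sq_abs]
    nlinarith [sq_nonneg (C' - ∑ j ∈ Ico J0 J1, |Bk n (2 ^ j) - gam / j|)]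
  refine (Finset.sum_le_sum hpt).trans ?_
  rw [Finset.sum_add_distrib, Finset.sum_const, nsmul_eq_mul, ← Finset.mul_sum]
  have hNq : 0 ≤ (N : ℝ) / qq y := by positivity
  have t1 : ((cls M K (qq y) r).card : ℝ) * (2 * C' ^ 2) ≤
      2 * ((N : ℝ) / qq y) * (2 * C' ^ 2) :=
    mul_le_mul_of_nonneg_right hcard (by positivity)
  nlinarith [mul_nonneg hCp.le hNq]

end Pool.Agent.GSU
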