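import Pool.Agent.GSU.St

/-!
# MER: the third theorem of Mertens with a rate
-/

set_option autoImplicit false

namespace Pool.Agent.GSU

open Finset N435e839e Pool.Agent.Lib_helper10.Erdos460

namespace LMER

lemma tail {n : ℕ} (hn : 1 ≤ n) : GG ≤ ∑ i ∈ range (n + 1), gg i + 2 / n := by
  have h1 := gg_summable.hasSum.tendsto_sum_nat
  refine le_of_tendsto h1 ?_
  filter_upwards [Filter.eventually_ge_atTop (n + 1)] with N hN
  obtain ⟨m, rfl⟩ : ∃ m, N = m + 1 := ⟨N - 1, by omega⟩
  have hnm : n ≤ m := by omega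
  have h2 : ∑ i ∈ range (m + 1), gg i = ∑ i ∈ range (n + 1), gg i + ∑ i ∈ Ioc n m, gg i := by
    rw [range_eq_Ico, range_eq_Ico, ← Finset.sum_Ico_consecutive _ (Nat.zero_le (n + 1))
      (by omega : n + 1 ≤ m + 1)]
    congr 1
    refine sum_congr ?_ fun _ _ => rfl
    ext i
    simp only [mem_Ico, mem_Ioc]
    omega
  rw [h2]
  have h3 : ∑ i ∈ Ioc n m, gg i ≤ ∑ i ∈ Ioc n m, 2 * ((i : ℝ) ^ 2)⁻¹ := by
    refine sum_le_sum fun i _ => ?_
    have := (gg_bounds i).2
    rwa [one_div] at this
  have h4 := sum_Ioc_inv_sq_le_sub (α := ℝ) (k := n) (n := m) (by omega) hnm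
  rw [← mul_sum] at h3
  have h5 : (0 : ℝ) ≤ (m : ℝ)⁻¹ := by positivity
  have h6 : (2 : ℝ) / n = 2 * (n : ℝ)⁻¹ := by rw [div_eq_mul_inv]
  rw [h6]
  have h7 : 2 * ∑ i ∈ Ioc n m, ((i : ℝ) ^ 2)⁻¹ ≤ 2 * ((n : ℝ)⁻¹ - (m : ℝ)⁻¹) :=
    mul_le_mul_of_nonneg_left h4 (by norm_num)
  linarith

lemma abs_exp_sub_one (t : ℝ) : |Real.exp t - 1| ≤ |t| * Real.exp |t| := by
  rcases le_total 0 t with h | h
  · rw [abs_of_nonneg h, abs_of_nonneg (by linarith [Real.one_le_exp h])]
    have h1 := Real.add_one_le_exp (-t)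
    have h2 : (1 - t) * Real.exp t ≤ 1 := by
      calc (1 - t) * Real.exp t ≤ Real.exp (-t) * Real.exp t :=
            mul_le_mul_of_nonneg_right (by linarith) (Real.exp_pos t).le
        _ = 1 := by rw [← Real.exp_add]; simp
    nlinarith
  · rw [abs_of_nonpos h, abs_of_nonpos (by linarith [Real.exp_le_one_iff.2 h])]
    have h1 := Real.add_one_le_exp t
    have h2 := Real.one_le_exp (x := -t) (by linarith)
    nlinarith

end LMER

open LMER in
theorem MER : MER_Stmt := by
  obtain ⟨M, C, hC0, hC⟩ := mertens_second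
  have hMG := M_add_GG M C hC
  have hl2 : 0 < Real.log 2 := Real.log_pos (by norm_num)
  have hgam : 0 < gam := Real.exp_pos _
  set K : ℝ := (C + 2) * Real.exp ((C + 2) / Real.log 2) with hK
  have hK0 : 0 ≤ K := by positivity
  refine ⟨4 * (gam * K + gam) + |V 2 - gam / Real.log (2 : ℕ)| * Real.log (2 : ℕ) ^ 2 + 1,
    by positivity, ?_⟩
  intro z hz
  rcases Nat.lt_or_ge z 3 with h3 | h3
  · obtain rfl : z = 2 := by omega
    have h2 : 0 < Real.log ((2 : ℕ) : ℝ) := by push_cast; exact hl2
    rw [le_div_iff₀ (by positivity)]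
    nlinarith [mul_pos hgam hgam, mul_nonneg hgam.le hK0]
  · obtain ⟨n, rfl⟩ : ∃ n, z = n + 1 := ⟨z - 1, by omega⟩
    have hn : 2 ≤ n := by omega
    have hnR : (2 : ℝ) ≤ n := by exact_mod_cast hn
    have hln : Real.log 2 ≤ Real.log n := Real.log_le_log (by norm_num) hnR
    have hln0 : 0 < Real.log n := by linarith
    have hln' : Real.log n ≤ n := (Real.log_le_sub_one_of_pos (by linarith)).trans (by linarith)
    have h1 := abs_le.1 (hC n hn)
    have hsum := sum_gg_primesLE n
    have ht1 := tail (n := n) (by omega)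
    have ht2 : ∑ i ∈ range (n + 1), gg i ≤ GG :=
      gg_summable.sum_le_tsum _ fun p _ => (gg_bounds p).1
    have h2n : 2 / (n : ℝ) ≤ 2 / Real.log n := div_le_div_of_nonneg_left (by norm_num) hln0 hln'
    have h5 := log_V n
    set t : ℝ := Real.log (V (n + 1)) + Real.log (Real.log n) +
      Real.eulerMascheroniConstant with ht
    have htb : |t| ≤ (C + 2) / Real.log n := by
      rw [add_div, abs_le]
      constructor <;> rw [ht, h5, hsum] <;> linarith
    have hV : V (n + 1) = gam / Real.log n * Real.exp t := by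
      have : Real.exp t = V (n + 1) * Real.log n / gam := by
        rw [ht, Real.exp_add, Real.exp_add, Real.exp_log (V_pos _), Real.exp_log hln0]
        unfold gam
        rw [Real.exp_neg, div_inv_eq_mul]
      rw [this]
      field_simp
    have htb2 : |t| ≤ (C + 2) / Real.log 2 :=
      htb.trans (div_le_div_of_nonneg_left (by positivity) hl2 hln)
    have he : |Real.exp t - 1| ≤ K / Real.log n := by
      refine (abs_exp_sub_one t).trans ?_
      calc |t| * Real.exp |t| ≤ ((C + 2) / Real.log n) * Real.exp ((C + 2) / Real.log 2) := by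
            gcongr
        _ = K / Real.log n := by rw [hK]; ring
    have h6 : |V (n + 1) - gam / Real.log n| ≤ gam * K / Real.log n ^ 2 := by
      rw [hV, show gam / Real.log n * Real.exp t - gam / Real.log n =
        gam / Real.log n * (Real.exp t - 1) by ring, abs_mul, abs_of_nonneg (by positivity)]
      calc gam / Real.log n * |Real.exp t - 1| ≤ gam / Real.log n * (K / Real.log n) := by
            gcongr
        _ = gam * K / Real.log n ^ 2 := by
            field_simp
    have hn1 : Real.log n ≤ Real.log ((n + 1 : ℕ) : ℝ) :=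
      Real.log_le_log (by linarith) (by push_cast; linarith)
    have hln1 : 0 < Real.log ((n + 1 : ℕ) : ℝ) := by linarith
    have hdiff : Real.log ((n + 1 : ℕ) : ℝ) - Real.log n ≤ 1 := by
      rw [← Real.log_div (by positivity) (by linarith)]
      refine (Real.log_le_sub_one_of_pos (by positivity)).trans ?_
      have : ((n + 1 : ℕ) : ℝ) / n ≤ 2 := by
        rw [div_le_iff₀ (by linarith)]
        push_cast
        linarith
      linarith
    have h7 : |gam / Real.log n - gam / Real.log ((n + 1 : ℕ) : ℝ)| ≤ gam / Real.log n ^ 2 := by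
      rw [show gam / Real.log n - gam / Real.log ((n + 1 : ℕ) : ℝ) =
        gam * (Real.log ((n + 1 : ℕ) : ℝ) - Real.log n) /
          (Real.log n * Real.log ((n + 1 : ℕ) : ℝ)) by field_simp]
      rw [abs_of_nonneg (div_nonneg (mul_nonneg hgam.le (by linarith)) (by positivity))]
      rw [div_le_div_iff₀ (by positivity) (by positivity)]
      have h8 : gam * (Real.log ((n + 1 : ℕ) : ℝ) - Real.log n) ≤ gam * 1 :=
        mul_le_mul_of_nonneg_left hdiff hgam.le
      have h9 : Real.log n ^ 2 ≤ Real.log n * Real.log ((n + 1 : ℕ) : ℝ) := by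
        rw [sq]
        exact mul_le_mul_of_nonneg_left hn1 hln0.le
      calc gam * (Real.log ((n + 1 : ℕ) : ℝ) - Real.log n) * Real.log n ^ 2 ≤
            gam * Real.log n ^ 2 := by
            have := mul_le_mul_of_nonneg_right h8 (sq_nonneg (Real.log n))
            linarith
        _ ≤ gam * (Real.log n * Real.log ((n + 1 : ℕ) : ℝ)) :=
            mul_le_mul_of_nonneg_left h9 hgam.le
    have h10 : Real.log ((n + 1 : ℕ) : ℝ) ≤ 2 * Real.log n := by
      have : ((n + 1 : ℕ) : ℝ) ≤ (n : ℝ) ^ 2 := by push_cast; nlinarith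
      calc Real.log ((n + 1 : ℕ) : ℝ) ≤ Real.log ((n : ℝ) ^ 2) :=
            Real.log_le_log (by positivity) this
        _ = 2 * Real.log n := by rw [Real.log_pow]; push_cast; ring
    have h11 : 1 / Real.log n ^ 2 ≤ 4 / Real.log ((n + 1 : ℕ) : ℝ) ^ 2 := by
      rw [div_le_div_iff₀ (by positivity) (by positivity)]
      nlinarith
    have h12 : |V (n + 1) - gam / Real.log ((n + 1 : ℕ) : ℝ)| ≤
        (gam * K + gam) * (1 / Real.log n ^ 2) := by
      calc |V (n + 1) - gam / Real.log ((n + 1 : ℕ) : ℝ)| =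
          |(V (n + 1) - gam / Real.log n) +
            (gam / Real.log n - gam / Real.log ((n + 1 : ℕ) : ℝ))| := by ring_nf
        _ ≤ |V (n + 1) - gam / Real.log n| +
            |gam / Real.log n - gam / Real.log ((n + 1 : ℕ) : ℝ)| := abs_add_le _ _
        _ ≤ gam * K / Real.log n ^ 2 + gam / Real.log n ^ 2 := add_le_add h6 h7
        _ = _ := by ring
    refine h12.trans ?_
    calc (gam * K + gam) * (1 / Real.log n ^ 2) ≤
          (gam * K + gam) * (4 / Real.log ((n + 1 : ℕ) : ℝ) ^ 2) := by gcongr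
      _ = 4 * (gam * K + gam) / Real.log ((n + 1 : ℕ) : ℝ) ^ 2 := by ring
      _ ≤ _ := by
          gcongr
          have : 0 ≤ |V 2 - gam / Real.log (2 : ℕ)| * Real.log (2 : ℕ) ^ 2 := by positivity
          linarith

end Pool.Agent.GSU
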