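import Pool.Agent.GSU.St

/-!
# Module MIN: a form of the Minkowski inequality
-/

set_option autoImplicit false

namespace Pool.Agent.GSU

open Finset

theorem MIN : MIN_Stmt := by
  intro I J f e A he hA
  have h1 : ∀ n ∈ I, (∑ j ∈ J, |f j n|) ^ 2 ≤ (∑ j ∈ J, e j) * ∑ j ∈ J, f j n ^ 2 / e j := by
    intro n _
    apply Finset.sum_sq_le_sum_mul_sum_of_sq_eq_mul
    · intro j hj
      exact (he j hj).le
    · intro j hj
      exact div_nonneg (sq_nonneg _) (he j hj).le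
    · intro j hj
      rw [sq_abs, mul_div_cancel₀ _ (he j hj).ne']
  have h2 : ∑ n ∈ I, ∑ j ∈ J, f j n ^ 2 / e j ≤ A * ∑ j ∈ J, e j := by
    rw [Finset.sum_comm, Finset.mul_sum]
    refine Finset.sum_le_sum fun j hj => ?_
    rw [← Finset.sum_div, div_le_iff₀ (he j hj)]
    calc ∑ n ∈ I, f j n ^ 2 ≤ A * e j ^ 2 := hA j hj
      _ = A * e j * e j := by ring
  have h3 : 0 ≤ ∑ j ∈ J, e j := Finset.sum_nonneg fun j hj => (he j hj).le
  calc ∑ n ∈ I, (∑ j ∈ J, |f j n|) ^ 2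
      ≤ ∑ n ∈ I, (∑ j ∈ J, e j) * ∑ j ∈ J, f j n ^ 2 / e j := Finset.sum_le_sum h1
    _ = (∑ j ∈ J, e j) * ∑ n ∈ I, ∑ j ∈ J, f j n ^ 2 / e j := by rw [Finset.mul_sum]
    _ ≤ (∑ j ∈ J, e j) * (A * ∑ j ∈ J, e j) := mul_le_mul_of_nonneg_left h2 h3
    _ = A * (∑ j ∈ J, e j) ^ 2 := by ring

end Pool.Agent.GSU
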