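import Pool.Agent.GSU.St

/-!
# MP_8775f9_nt (GSU): means of one-sided sieve weights (module MNL)
-/

set_option autoImplicit false

namespace Pool.Agent.GSU

open Finset N435e839e Pool.Agent.Lib_helper10.Erdos460

namespace LMNL

/-- the probability of the random subset `S0` of `Q` -/
noncomputable def pr (Q S0 : Finset ℕ) : ℝ :=
  (∏ p ∈ S0, 1 / (p : ℝ)) * ∏ p ∈ Q \ S0, (1 - 1 / (p : ℝ))

theorem pr_nonneg {Q S0 : Finset ℕ} (hQ : ∀ p ∈ Q, p.Prime) : 0 ≤ pr Q S0 := by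
  refine mul_nonneg (prod_nonneg fun _ _ => by positivity) (prod_nonneg fun p hp => ?_)
  exact (prime_factor_bounds (hQ p (mem_sdiff.mp hp).1)).1.le

theorem sum_ind0 (Q : Finset ℕ) :
    ∑ S0 ∈ Q.powerset, pr Q S0 * ind0 S0 = ∏ p ∈ Q, (1 - 1 / (p : ℝ)) := by
  rw [sum_eq_single (∅ : Finset ℕ)]
  · simp [pr, ind0]
  · intro S0 _ hS0
    simp [ind0, hS0]
  · intro h
    exact absurd (empty_mem_powerset Q) h

theorem mean_eq (h : AVG_Stmt) (Q : Finset ℕ) (w : Finset ℕ → ℝ) :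
    meanw w Q = ∑ S0 ∈ Q.powerset, pr Q S0 * subsum w S0 := by
  have h1 := h Q ∅ w (disjoint_empty_right Q)
  simp only [empty_union, powerset_empty, sum_singleton] at h1
  exact h1.symm

end LMNL

open LMNL in
theorem MNL (h : AVG_Stmt) : MNL_Stmt := by
  intro Q w hQ
  constructor
  · intro hw
    rw [mean_eq h, ← sum_ind0 Q]
    exact sum_le_sum fun S0 hS0 =>
      mul_le_mul_of_nonneg_left (hw S0 (mem_powerset.mp hS0)) (pr_nonneg hQ)
  · intro hw
    rw [mean_eq h, ← sum_ind0 Q]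
    exact sum_le_sum fun S0 hS0 =>
      mul_le_mul_of_nonneg_left (hw S0 (mem_powerset.mp hS0)) (pr_nonneg hQ)

end Pool.Agent.GSU
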