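import Pool.Agent.GSU.St

/-!
# First moment of the sieve sums over a residue class
-/

set_option autoImplicit false

namespace Pool.Agent.GSU

open Finset N435e839e Pool.Agent.Lib_helper10.Erdos460

namespace LMO1

lemma prime_P1 {y z p : ℕ} (h : p ∈ P1 y z) : p.Prime := by
  unfold P1 at h
  exact Nat.prime_of_mem_primesBelow (mem_filter.1 h).1

/-- The inner sums. -/
lemma inner (h2 : CNT_Stmt) {y z M K r L1 : ℕ} {K1 : ℝ} {w1 : Finset ℕ → ℝ} (hK1 : 1 ≤ K1)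
    (hw1 : ∀ T ⊆ P1 y z, |w1 T| ≤ K1)
    (hw1L : ∀ T ⊆ P1 y z, w1 T ≠ 0 → ∏ q ∈ T, q ≤ L1) (a : ℕ) :
    |(∑ n ∈ cls M K (qq y) r,
        ∑ T ∈ (P1 y z).powerset, w1 T * (if ∀ p ∈ T, n ≡ a [MOD p] then 1 else 0)) -
      (K : ℝ) / qq y * meanw w1 (P1 y z)| ≤ K1 * L1 := by
  classical
  have e1 : (∑ n ∈ cls M K (qq y) r,
      ∑ T ∈ (P1 y z).powerset, w1 T * (if ∀ p ∈ T, n ≡ a [MOD p] then (1 : ℝ) else 0)) =
      ∑ T ∈ (P1 y z).powerset,
        w1 T * (((cls M K (qq y) r).filter (fun n => ∀ p ∈ T, n ≡ a [MOD p])).card : ℝ) := by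
    rw [sum_comm]
    refine sum_congr rfl fun T _ => ?_
    rw [← mul_sum, sum_ite, sum_const_zero, add_zero, sum_const, nsmul_eq_mul, mul_one]
  have e2 : (K : ℝ) / qq y * meanw w1 (P1 y z) =
      ∑ T ∈ (P1 y z).powerset, w1 T * ((K : ℝ) / qq y * ∏ p ∈ T, 1 / (p : ℝ)) := by
    unfold meanw
    rw [mul_sum]
    refine sum_congr rfl fun T _ => ?_
    ring
  rw [e1, e2, ← sum_sub_distrib]
  have hterm : ∀ T ∈ (P1 y z).powerset,
      |w1 T * (((cls M K (qq y) r).filter (fun n => ∀ p ∈ T, n ≡ a [MOD p])).card : ℝ) -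
        w1 T * ((K : ℝ) / qq y * ∏ p ∈ T, 1 / (p : ℝ))| ≤ if w1 T ≠ 0 then K1 else 0 := by
    intro T hT
    have hTP := mem_powerset.1 hT
    split_ifs with h0
    · rw [← mul_sub, abs_mul]
      have h3 := (h2 y z M K r a a T ∅ hTP (empty_subset _)).1 (by simp)
      have e3 : (cls M K (qq y) r).filter (fun n => (∀ p ∈ T, n ≡ a [MOD p]) ∧
          ∀ p ∈ (∅ : Finset ℕ), n ≡ a [MOD p]) =
          (cls M K (qq y) r).filter (fun n => ∀ p ∈ T, n ≡ a [MOD p]) := by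
        refine filter_congr fun n _ => ?_
        simp
      rw [e3] at h3
      have e4 : (∏ p ∈ T ∩ ∅, (p : ℝ)) / ((∏ p ∈ T, (p : ℝ)) * ∏ p ∈ (∅ : Finset ℕ), (p : ℝ)) =
          ∏ p ∈ T, 1 / (p : ℝ) := by
        rw [inter_empty, prod_empty, mul_one]
        simp only [one_div]
        rw [prod_inv_distrib]
      rw [e4] at h3
      calc |w1 T| * _ ≤ K1 * 1 := mul_le_mul (hw1 T hTP) h3 (abs_nonneg _) (by linarith)
        _ = K1 := mul_one _
    · have h0' : w1 T = 0 := by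
        by_contra h
        exact h0 h
      rw [h0', zero_mul, zero_mul, sub_zero, abs_zero]
  refine (abs_sum_le_sum_abs _ _).trans ((sum_le_sum hterm).trans ?_)
  rw [← sum_filter, sum_const, nsmul_eq_mul, mul_comm]
  refine mul_le_mul_of_nonneg_left ?_ (by linarith)
  exact_mod_cast card_support_le w1 (P1 y z) (fun q hq => prime_P1 hq) L1 hw1L

end LMO1

open LMO1

theorem MO1 (h1 : FCA_Stmt) (h2 : CNT_Stmt) (h3 : CLS_Stmt) (h4 : CAB_Stmt) : MO1_Stmt := by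
  classical
  intro y z Y M K r L0 L1 K1 w0 w1 hd
  obtain ⟨hY, hL0, hL1, hK1, hw0, hw0L, hm0, hw1, hw1L, hm1⟩ := hd
  set m0 := meanw w0 (P0 y) with hm0d
  set m1 := meanw w1 (P1 y z) with hm1d
  set k : ℝ := (K : ℝ) / qq y with hk
  have hk0 : 0 ≤ k := by positivity
  set G : ℕ → ℝ := fun a => ∑ n ∈ cls M K (qq y) r,
    ∑ T ∈ (P1 y z).powerset, w1 T * (if ∀ p ∈ T, n ≡ a [MOD p] then 1 else 0) with hG
  have e1 : (∑ n ∈ cls M K (qq y) r, F w0 w1 y z n Y) =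
      ∑ a ∈ Ioc Y (2 * Y), ca w0 y r a * G a := by
    rw [sum_congr rfl fun n hn => h1 y z Y M K r n w0 w1 hn, sum_comm]
    refine sum_congr rfl fun a _ => ?_
    rw [hG, mul_sum]
  have hGb : ∀ a, |G a - k * m1| ≤ K1 * L1 := fun a => inner h2 hK1 hw1 hw1L a
  have hcls := h3 y z Y r 0 L0 w0 ∅ hY (empty_subset _) hw0 hw0L
  have e2 : (Ioc Y (2 * Y)).filter (fun a => ∀ p ∈ (∅ : Finset ℕ), a ≡ 0 [MOD p]) =
      Ioc Y (2 * Y) := by
    refine filter_true_of_mem fun a _ => ?_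
    simp
  rw [e2, prod_empty, div_one] at hcls
  have hcab := (h4 y Y r L0 w0 hY hw0 hw0L).2
  set S := ∑ a ∈ Ioc Y (2 * Y), ca w0 y r a with hS
  have e3 : (∑ a ∈ Ioc Y (2 * Y), ca w0 y r a * G a) - k * (m0 * m1 * Real.log 2) =
      (∑ a ∈ Ioc Y (2 * Y), ca w0 y r a * (G a - k * m1)) +
        k * m1 * (S - m0 * Real.log 2) := by
    have : ∑ a ∈ Ioc Y (2 * Y), ca w0 y r a * (G a - k * m1) =
        (∑ a ∈ Ioc Y (2 * Y), ca w0 y r a * G a) - S * (k * m1) := by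
      rw [hS, sum_mul, ← sum_sub_distrib]
      exact sum_congr rfl fun a _ => by ring
    rw [this]
    ring
  rw [e1, e3]
  have hK10 : 0 ≤ K1 * (L1 : ℝ) := by
    have : 0 ≤ K1 := by linarith
    positivity
  have b1 : |∑ a ∈ Ioc Y (2 * Y), ca w0 y r a * (G a - k * m1)| ≤ L0 * K1 * L1 := by
    calc |∑ a ∈ Ioc Y (2 * Y), ca w0 y r a * (G a - k * m1)|
        ≤ ∑ a ∈ Ioc Y (2 * Y), |ca w0 y r a * (G a - k * m1)| := abs_sum_le_sum_abs _ _
      _ ≤ ∑ a ∈ Ioc Y (2 * Y), |ca w0 y r a| * (K1 * L1) := by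
          refine sum_le_sum fun a _ => ?_
          rw [abs_mul]
          exact mul_le_mul_of_nonneg_left (hGb a) (abs_nonneg _)
      _ = (∑ a ∈ Ioc Y (2 * Y), |ca w0 y r a|) * (K1 * L1) := by rw [sum_mul]
      _ ≤ L0 * (K1 * L1) := mul_le_mul_of_nonneg_right hcab hK10
      _ = L0 * K1 * L1 := by ring
  have b2 : |k * m1 * (S - m0 * Real.log 2)| ≤ k * (4 * L0 / Y) := by
    rw [abs_mul, abs_mul, abs_of_nonneg hk0]
    calc k * |m1| * |S - m0 * Real.log 2| ≤ k * 2 * (2 * L0 / Y) :=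
          mul_le_mul (mul_le_mul_of_nonneg_left hm1 hk0) hcls (abs_nonneg _) (by positivity)
      _ = k * (4 * L0 / Y) := by ring
  refine (abs_add_le _ _).trans ?_
  linarith

end Pool.Agent.GSU
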