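import Pool.Agent.GSU.St

/-!
# Second moment of the sieve sums over a residue class
-/

set_option autoImplicit false

namespace Pool.Agent.GSU

open Finset N435e839e Pool.Agent.Lib_helper10.Erdos460

namespace LMO2

lemma prime_P1 {y z p : ℕ} (h : p ∈ P1 y z) : p.Prime := by
  unfold P1 at h
  exact Nat.prime_of_mem_primesBelow (mem_filter.1 h).1

/-- the indicator of `n ≡ a` modulo all primes of `T` -/
noncomputable def io (T : Finset ℕ) (n a : ℕ) : ℝ := by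
  classical
  exact if ∀ p ∈ T, n ≡ a [MOD p] then 1 else 0

/-- the sum over `a` -/
noncomputable def A (w0 : Finset ℕ → ℝ) (y Y r n : ℕ) (T : Finset ℕ) : ℝ :=
  ∑ a ∈ Ioc Y (2 * Y), ca w0 y r a * io T n a

lemma sum_w (w1 : Finset ℕ → ℝ) (y z L1 : ℕ) (K1 : ℝ) (hK1 : 1 ≤ K1)
    (hw1 : ∀ T ⊆ P1 y z, |w1 T| ≤ K1)
    (hw1L : ∀ T ⊆ P1 y z, w1 T ≠ 0 → ∏ q ∈ T, q ≤ L1) :
    ∑ T ∈ (P1 y z).powerset, |w1 T| ≤ K1 * L1 := by
  classical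
  have hterm : ∀ T ∈ (P1 y z).powerset, |w1 T| ≤ if w1 T ≠ 0 then K1 else 0 := by
    intro T hT
    split_ifs with h0
    · exact hw1 T (mem_powerset.1 hT)
    · have h0' : w1 T = 0 := by
        by_contra h
        exact h0 h
      rw [h0', abs_zero]
  refine (sum_le_sum hterm).trans ?_
  rw [← sum_filter, sum_const, nsmul_eq_mul, mul_comm]
  refine mul_le_mul_of_nonneg_left ?_ (by linarith)
  exact_mod_cast card_support_le w1 (P1 y z) (fun q hq => prime_P1 hq) L1 hw1L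

/-- The second moment, for fixed `T`, `T'`. -/
lemma pair (h2 : CNT_Stmt) (h3 : CSQ_Stmt) (h4 : CAB_Stmt) (y z Y M K r L0 : ℕ)
    (w0 : Finset ℕ → ℝ) (hY : 1 ≤ Y) (hL0 : 1 ≤ L0) (hw0 : ∀ T, |w0 T| ≤ 1)
    (hw0L : ∀ T ⊆ P0 y, w0 T ≠ 0 → ∏ q ∈ T, q ≤ L0) (hm0 : |meanw w0 (P0 y)| ≤ 2)
    (T T' : Finset ℕ) (hT : T ⊆ P1 y z) (hT' : T' ⊆ P1 y z) :
    |(∑ n ∈ cls M K (qq y) r, A w0 y Y r n T * A w0 y Y r n T') -
        (K : ℝ) / qq y * ((meanw w0 (P0 y) * Real.log 2) ^ 2 *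
          ((∏ p ∈ T, 1 / (p : ℝ)) * ∏ p ∈ T', 1 / (p : ℝ)))| ≤
      (L0 : ℝ) ^ 2 + (K : ℝ) / qq y * (16 * (L0 : ℝ) ^ 2 / √(Y : ℝ)) *
        ((∏ p ∈ T ∩ T', (p : ℝ)) / ((∏ p ∈ T, (p : ℝ)) * ∏ p ∈ T', (p : ℝ))) := by
  classical
  set I := Ioc Y (2 * Y) with hI
  set c : ℕ → ℝ := fun a => ca w0 y r a with hc
  set k : ℝ := (K : ℝ) / qq y with hk
  have hk0 : 0 ≤ k := by positivity
  set g : ℝ := ∏ p ∈ T ∩ T', (p : ℝ) with hg
  set D : ℝ := (∏ p ∈ T, (p : ℝ)) * ∏ p ∈ T', (p : ℝ) with hD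
  have hD0 : 0 < D := by
    refine mul_pos (prod_pos fun p hp => ?_) (prod_pos fun p hp => ?_)
    · exact_mod_cast (prime_P1 (hT hp)).pos
    · exact_mod_cast (prime_P1 (hT' hp)).pos
  have hinv : (∏ p ∈ T, 1 / (p : ℝ)) * ∏ p ∈ T', 1 / (p : ℝ) = 1 / D := by
    rw [hD]
    simp only [one_div]
    rw [prod_inv_distrib, prod_inv_distrib, mul_inv]
  rw [hinv]
  set N : ℕ → ℕ → ℝ := fun a b => (((cls M K (qq y) r).filter (fun n =>
    (∀ p ∈ T, n ≡ a [MOD p]) ∧ ∀ p ∈ T', n ≡ b [MOD p])).card : ℝ) with hN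
  have e1 : (∑ n ∈ cls M K (qq y) r, A w0 y Y r n T * A w0 y Y r n T') =
      ∑ a ∈ I, ∑ b ∈ I, c a * c b * N a b := by
    have e2 : ∀ n, A w0 y Y r n T * A w0 y Y r n T' =
        ∑ a ∈ I, ∑ b ∈ I, c a * c b *
          (if (∀ p ∈ T, n ≡ a [MOD p]) ∧ ∀ p ∈ T', n ≡ b [MOD p] then (1 : ℝ) else 0) := by
      intro n
      unfold A io
      rw [sum_mul_sum]
      refine sum_congr rfl fun a _ => sum_congr rfl fun b _ => ?_
      by_cases u : ∀ p ∈ T, n ≡ a [MOD p]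
      · by_cases v : ∀ p ∈ T', n ≡ b [MOD p]
        · rw [if_pos u, if_pos v, if_pos ⟨u, v⟩, mul_one, mul_one, mul_one]
        · have hn : ¬ ((∀ p ∈ T, n ≡ a [MOD p]) ∧ ∀ p ∈ T', n ≡ b [MOD p]) := fun h => v h.2
          rw [if_neg v, if_neg hn, mul_zero, mul_zero, mul_zero]
      · have hn : ¬ ((∀ p ∈ T, n ≡ a [MOD p]) ∧ ∀ p ∈ T', n ≡ b [MOD p]) := fun h => u h.1
        rw [if_neg u, if_neg hn, mul_zero, mul_zero, zero_mul]
    rw [sum_congr rfl fun n _ => e2 n, sum_comm]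
    refine sum_congr rfl fun a _ => ?_
    rw [sum_comm]
    refine sum_congr rfl fun b _ => ?_
    rw [← mul_sum, sum_ite, sum_const_zero, add_zero, sum_const, nsmul_eq_mul, mul_one]
  set W : ℝ := ∑ a ∈ I, ∑ b ∈ I.filter (fun b => ∀ p ∈ T ∩ T', a ≡ b [MOD p]), c a * c b with hW
  have e3 : k * (g / D) * W = ∑ a ∈ I, ∑ b ∈ I, c a * c b *
      (if ∀ p ∈ T ∩ T', a ≡ b [MOD p] then k * (g / D) else 0) := by
    rw [hW, mul_sum]
    refine sum_congr rfl fun a _ => ?_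
    rw [sum_filter, mul_sum]
    refine sum_congr rfl fun b _ => ?_
    split_ifs <;> ring
  have hb : ∀ a b, |N a b - (if ∀ p ∈ T ∩ T', a ≡ b [MOD p] then k * (g / D) else 0)| ≤ 1 := by
    intro a b
    have h5 := h2 y z M K r a b T T' hT hT'
    split_ifs with h
    · exact h5.1 h
    · have h6 := h5.2 h
      simp only [hN]
      rw [h6]
      simp
  have hcab := (h4 y Y r L0 w0 hY hw0 hw0L).2
  have hS0 : 0 ≤ ∑ a ∈ I, |c a| := sum_nonneg fun a _ => abs_nonneg _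
  have b1 : |(∑ a ∈ I, ∑ b ∈ I, c a * c b * N a b) - k * (g / D) * W| ≤ (L0 : ℝ) ^ 2 := by
    rw [e3, ← sum_sub_distrib]
    simp_rw [← sum_sub_distrib, ← mul_sub]
    calc |∑ a ∈ I, ∑ b ∈ I, c a * c b * (N a b -
          (if ∀ p ∈ T ∩ T', a ≡ b [MOD p] then k * (g / D) else 0))|
        ≤ ∑ a ∈ I, ∑ b ∈ I, |c a| * |c b| := by
          refine (abs_sum_le_sum_abs _ _).trans (sum_le_sum fun a _ => ?_)
          refine (abs_sum_le_sum_abs _ _).trans (sum_le_sum fun b _ => ?_)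
          rw [abs_mul, abs_mul]
          exact mul_le_of_le_one_right (by positivity) (hb a b)
      _ = (∑ a ∈ I, |c a|) ^ 2 := by rw [pow_two, sum_mul_sum]
      _ ≤ (L0 : ℝ) ^ 2 := pow_le_pow_left₀ hS0 hcab 2
  have hU : T ∩ T' ⊆ P1 y z := inter_subset_left.trans hT
  have b2 := h3 y z Y r L0 w0 (T ∩ T') hY hL0 hU hw0 hw0L hm0
  rw [e1]
  set μ := (meanw w0 (P0 y) * Real.log 2) ^ 2 with hμ
  have e4 : (∑ a ∈ I, ∑ b ∈ I, c a * c b * N a b) - k * (μ * (1 / D)) =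
      ((∑ a ∈ I, ∑ b ∈ I, c a * c b * N a b) - k * (g / D) * W) +
        k * (1 / D) * (g * W - μ) := by
    ring
  rw [e4]
  refine (abs_add_le _ _).trans (add_le_add b1 ?_)
  rw [abs_mul, abs_of_nonneg (mul_nonneg hk0 (by positivity : (0 : ℝ) ≤ 1 / D))]
  calc k * (1 / D) * |g * W - μ| ≤ k * (1 / D) * (16 * (L0 : ℝ) ^ 2 * g / √(Y : ℝ)) :=
        mul_le_mul_of_nonneg_left b2 (by positivity)
    _ = k * (16 * (L0 : ℝ) ^ 2 / √(Y : ℝ)) * (g / D) := by ring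

end LMO2

open LMO2

theorem MO2 (h1 : FCA_Stmt) (h2 : CNT_Stmt) (h3 : CSQ_Stmt) (h4 : CAB_Stmt) (h5 : SG3_Stmt) :
    MO2_Stmt := by
  classical
  intro y z Y M K r L0 L1 K1 w0 w1 hd
  obtain ⟨hY, hL0, hL1, hK1, hw0, hw0L, hm0, hw1, hw1L, hm1⟩ := hd
  set m0 := meanw w0 (P0 y) with hm0d
  set m1 := meanw w1 (P1 y z) with hm1d
  set k : ℝ := (K : ℝ) / qq y with hk
  have hk0 : 0 ≤ k := by positivity
  set Q := (P1 y z).powerset with hQ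
  set B : Finset ℕ → Finset ℕ → ℝ := fun T T' =>
    ∑ n ∈ cls M K (qq y) r, A w0 y Y r n T * A w0 y Y r n T' with hB
  have eF : ∀ n ∈ cls M K (qq y) r, F w0 w1 y z n Y = ∑ T ∈ Q, w1 T * A w0 y Y r n T := by
    intro n hn
    rw [h1 y z Y M K r n w0 w1 hn]
    unfold A io
    simp_rw [mul_sum]
    rw [sum_comm]
    refine sum_congr rfl fun T _ => sum_congr rfl fun a _ => ?_
    ring
  have e1 : (∑ n ∈ cls M K (qq y) r, F w0 w1 y z n Y ^ 2) =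
      ∑ T ∈ Q, ∑ T' ∈ Q, w1 T * w1 T' * B T T' := by
    have e2 : ∀ n ∈ cls M K (qq y) r, F w0 w1 y z n Y ^ 2 =
        ∑ T ∈ Q, ∑ T' ∈ Q, w1 T * w1 T' * (A w0 y Y r n T * A w0 y Y r n T') := by
      intro n hn
      rw [eF n hn, pow_two, sum_mul_sum]
      refine sum_congr rfl fun T _ => sum_congr rfl fun T' _ => ?_
      ring
    rw [sum_congr rfl e2, sum_comm]
    refine sum_congr rfl fun T _ => ?_
    rw [sum_comm]
    refine sum_congr rfl fun T' _ => ?_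
    rw [← mul_sum]
  have e3 : k * (m0 * m1 * Real.log 2) ^ 2 = ∑ T ∈ Q, ∑ T' ∈ Q, w1 T * w1 T' *
      (k * ((m0 * Real.log 2) ^ 2 * ((∏ p ∈ T, 1 / (p : ℝ)) * ∏ p ∈ T', 1 / (p : ℝ)))) := by
    have e4 : k * (m0 * m1 * Real.log 2) ^ 2 = k * (m0 * Real.log 2) ^ 2 * (m1 * m1) := by ring
    rw [e4, hm1d]
    unfold meanw
    rw [sum_mul_sum, mul_sum]
    refine sum_congr rfl fun T _ => ?_
    rw [mul_sum]
    refine sum_congr rfl fun T' _ => ?_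
    ring
  set κ : Finset ℕ → Finset ℕ → ℝ := fun T T' =>
    (∏ p ∈ T ∩ T', (p : ℝ)) / ((∏ p ∈ T, (p : ℝ)) * ∏ p ∈ T', (p : ℝ)) with hκ
  have hκ0 : ∀ T T', 0 ≤ κ T T' := fun T T' => by
    simp only [hκ]
    positivity
  set x : ℝ := k * (16 * (L0 : ℝ) ^ 2 / √(Y : ℝ)) with hx
  have hx0 : 0 ≤ x := by positivity
  have hterm : ∀ T ∈ Q, ∀ T' ∈ Q, |w1 T * w1 T' * B T T' - w1 T * w1 T' *
      (k * ((m0 * Real.log 2) ^ 2 * ((∏ p ∈ T, 1 / (p : ℝ)) * ∏ p ∈ T', 1 / (p : ℝ))))| ≤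
      |w1 T| * |w1 T'| * (L0 : ℝ) ^ 2 + K1 ^ 2 * x * κ T T' := by
    intro T hT T' hT'
    have hTP := mem_powerset.1 hT
    have hTP' := mem_powerset.1 hT'
    have h6 := pair h2 h3 h4 y z Y M K r L0 w0 hY hL0 hw0 hw0L hm0 T T' hTP hTP'
    rw [← mul_sub, abs_mul, abs_mul]
    have h7 : |w1 T| * |w1 T'| ≤ K1 ^ 2 := by
      rw [pow_two]
      exact mul_le_mul (hw1 T hTP) (hw1 T' hTP') (abs_nonneg _) (by linarith)
    have h8 : |w1 T| * |w1 T'| * (x * κ T T') ≤ K1 ^ 2 * (x * κ T T') :=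
      mul_le_mul_of_nonneg_right h7 (mul_nonneg hx0 (hκ0 T T'))
    calc |w1 T| * |w1 T'| * _ ≤ |w1 T| * |w1 T'| * ((L0 : ℝ) ^ 2 + x * κ T T') :=
          mul_le_mul_of_nonneg_left h6 (by positivity)
      _ ≤ |w1 T| * |w1 T'| * (L0 : ℝ) ^ 2 + K1 ^ 2 * x * κ T T' := by linarith
  have hsw := sum_w w1 y z L1 K1 hK1 hw1 hw1L
  have hsw0 : 0 ≤ ∑ T ∈ Q, |w1 T| := sum_nonneg fun T _ => abs_nonneg _
  have hpos : ∀ p ∈ P1 y z, 0 < p := fun p hp => (prime_P1 hp).pos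
  have h9 := h5 (P1 y z) hpos
  have h10 : ∑ T ∈ Q, ∑ T' ∈ Q, κ T T' = G3 y z := h9
  rw [e1, e3, ← sum_sub_distrib]
  simp_rw [← sum_sub_distrib]
  calc |∑ T ∈ Q, ∑ T' ∈ Q, (w1 T * w1 T' * B T T' - w1 T * w1 T' *
      (k * ((m0 * Real.log 2) ^ 2 * ((∏ p ∈ T, 1 / (p : ℝ)) * ∏ p ∈ T', 1 / (p : ℝ)))))|
      ≤ ∑ T ∈ Q, ∑ T' ∈ Q, (|w1 T| * |w1 T'| * (L0 : ℝ) ^ 2 + K1 ^ 2 * x * κ T T') := by
        refine (abs_sum_le_sum_abs _ _).trans (sum_le_sum fun T hT => ?_)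
        exact (abs_sum_le_sum_abs _ _).trans (sum_le_sum fun T' hT' => hterm T hT T' hT')
    _ = (∑ T ∈ Q, |w1 T|) ^ 2 * (L0 : ℝ) ^ 2 + K1 ^ 2 * x * G3 y z := by
        have hsq : (∑ T ∈ Q, |w1 T|) ^ 2 = ∑ T ∈ Q, ∑ T' ∈ Q, |w1 T| * |w1 T'| := by
          rw [pow_two (∑ T ∈ Q, |w1 T|), sum_mul_sum]
        rw [← h10, hsq, sum_mul, mul_sum, ← sum_add_distrib]
        refine sum_congr rfl fun T _ => ?_
        rw [sum_mul, mul_sum, ← sum_add_distrib]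
    _ ≤ (K1 * L1) ^ 2 * (L0 : ℝ) ^ 2 + K1 ^ 2 * x * G3 y z := by
        have := pow_le_pow_left₀ hsw0 hsw 2
        have := mul_le_mul_of_nonneg_right this (by positivity : (0 : ℝ) ≤ (L0 : ℝ) ^ 2)
        linarith
    _ = k * (16 * K1 ^ 2 * (L0 : ℝ) ^ 2 * G3 y z / √(Y : ℝ)) + (L0 * K1 * L1) ^ 2 := by
        rw [hx]
        ring

end Pool.Agent.GSU
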