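import Pool.Agent.GSU.St

/-!
# MP_8775f9_nt: choice of the parameters of the sieves
-/

set_option autoImplicit false

namespace Pool.Agent.GSU

open Finset N435e839e Pool.Agent.Lib_helper10.Erdos460

namespace LPAR

/-- The largest `b` with `x ^ (4 b + 6) ≤ t`. -/
lemma exists_b {b0 x : ℕ} (hx : 2 ≤ x) {t : ℝ} (ht : (x : ℝ) ^ (4 * b0 + 6) ≤ t) :
    ∃ b, b0 ≤ b ∧ (x : ℝ) ^ (4 * b + 6) ≤ t ∧ t < (x : ℝ) ^ (4 * b + 10) := by
  classical
  have hx1 : (1 : ℝ) < x := by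
    have : (2 : ℝ) ≤ x := by exact_mod_cast hx
    linarith
  have hex : ∃ b, b0 ≤ b ∧ t < (x : ℝ) ^ (4 * b + 10) := by
    obtain ⟨n, hn⟩ := pow_unbounded_of_one_lt t hx1
    refine ⟨b0 + n, by omega, hn.trans_le ?_⟩
    exact pow_le_pow_right₀ hx1.le (by omega)
  obtain ⟨h1, h2⟩ := Nat.find_spec hex
  refine ⟨Nat.find hex, h1, ?_, h2⟩
  rcases Nat.eq_or_lt_of_le h1 with h | h
  · rw [← h]
    exact ht
  · have h3 := Nat.find_min hex (m := Nat.find hex - 1) (by omega)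
    push Not at h3
    have h4 := h3 (by omega)
    have e : 4 * (Nat.find hex - 1) + 10 = 4 * Nat.find hex + 6 := by omega
    rwa [e] at h4

end LPAR

theorem PAR : PAR_Stmt := by
  obtain ⟨Θ, h0, h1, h2, h3⟩ := brun_hooley_strong
  have e1 : ∀ᶠ b in Filter.atTop, Θ b < 1 / 8 := h1.eventually (eventually_lt_nhds (by norm_num))
  have e2 : ∀ᶠ b : ℕ in Filter.atTop, (b : ℝ) * Θ b < 1 :=
    h2.eventually (eventually_lt_nhds (by norm_num))
  obtain ⟨b1, hb1⟩ := Filter.eventually_atTop.mp (e1.and e2)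
  let b0 := max b1 1
  refine ⟨4 * b0 + 6, by omega, 28, by norm_num, fun x hx t ht => ?_⟩
  obtain ⟨b, hb, hlow, hup⟩ := LPAR.exists_b hx ht
  have hb0 : b1 ≤ b := (le_max_left b1 1).trans hb
  have hb2 : 1 ≤ b := (le_max_right b1 1).trans hb
  obtain ⟨hΘ, hbΘ⟩ := hb1 b hb0
  have hΘ0 := h0 b
  obtain ⟨Up, Low, hW⟩ := h3 b (by linarith) x (by omega)
  refine ⟨4 * b + 6, 2 * Θ b, Up, Low, hW, hlow, by linarith, by linarith, ?_⟩
  have hx1 : (1 : ℝ) < x := by
    have : (2 : ℝ) ≤ x := by exact_mod_cast hx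
    linarith
  have hlx : 0 < Real.log x := Real.log_pos hx1
  have ht1 : 1 < t := (one_lt_pow₀ hx1 (by omega)).trans_le hlow
  have hlt : 0 < Real.log t := Real.log_pos ht1
  have h4 : Real.log t ≤ ((4 * b + 10 : ℕ) : ℝ) * Real.log x := by
    rw [← Real.log_pow]
    exact Real.log_le_log (by linarith) hup.le
  have hbr : (1 : ℝ) ≤ b := by exact_mod_cast hb2
  have h5 : Real.log t ≤ 14 * b * Real.log x := by
    refine h4.trans (mul_le_mul_of_nonneg_right ?_ hlx.le)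
    push_cast
    linarith
  rw [le_div_iff₀ hlt]
  calc 2 * Θ b * Real.log t ≤ 2 * Θ b * (14 * b * Real.log x) :=
        mul_le_mul_of_nonneg_left h5 (by linarith)
    _ = 28 * (b * Θ b) * Real.log x := by ring
    _ ≤ 28 * Real.log x := by
        apply mul_le_mul_of_nonneg_right _ hlx.le
        linarith

end Pool.Agent.GSU
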