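import Pool.Agent.GSU.St

/-!
# MP_8775f9_nt (GSU): restriction of sieve weights to the primes in `(y, z)` (module RW)
-/

set_option autoImplicit false

namespace Pool.Agent.GSU

open Finset N435e839e Pool.Agent.Lib_helper10.Erdos460

namespace LRW

/-- the probability of the random subset `S0` of `Q` -/
noncomputable def pr (Q S0 : Finset ℕ) : ℝ :=
  (∏ p ∈ S0, 1 / (p : ℝ)) * ∏ p ∈ Q \ S0, (1 - 1 / (p : ℝ))

theorem pr_nonneg {Q S0 : Finset ℕ} (hQ : ∀ p ∈ Q, p.Prime) : 0 ≤ pr Q S0 := by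
  refine mul_nonneg (prod_nonneg fun _ _ => by positivity) (prod_nonneg fun p hp => ?_)
  exact (prime_factor_bounds (hQ p (mem_sdiff.mp hp).1)).1.le

theorem sum_ind0 (Q S : Finset ℕ) :
    ∑ S0 ∈ Q.powerset, pr Q S0 * ind0 (S ∪ S0) = (∏ p ∈ Q, (1 - 1 / (p : ℝ))) * ind0 S := by
  rw [sum_eq_single (∅ : Finset ℕ)]
  · simp [pr]
  · intro S0 _ hS0
    have h1 : S ∪ S0 ≠ ∅ := by
      intro h
      exact hS0 (union_eq_empty.mp h).2
    simp [ind0, h1]
  · intro h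
    exact absurd (empty_mem_powerset Q) h

/-- the restricted weight -/
noncomputable def rw' (y : ℕ) (w : Finset ℕ → ℝ) (T : Finset ℕ) : ℝ :=
  (V (y + 1))⁻¹ * ∑ T0 ∈ (P0 y).powerset, w (T ∪ T0) * ∏ p ∈ T0, 1 / (p : ℝ)

theorem hP0 (y : ℕ) : ∀ p ∈ P0 y, p.Prime := fun _ hp => (Nat.mem_primesBelow.1 hp).2

theorem disj (y z : ℕ) : Disjoint (P0 y) (P1 y z) := by
  rw [disjoint_left]
  intro p hp hp'
  have h1 := (Nat.mem_primesBelow.1 hp).1
  have h2 := (mem_filter.mp hp').2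
  omega

theorem uni {y z : ℕ} (h : y < z) : P0 y ∪ P1 y z = Nat.primesBelow z := by
  ext p
  simp only [P0, P1, mem_union, mem_filter, Nat.mem_primesBelow]
  constructor
  · rintro (⟨h1, h2⟩ | ⟨⟨h1, h2⟩, h3⟩)
    · exact ⟨by omega, h2⟩
    · exact ⟨h1, h2⟩
  · rintro ⟨h1, h2⟩
    by_cases h3 : y < p
    · exact Or.inr ⟨⟨h1, h2⟩, h3⟩
    · exact Or.inl ⟨by omega, h2⟩

theorem subsum_rw (h : AVG_Stmt) {y z : ℕ} (w : Finset ℕ → ℝ) {S : Finset ℕ} (hS : S ⊆ P1 y z) :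
    V (y + 1) * subsum (rw' y w) S = ∑ S0 ∈ (P0 y).powerset, pr (P0 y) S0 * subsum w (S ∪ S0) := by
  have h1 := h (P0 y) S w ((disj y z).mono_right hS)
  unfold pr
  rw [h1, subsum, mul_sum]
  refine sum_congr rfl fun T _ => ?_
  rw [rw', mul_inv_cancel_left₀ (V_pos _).ne']

theorem mean_rw {y z : ℕ} (hyz : y < z) (w : Finset ℕ → ℝ) :
    meanw (rw' y w) (P1 y z) = (V (y + 1))⁻¹ * meanw w (Nat.primesBelow z) := by
  have h1 : meanw w (Nat.primesBelow z) = ∑ T ∈ (P1 y z).powerset, ∑ T0 ∈ (P0 y).powerset,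
      w (T ∪ T0) * ∏ q ∈ T ∪ T0, (1 / (q : ℝ)) := by
    rw [meanw, ← uni hyz, ← sum_product']
    refine sum_bij' (fun T _ => (T ∩ P1 y z, T ∩ P0 y)) (fun x _ => x.1 ∪ x.2) ?_ ?_ ?_ ?_ ?_
    · intro T hT
      simp only [mem_product, mem_powerset]
      exact ⟨inter_subset_right, inter_subset_right⟩
    · intro x hx
      simp only [mem_product, mem_powerset] at hx
      rw [mem_powerset, union_comm (P0 y)]
      exact union_subset_union hx.1 hx.2
    · intro T hT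
      rw [mem_powerset] at hT
      show T ∩ P1 y z ∪ T ∩ P0 y = T
      rw [← inter_union_distrib_left, union_comm (P1 y z)]
      exact inter_eq_left.mpr hT
    · intro x hx
      simp only [mem_product, mem_powerset] at hx
      have hd := disj y z
      have e1 : x.1 ∩ P0 y = ∅ := disjoint_iff_inter_eq_empty.mp (hd.symm.mono_left hx.1)
      have e2 : x.2 ∩ P1 y z = ∅ := disjoint_iff_inter_eq_empty.mp (hd.mono_left hx.2)
      refine Prod.ext ?_ ?_
      · show (x.1 ∪ x.2) ∩ P1 y z = x.1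
        rw [union_inter_distrib_right, e2, union_empty, inter_eq_left.mpr hx.1]
      · show (x.1 ∪ x.2) ∩ P0 y = x.2
        rw [union_inter_distrib_right, e1, empty_union, inter_eq_left.mpr hx.2]
    · intro T hT
      rw [mem_powerset] at hT
      have e : T ∩ P1 y z ∪ T ∩ P0 y = T := by
        rw [← inter_union_distrib_left, union_comm (P1 y z)]
        exact inter_eq_left.mpr hT
      show _ = w (T ∩ P1 y z ∪ T ∩ P0 y) * ∏ q ∈ T ∩ P1 y z ∪ T ∩ P0 y, (1 / (q : ℝ))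
      rw [e]
  rw [h1, meanw, mul_sum]
  refine sum_congr rfl fun T hT => ?_
  rw [mem_powerset] at hT
  rw [rw', mul_assoc, sum_mul]
  congr 1
  refine sum_congr rfl fun T0 hT0 => ?_
  rw [mem_powerset] at hT0
  rw [prod_union ((disj y z).symm.mono hT hT0)]
  ring

theorem abs_rw (y : ℕ) (w : Finset ℕ → ℝ) (hw : ∀ T, |w T| ≤ 1) (T : Finset ℕ) :
    |rw' y w T| ≤ (V (y + 1))⁻¹ ^ 2 := by
  have hV := V_pos (y + 1)
  rw [rw', abs_mul, abs_of_pos (inv_pos.mpr hV), pow_two]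
  refine mul_le_mul_of_nonneg_left ?_ (inv_pos.mpr hV).le
  have h1 : |∑ T0 ∈ (P0 y).powerset, w (T ∪ T0) * ∏ p ∈ T0, 1 / (p : ℝ)| ≤
      ∑ T0 ∈ (P0 y).powerset, ∏ p ∈ T0, 1 / (p : ℝ) := by
    refine (abs_sum_le_sum_abs _ _).trans (sum_le_sum fun T0 _ => ?_)
    have h0 : 0 ≤ ∏ p ∈ T0, 1 / (p : ℝ) := prod_nonneg fun _ _ => by positivity
    rw [abs_mul, abs_of_nonneg h0]
    exact mul_le_of_le_one_left h0 (hw _)
  have h2 : ∑ T0 ∈ (P0 y).powerset, ∏ p ∈ T0, 1 / (p : ℝ) = ∏ p ∈ P0 y, (1 + 1 / (p : ℝ)) := by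
    rw [prod_one_add]
  refine h1.trans ?_
  rw [h2, V, ← prod_inv_distrib]
  refine prod_le_prod (fun p _ => by positivity) fun p hp => ?_
  have hb := prime_factor_bounds (hP0 y p hp)
  rw [le_inv_comm₀ (by positivity) hb.1]
  rw [← one_div, le_div_iff₀ (by positivity)]
  nlinarith [sq_nonneg (1 / (p : ℝ))]

theorem level_rw {y z : ℕ} (hyz : y < z) (w : Finset ℕ → ℝ) (L : ℕ)
    (hw : ∀ T ⊆ Nat.primesBelow z, w T ≠ 0 → ∏ q ∈ T, q ≤ L) :
    ∀ T ⊆ P1 y z, rw' y w T ≠ 0 → ∏ q ∈ T, q ≤ L := by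
  intro T hT h
  have h1 : ∑ T0 ∈ (P0 y).powerset, w (T ∪ T0) * ∏ p ∈ T0, 1 / (p : ℝ) ≠ 0 :=
    right_ne_zero_of_mul h
  obtain ⟨T0, hT0, h2⟩ := exists_ne_zero_of_sum_ne_zero h1
  rw [mem_powerset] at hT0
  have h3 : w (T ∪ T0) ≠ 0 := left_ne_zero_of_mul h2
  have h4 : T ∪ T0 ⊆ Nat.primesBelow z := by
    rw [← uni hyz, union_comm (P0 y)]
    exact union_subset_union hT hT0
  refine le_trans ?_ (hw _ h4 h3)
  refine prod_le_prod_of_subset_of_one_le' subset_union_left fun p hp _ => ?_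
  exact (Nat.mem_primesBelow.1 (h4 hp)).2.one_lt.le

end LRW

open LRW in
theorem RW (h : AVG_Stmt) : RW_Stmt := by
  intro y z s τ Up Low hyz hW
  have hV := V_pos (y + 1)
  have hsub : ∀ S ⊆ P1 y z, ∀ S0 ∈ (P0 y).powerset, S ∪ S0 ⊆ Nat.primesBelow z := by
    intro S hS S0 hS0
    rw [mem_powerset] at hS0
    rw [← uni hyz, union_comm (P0 y)]
    exact union_subset_union hS hS0
  have hVp : ∏ p ∈ P0 y, (1 - 1 / (p : ℝ)) = V (y + 1) := rfl
  refine ⟨rw' y Up, rw' y Low, ?_, ?_, ?_, ?_, ?_, ?_, ?_, ?_⟩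
  · intro S hS
    have h1 := subsum_rw h Up hS
    have h2 := sum_ind0 (P0 y) S
    rw [hVp] at h2
    have h3 : V (y + 1) * ind0 S ≤ V (y + 1) * subsum (rw' y Up) S := by
      rw [h1, ← h2]
      exact sum_le_sum fun S0 hS0 =>
        mul_le_mul_of_nonneg_left (hW.up _ (hsub S hS S0 hS0)) (pr_nonneg (hP0 y))
    exact le_of_mul_le_mul_left h3 hV
  · intro S hS
    have h1 := subsum_rw h Low hS
    have h2 := sum_ind0 (P0 y) S
    rw [hVp] at h2
    have h3 : V (y + 1) * subsum (rw' y Low) S ≤ V (y + 1) * ind0 S := by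
      rw [h1, ← h2]
      exact sum_le_sum fun S0 hS0 =>
        mul_le_mul_of_nonneg_left (hW.low _ (hsub S hS S0 hS0)) (pr_nonneg (hP0 y))
    exact le_of_mul_le_mul_left h3 hV
  · exact fun T _ => abs_rw y Up hW.up_abs T
  · exact fun T _ => abs_rw y Low hW.low_abs T
  · exact level_rw hyz Up _ hW.up_level
  · exact level_rw hyz Low _ hW.low_level
  · rw [mean_rw hyz, div_eq_inv_mul, mul_assoc]
    exact mul_le_mul_of_nonneg_left hW.up_mean (inv_pos.mpr hV).le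
  · rw [mean_rw hyz, div_eq_inv_mul, mul_assoc]
    exact mul_le_mul_of_nonneg_left hW.low_mean (inv_pos.mpr hV).le

end Pool.Agent.GSU
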