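import Pool.Agent.GSU.St

set_option autoImplicit false

namespace Pool.Agent.GSU

open Finset

namespace LSER

lemma step_sq (j : ℕ) (hj : 1 ≤ j) : 1 / (j : ℝ) ^ 2 ≤ 2 / (j : ℝ) - 2 / ((j : ℝ) + 1) := by
  have h1 : (1 : ℝ) ≤ j := by exact_mod_cast hj
  have e : 2 / (j : ℝ) - 2 / ((j : ℝ) + 1) = 2 / ((j : ℝ) * ((j : ℝ) + 1)) := by
    field_simp
    ring
  rw [e, div_le_div_iff₀ (by positivity) (by positivity)]
  nlinarith

lemma sum_sq (J0 : ℕ) (h0 : 1 ≤ J0) (d : ℕ) :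
    ∑ j ∈ Ico J0 (J0 + d), 1 / (j : ℝ) ^ 2 ≤ 2 / (J0 : ℝ) - 2 / ((J0 : ℝ) + d) := by
  induction d with
  | zero => simp
  | succ d ih =>
    rw [← add_assoc, sum_Ico_succ_top (by omega)]
    have h := step_sq (J0 + d) (by omega)
    push_cast at h ⊢
    have e : (J0 : ℝ) + ((d : ℝ) + 1) = (J0 : ℝ) + d + 1 := by ring
    rw [e]
    linarith

lemma step_rt (j : ℕ) (hj : 1 ≤ j) :
    1 / ((j : ℝ) * √j) ≤ 4 / √(j : ℝ) - 4 / √((j : ℝ) + 1) := by
  have h1 : (1 : ℝ) ≤ j := by exact_mod_cast hj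
  obtain ⟨s, hs⟩ : ∃ s, s = √(j : ℝ) := ⟨_, rfl⟩
  obtain ⟨r, hr⟩ : ∃ r, r = √((j : ℝ) + 1) := ⟨_, rfl⟩
  have hs2 : s ^ 2 = j := by rw [hs]; exact Real.sq_sqrt (by linarith)
  have hr2 : r ^ 2 = (j : ℝ) + 1 := by rw [hr]; exact Real.sq_sqrt (by linarith)
  have hs1 : 1 ≤ s := by rw [hs, Real.one_le_sqrt]; exact h1
  have hr0 : 0 < r := by rw [hr]; exact Real.sqrt_pos.2 (by linarith)
  have hsr : s ≤ r := by rw [hs, hr]; exact Real.sqrt_le_sqrt (by linarith)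
  rw [← hs, ← hr, ← hs2]
  have e : 4 / s - 4 / r = 4 * (r - s) / (s * r) := by
    field_simp
  rw [e, div_le_div_iff₀ (by positivity) (by positivity)]
  have h3 : (r - s) * (r + s) = 1 := by nlinarith
  have h4 : r ≤ 3 / 2 * s := by
    nlinarith
  -- r ≤ 4 (r - s) s ^ 2
  have h5 : r ≤ 4 * (r - s) * s ^ 2 := by
    have h6 : r * (r + s) ≤ 4 * s ^ 2 := by nlinarith
    have h7 : 0 ≤ r - s := by linarith
    calc r = r * ((r - s) * (r + s)) := by rw [h3, mul_one]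
      _ = (r - s) * (r * (r + s)) := by ring
      _ ≤ (r - s) * (4 * s ^ 2) := mul_le_mul_of_nonneg_left h6 h7
      _ = 4 * (r - s) * s ^ 2 := by ring
  calc 1 * (s * r) = s * r := one_mul _
    _ ≤ s * (4 * (r - s) * s ^ 2) := mul_le_mul_of_nonneg_left h5 (by linarith)
    _ = 4 * (r - s) * (s ^ 2 * s) := by ring

lemma sum_rt (J0 : ℕ) (h0 : 1 ≤ J0) (d : ℕ) :
    ∑ j ∈ Ico J0 (J0 + d), 1 / ((j : ℝ) * √j) ≤ 4 / √(J0 : ℝ) - 4 / √((J0 : ℝ) + d) := by
  induction d with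
  | zero => simp
  | succ d ih =>
    rw [← add_assoc, sum_Ico_succ_top (by omega)]
    have h := step_rt (J0 + d) (by omega)
    push_cast at h ⊢
    have e : (J0 : ℝ) + ((d : ℝ) + 1) = (J0 : ℝ) + d + 1 := by ring
    rw [e]
    linarith

lemma term_le (j : ℕ) (hj : 1 ≤ j) :
    (Real.log j + 1) / (j : ℝ) ^ 2 ≤ 2 * (1 / ((j : ℝ) * √j)) := by
  have h1 : (1 : ℝ) ≤ j := by exact_mod_cast hj
  obtain ⟨s, hs⟩ : ∃ s, s = √(j : ℝ) := ⟨_, rfl⟩
  have hs2 : s ^ 2 = j := by rw [hs]; exact Real.sq_sqrt (by linarith)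
  have hs1 : 1 ≤ s := by rw [hs, Real.one_le_sqrt]; exact h1
  have hlog : Real.log j ≤ 2 * (s - 1) := by
    rw [← hs2, Real.log_pow]
    push_cast
    have := Real.log_le_sub_one_of_pos (by linarith : 0 < s)
    linarith
  rw [← hs, ← hs2, mul_one_div, div_le_div_iff₀ (by positivity) (by positivity)]
  have h2 : Real.log j + 1 ≤ 2 * s := by linarith
  rw [← hs2] at h2
  calc (Real.log (s ^ 2) + 1) * (s ^ 2 * s) ≤ 2 * s * (s ^ 2 * s) :=
        mul_le_mul_of_nonneg_right h2 (by positivity)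
    _ = 2 * (s ^ 2) ^ 2 := by ring

end LSER

open LSER in
theorem SER : SER_Stmt := by
  refine ⟨12, by norm_num, ?_⟩
  intro y J0 J1 K hy hyJ hJ hK
  rcases Nat.lt_or_ge J0 J1 with hlt | hge
  · obtain ⟨d, rfl⟩ : ∃ d, J1 = J0 + d := ⟨J1 - J0, by omega⟩
    have hJ0 : (1 : ℝ) ≤ J0 := by exact_mod_cast hJ
    have hy1 : (1 : ℝ) ≤ y := by exact_mod_cast (by omega : 1 ≤ y)
    have hlogy0 : 0 ≤ Real.log y := Real.log_nonneg hy1
    have hlogy : Real.log y ≤ J0 := by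
      have h1 : (y : ℝ) ≤ (2 : ℝ) ^ J0 := by exact_mod_cast hyJ
      have h2 : Real.log y ≤ J0 * Real.log 2 := by
        rw [← Real.log_pow]
        exact Real.log_le_log (by linarith) h1
      have h3 : Real.log 2 ≤ 1 := by
        have := Real.log_two_lt_d9
        linarith
      nlinarith
    have hlogK : ((J0 + d : ℕ) : ℝ) * Real.log 2 ≤ Real.log K := by
      rw [← Real.log_pow]
      apply Real.log_le_log (by positivity)
      exact_mod_cast hK
    have hl2 : 1 / 2 < Real.log 2 := by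
      have := Real.log_two_gt_d9
      linarith
    have hJ1 : (1 : ℝ) ≤ ((J0 + d : ℕ) : ℝ) := by exact_mod_cast (by omega : 1 ≤ J0 + d)
    have hlogK0 : ((J0 + d : ℕ) : ℝ) / 2 ≤ Real.log K := by nlinarith
    have hlogKpos : 0 < Real.log K := by linarith
    have hsplit : ∀ j ∈ Ico J0 (J0 + d), (Real.log y + Real.log j + 1) / (j : ℝ) ^ 2
        + 1 / Real.log K ≤ Real.log y * (1 / (j : ℝ) ^ 2) + 2 * (1 / ((j : ℝ) * √j))
          + 1 / Real.log K := by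
      intro j hj
      have hj1 : 1 ≤ j := by
        have := (Finset.mem_Ico.1 hj).1
        omega
      have h1 := term_le j hj1
      have h2 : (Real.log y + Real.log j + 1) / (j : ℝ) ^ 2
          = Real.log y * (1 / (j : ℝ) ^ 2) + (Real.log j + 1) / (j : ℝ) ^ 2 := by ring
      rw [h2]
      linarith
    refine (Finset.sum_le_sum hsplit).trans ?_
    rw [Finset.sum_add_distrib, Finset.sum_add_distrib, ← Finset.mul_sum, ← Finset.mul_sum,
      Finset.sum_const, Nat.card_Ico, nsmul_eq_mul]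
    have a1 : Real.log y * ∑ j ∈ Ico J0 (J0 + d), 1 / (j : ℝ) ^ 2 ≤ 2 := by
      have h1 := sum_sq J0 hJ d
      have h2 : (0 : ℝ) ≤ 2 / ((J0 : ℝ) + d) := by positivity
      have h3 : ∑ j ∈ Ico J0 (J0 + d), 1 / (j : ℝ) ^ 2 ≤ 2 / (J0 : ℝ) := by linarith
      calc Real.log y * ∑ j ∈ Ico J0 (J0 + d), 1 / (j : ℝ) ^ 2
          ≤ (J0 : ℝ) * (2 / (J0 : ℝ)) := by
            apply mul_le_mul hlogy h3 _ (by linarith)
            apply Finset.sum_nonneg
            intro j _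
            positivity
        _ = 2 := by field_simp
    have a2 : ∑ j ∈ Ico J0 (J0 + d), 1 / ((j : ℝ) * √j) ≤ 4 := by
      have h1 := sum_rt J0 hJ d
      have h2 : (0 : ℝ) ≤ 4 / √((J0 : ℝ) + d) := by positivity
      have h3 : 4 / √(J0 : ℝ) ≤ 4 := by
        apply div_le_self (by norm_num)
        rw [Real.one_le_sqrt]; exact hJ0
      linarith
    have a3 : ((J0 + d - J0 : ℕ) : ℝ) * (1 / Real.log K) ≤ 2 := by
      have h1 : ((J0 + d - J0 : ℕ) : ℝ) ≤ ((J0 + d : ℕ) : ℝ) := by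
        exact_mod_cast (by omega : J0 + d - J0 ≤ J0 + d)
      rw [mul_one_div, div_le_iff₀ hlogKpos]
      linarith
    linarith
  · rw [Finset.Ico_eq_empty (by omega)]
    simp

end Pool.Agent.GSU
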