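import Pool.Agent.GSU.St

/-!
# MP_8775f9_nt, project GSU, module SG3: a double sum over pairs of subsets
-/

set_option autoImplicit false

namespace Pool.Agent.GSU

open Finset

namespace LSG3

theorem term (P T T' : Finset ℕ) (hP : ∀ p ∈ P, 0 < p) (hT : T ⊆ P) (hT' : T' ⊆ P) :
    (∏ p ∈ T ∩ T', (p : ℝ)) / ((∏ p ∈ T, (p : ℝ)) * ∏ p ∈ T', (p : ℝ)) =
      (∏ p ∈ T', if p ∈ T then (1 : ℝ) else 1 / (p : ℝ)) / ∏ p ∈ T, (p : ℝ) := by
  have e1 : (∏ p ∈ T ∩ T', (p : ℝ)) = ∏ p ∈ T', if p ∈ T then (p : ℝ) else 1 := by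
    rw [← Finset.prod_filter]
    refine Finset.prod_congr ?_ fun _ _ => rfl
    ext p
    simp only [Finset.mem_inter, Finset.mem_filter]
    tauto
  have e2 : (∏ p ∈ T', if p ∈ T then (p : ℝ) else 1) / ∏ p ∈ T', (p : ℝ) =
      ∏ p ∈ T', if p ∈ T then (1 : ℝ) else 1 / (p : ℝ) := by
    rw [← Finset.prod_div_distrib]
    refine Finset.prod_congr rfl fun p hp => ?_
    have h0 : (p : ℝ) ≠ 0 := by
      have := hP p (hT' hp)
      positivity
    split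
    · exact div_self h0
    · rfl
  rw [e1, ← e2, div_div, mul_comm]

theorem inner (P T : Finset ℕ) (hP : ∀ p ∈ P, 0 < p) (hT : T ⊆ P) :
    ∑ T' ∈ P.powerset, (∏ p ∈ T ∩ T', (p : ℝ)) / ((∏ p ∈ T, (p : ℝ)) * ∏ p ∈ T', (p : ℝ)) =
      (∏ p ∈ T, 2 / (p : ℝ)) * ∏ p ∈ P \ T, (1 + 1 / (p : ℝ)) := by
  rw [Finset.sum_congr rfl fun T' hT' => term P T T' hP hT (Finset.mem_powerset.mp hT'),
    ← Finset.sum_div, ← Finset.prod_one_add, ← Finset.prod_sdiff hT, Finset.prod_div_distrib]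
  have e1 : (∏ p ∈ P \ T, (1 + if p ∈ T then (1 : ℝ) else 1 / (p : ℝ))) =
      ∏ p ∈ P \ T, (1 + 1 / (p : ℝ)) := by
    refine Finset.prod_congr rfl fun p hp => ?_
    rw [if_neg (Finset.mem_sdiff.mp hp).2]
  have e2 : (∏ p ∈ T, (1 + if p ∈ T then (1 : ℝ) else 1 / (p : ℝ))) = ∏ _p ∈ T, (2 : ℝ) := by
    refine Finset.prod_congr rfl fun p hp => ?_
    rw [if_pos hp]
    norm_num
  rw [e1, e2]
  ring

end LSG3

theorem SG3 : SG3_Stmt := by
  intro P hP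
  rw [Finset.sum_congr rfl fun T hT => LSG3.inner P T hP (Finset.mem_powerset.mp hT),
    ← Finset.prod_add]
  refine Finset.prod_congr rfl fun p hp => ?_
  ring

end Pool.Agent.GSU
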