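import Pool.Agent.GSU.St

/-!
# MP_8775f9_nt, module SND: pointwise sandwich of the rough sum between sieve sums
-/

set_option autoImplicit false

namespace Pool.Agent.GSU

open Finset N435e839e Pool.Agent.Lib_helper10.Erdos460

namespace LSND

lemma hit_union (y z n a : ℕ) (hyz : y < z) :
    hit (Nat.primesBelow z) n a = hit (P0 y) n a ∪ hit (P1 y z) n a := by
  ext p
  simp only [hit, P0, P1, Finset.mem_union, Finset.mem_filter, Nat.mem_primesBelow]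
  constructor
  · rintro ⟨⟨h1, h2⟩, h3⟩
    by_cases h : p < y + 1
    · exact Or.inl ⟨⟨h, h2⟩, h3⟩
    · exact Or.inr ⟨⟨⟨h1, h2⟩, by omega⟩, h3⟩
  · rintro (⟨⟨h1, h2⟩, h3⟩ | ⟨⟨⟨h1, h2⟩, h4⟩, h3⟩)
    · exact ⟨⟨by omega, h2⟩, h3⟩
    · exact ⟨⟨h1, h2⟩, h3⟩

lemma ind0_union (S T : Finset ℕ) : ind0 (S ∪ T) = ind0 S * ind0 T := by
  unfold ind0
  by_cases hS : S = ∅ <;> by_cases hT : T = ∅ <;>
    simp [hS, hT, Finset.union_eq_empty]

lemma key (x x' Xp Xm Xp' Xm' : ℝ) (h0 : 0 ≤ x) (h0' : 0 ≤ x') (h1 : x ≤ Xp) (h2 : Xm ≤ x)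
    (h1' : x' ≤ Xp') (h2' : Xm' ≤ x') :
    x * x' ≤ Xp * Xp' ∧ Xm * Xp' + Xp * Xm' - Xp * Xp' ≤ x * x' := by
  have hX' : 0 ≤ Xp' := h0'.trans h1'
  have hX : 0 ≤ Xp := h0.trans h1
  refine ⟨mul_le_mul h1 h1' h0' hX, ?_⟩
  have e1 : (Xp - x) * Xp' ≤ (Xp - Xm) * Xp' := mul_le_mul_of_nonneg_right (by linarith) hX'
  have e2 : x * (Xp' - x') ≤ Xp * (Xp' - Xm') :=
    mul_le_mul h1 (by linarith) (by linarith) hX
  nlinarith

end LSND

open LSND

theorem SND : SND_Stmt := by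
  intro y z s0 τ0 Up0 Low0 K1 L τ1 Up1 Low1 hyz h0 h1 n Y
  have hk : ∀ a : ℕ,
      ind0 (hit (P0 y) n a) * ind0 (hit (P1 y z) n a) ≤
        subsum Up0 (hit (P0 y) n a) * subsum Up1 (hit (P1 y z) n a) ∧
      subsum Low0 (hit (P0 y) n a) * subsum Up1 (hit (P1 y z) n a) +
        subsum Up0 (hit (P0 y) n a) * subsum Low1 (hit (P1 y z) n a) -
        subsum Up0 (hit (P0 y) n a) * subsum Up1 (hit (P1 y z) n a) ≤
      ind0 (hit (P0 y) n a) * ind0 (hit (P1 y z) n a) := fun a =>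
    key _ _ _ _ _ _ (ind0_nonneg _) (ind0_nonneg _)
      (h0.up _ (Finset.filter_subset _ _)) (h0.low _ (Finset.filter_subset _ _))
      (h1.up _ (Finset.filter_subset _ _)) (h1.low _ (Finset.filter_subset _ _))
  have hR : R (Nat.primesBelow z) n Y = ∑ a ∈ Ioc Y (2 * Y), 1 / (a : ℝ) *
      (ind0 (hit (P0 y) n a) * ind0 (hit (P1 y z) n a)) := by
    unfold R
    refine Finset.sum_congr rfl fun a _ => ?_
    rw [hit_union y z n a hyz, ind0_union]
  rw [hR]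
  unfold F
  constructor
  · exact Finset.sum_le_sum fun a _ => mul_le_mul_of_nonneg_left (hk a).1 (by positivity)
  · rw [← Finset.sum_add_distrib, ← Finset.sum_sub_distrib]
    refine Finset.sum_le_sum fun a _ => ?_
    have := mul_le_mul_of_nonneg_left (hk a).2 (by positivity : (0 : ℝ) ≤ 1 / (a : ℝ))
    calc _ = 1 / (a : ℝ) * (subsum Low0 (hit (P0 y) n a) * subsum Up1 (hit (P1 y z) n a) +
        subsum Up0 (hit (P0 y) n a) * subsum Low1 (hit (P1 y z) n a) -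
        subsum Up0 (hit (P0 y) n a) * subsum Up1 (hit (P1 y z) n a)) := by ring
      _ ≤ _ := this

end Pool.Agent.GSU
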