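import Pool.Agent.GSU.St

/-!
The greedy block sum is squeezed between two rough sums.
-/

set_option autoImplicit false

namespace Pool.Agent.GSU

open Finset N435e839e Pool.Agent.Lib_helper10.Erdos460

namespace LSQZ

lemma mem_hit_iff (z n a p : ℕ) (h : a ≤ n) :
    p ∈ hit (Nat.primesBelow z) n a ↔ p < z ∧ p.Prime ∧ p ∣ n - a := by
  unfold hit
  rw [Finset.mem_filter, Nat.mem_primesBelow]
  constructor
  · rintro ⟨⟨h1, h2⟩, h3⟩
    exact ⟨h1, h2, (Nat.modEq_iff_dvd' h).1 h3.symm⟩
  · rintro ⟨h1, h2, h3⟩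
    exact ⟨⟨h1, h2⟩, ((Nat.modEq_iff_dvd' h).2 h3).symm⟩

lemma sel_of_hit_empty {n a Y : ℕ} (h1 : 1 ≤ a) (h2 : a ≤ 2 * Y) (h3 : 2 * Y < n)
    (h : hit (Nat.primesBelow (2 * Y)) n a = ∅) : a ∈ selected false n := by
  apply sel_of_rough h1 (by omega)
  intro p hp hpa hpd
  have : p ∈ hit (Nat.primesBelow (2 * Y)) n a :=
    (mem_hit_iff _ n a p (by omega)).2 ⟨by omega, hp, hpd⟩
  rw [h] at this
  exact absurd this (Finset.notMem_empty p)

lemma card_bad (n Y z : ℕ) (hn : 2 * Y < n) :
    (((Ioc Y (2 * Y)).filter (fun a => a ∈ selected false n)).filter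
      (fun a => ¬ hit (Nat.primesBelow z) n a = ∅)).card ≤ z := by
  classical
  have hch : ∀ a : ℕ, ∃ p : ℕ, (¬ hit (Nat.primesBelow z) n a = ∅) →
      p ∈ hit (Nat.primesBelow z) n a := by
    intro a
    by_cases h : hit (Nat.primesBelow z) n a = ∅
    · exact ⟨0, fun h' => absurd h h'⟩
    · obtain ⟨p, hp⟩ := Finset.nonempty_iff_ne_empty.2 h
      exact ⟨p, fun _ => hp⟩
  choose f hf using hch
  refine le_trans (Finset.card_le_card_of_injOn (t := Finset.range z) f ?_ ?_)
    (Finset.card_range z).le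
  · intro a ha
    rw [Finset.mem_coe, Finset.mem_filter, Finset.mem_filter, Finset.mem_Ioc] at ha
    rw [Finset.mem_coe, Finset.mem_range]
    exact ((mem_hit_iff z n a (f a) (by omega)).1 (hf a ha.2)).1
  · intro a ha b hb hab
    rw [Finset.mem_coe, Finset.mem_filter, Finset.mem_filter, Finset.mem_Ioc] at ha hb
    by_contra hne
    obtain ⟨_, hp, hpa⟩ := (mem_hit_iff z n a (f a) (by omega)).1 (hf a ha.2)
    obtain ⟨_, _, hpb⟩ := (mem_hit_iff z n b (f b) (by omega)).1 (hf b hb.2)
    rw [← hab] at hpb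
    exact not_dvd_of_used hp ha.1.2 hb.1.2 hne hpb hpa

end LSQZ

open LSQZ in
theorem SQZ : SQZ_Stmt := by
  classical
  intro n Y z hY hn
  have hY0 : (0 : ℝ) < Y := by exact_mod_cast hY
  constructor
  · unfold R Bk
    rw [Finset.sum_filter]
    apply Finset.sum_le_sum
    intro a ha
    rw [Finset.mem_Ioc] at ha
    have ha0 : (0 : ℝ) ≤ 1 / (a : ℝ) := by positivity
    by_cases h : hit (Nat.primesBelow (2 * Y)) n a = ∅
    · have hs := sel_of_hit_empty (n := n) (a := a) (Y := Y) (by omega) ha.2 hn h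
      rw [if_pos hs, ind0, if_pos h, mul_one]
    · rw [ind0, if_neg h, mul_zero]
      split_ifs
      · exact ha0
      · exact le_rfl
  · unfold R Bk
    rw [← Finset.sum_filter_add_sum_filter_not
      ((Ioc Y (2 * Y)).filter (fun a => a ∈ selected false n))
      (fun a => hit (Nat.primesBelow z) n a = ∅)]
    apply add_le_add
    · rw [Finset.filter_filter, Finset.sum_filter]
      apply Finset.sum_le_sum
      intro a _
      have ha0 : (0 : ℝ) ≤ 1 / (a : ℝ) := by positivity
      split_ifs with h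
      · rw [ind0, if_pos h.2, mul_one]
      · exact mul_nonneg ha0 (ind0_nonneg _)
    · have h1 : ∀ a ∈ ((Ioc Y (2 * Y)).filter (fun a => a ∈ selected false n)).filter
          (fun a => ¬ hit (Nat.primesBelow z) n a = ∅), 1 / (a : ℝ) ≤ 1 / (Y : ℝ) := by
        intro a ha
        rw [Finset.mem_filter, Finset.mem_filter, Finset.mem_Ioc] at ha
        apply one_div_le_one_div_of_le hY0
        exact_mod_cast ha.1.1.1.le
      refine (Finset.sum_le_card_nsmul _ _ _ h1).trans ?_
      rw [nsmul_eq_mul, mul_one_div]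
      apply div_le_div_of_nonneg_right _ hY0.le
      exact_mod_cast card_bad n Y z hn

end Pool.Agent.GSU
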