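import Mathlib
import Pool.Agent.Lib_helper10.Erdos460.Upper
import Pool.Agent.Lib_helper10.Erdos460.Gamma2
import Pool.Prelude.Def_F_8adaa765

/-!
# MP_8775f9_nt, fourth hand-in: bounded variance of `S(n)` in residue classes (helper10, helper79)

THEOREM U. There is `C` such that for all `y ≥ 2`, `N ≥ exp (C y)` and every residue class `r`
modulo `q = ∏_{p ≤ y} p`, the mean over the `n ≤ N`, `n ≡ r (mod q)`, of
`(S(n) - S_y(n) - e^{-γ} log (log N / log y))²` is at most `C`, where `S_y(n)` is the part of the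
sum with `a_i ≤ y` (it depends on `r` only).

PLAN. Blocks `(Y, 2Y]`, `Y = 2^j`. `Bk n Y` = contribution of the selected `a` of the block. By
SQZ it lies between two ROUGH SUMS `R (primes below z) n Y` (distinct selected `a` use distinct
primes, so `n - a` has a prime factor `< z` for at most `z` selected `a` of the block). `R` is
squeezed between the sieve sums `F` (SND), whose variance over the class is computed exactly (VAR).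
The blocks with `Y < (y+1)^B` or `Y > N^c` contribute `O(1)` for every `n` (`tail_bound`).
All modules are independent: `theorem X : X_Stmt`, or `X (h : Y_Stmt) : X_Stmt` where the proof
says so.
-/

set_option autoImplicit false

namespace Pool.Agent.GSU

open Finset N435e839e Pool.Agent.Lib_helper10.Erdos460

/-- primes `≤ y` -/
def P0 (y : ℕ) : Finset ℕ := Nat.primesBelow (y + 1)

/-- primes `p` with `y < p < z` -/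
def P1 (y z : ℕ) : Finset ℕ := (Nat.primesBelow z).filter (fun p => y < p)

/-- the primes of `P` dividing `n - a` -/
def hit (P : Finset ℕ) (n a : ℕ) : Finset ℕ := P.filter (fun p => n ≡ a [MOD p])

/-- `q = ∏_{p ≤ y} p` (equal to `primorial y`) -/
def qq (y : ℕ) : ℕ := ∏ p ∈ P0 y, p

/-- the `n` in `(M, M + K]` with `n ≡ r (mod q)` -/
def cls (M K q r : ℕ) : Finset ℕ := (Ioc M (M + K)).filter (fun n => n ≡ r [MOD q])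

/-- rough sum of the block `(Y, 2Y]`: the sum of `1/a` over the `a` such that no prime of `P`
divides `n - a` -/
noncomputable def R (P : Finset ℕ) (n Y : ℕ) : ℝ := ∑ a ∈ Ioc Y (2 * Y), 1 / (a : ℝ) * ind0 (hit P n a)

/-- sieve sum of the block `(Y, 2Y]` with weights `w0` on the primes `≤ y`, `w1` on those in
`(y, z)` -/
noncomputable def F (w0 w1 : Finset ℕ → ℝ) (y z n Y : ℕ) : ℝ :=
  ∑ a ∈ Ioc Y (2 * Y), 1 / (a : ℝ) * (subsum w0 (hit (P0 y) n a) * subsum w1 (hit (P1 y z) n a))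

/-- the coefficient `c_a` of `a` in the sieve sum, for the class of `r` -/
noncomputable def ca (w0 : Finset ℕ → ℝ) (y r a : ℕ) : ℝ := 1 / (a : ℝ) * subsum w0 (hit (P0 y) r a)

/-- contribution of the selected `a` in the block `(Y, 2Y]` -/
noncomputable def Bk (n Y : ℕ) : ℝ :=
  ∑ a ∈ (Ioc Y (2 * Y)).filter (fun a => a ∈ selected false n), 1 / (a : ℝ)

/-- `e^{-γ}` -/
noncomputable def gam : ℝ := Real.exp (-Real.eulerMascheroniConstant)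

/-- product `∏_{y < p < z} (1 + 3/p)` -/
noncomputable def G3 (y z : ℕ) : ℝ := ∏ p ∈ P1 y z, (1 + 3 / (p : ℝ))

/-- upper and lower sieve weights for the primes in `(y, z)` -/
structure RWt (y z : ℕ) (K1 : ℝ) (L : ℕ) (τ : ℝ) (Up Low : Finset ℕ → ℝ) : Prop where
  up : ∀ S ⊆ P1 y z, ind0 S ≤ subsum Up S
  low : ∀ S ⊆ P1 y z, subsum Low S ≤ ind0 S
  up_abs : ∀ T ⊆ P1 y z, |Up T| ≤ K1
  low_abs : ∀ T ⊆ P1 y z, |Low T| ≤ K1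
  up_level : ∀ T ⊆ P1 y z, Up T ≠ 0 → ∏ q ∈ T, q ≤ L
  low_level : ∀ T ⊆ P1 y z, Low T ≠ 0 → ∏ q ∈ T, q ≤ L
  up_mean : meanw Up (P1 y z) ≤ V z / V (y + 1) * (1 + τ)
  low_mean : V z / V (y + 1) * (1 - τ) ≤ meanw Low (P1 y z)

/-- the standing hypotheses on a pair of weights -/
structure Dat (y z Y L0 L1 : ℕ) (K1 : ℝ) (w0 w1 : Finset ℕ → ℝ) : Prop where
  hY : 1 ≤ Y
  hL0 : 1 ≤ L0
  hL1 : 1 ≤ L1
  hK1 : 1 ≤ K1
  hw0 : ∀ T, |w0 T| ≤ 1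
  hw0L : ∀ T ⊆ P0 y, w0 T ≠ 0 → ∏ q ∈ T, q ≤ L0
  hm0 : |meanw w0 (P0 y)| ≤ 2
  hw1 : ∀ T ⊆ P1 y z, |w1 T| ≤ K1
  hw1L : ∀ T ⊆ P1 y z, w1 T ≠ 0 → ∏ q ∈ T, q ≤ L1
  hm1 : |meanw w1 (P1 y z)| ≤ 2

/-- AVG. Averaging over a random subset `S0` of `P0` (each `p` with probability `1/p`).
PROOF. `subsum w (S ∪ S0) = ∑_{T ⊆ S} ∑_{T0 ⊆ S0} w (T ∪ T0)` (disjointness: the subsets of
`S ∪ S0` are the `T ∪ T0`, as in `sum_powerset_union_mul` of BrunHooley.lean). Exchange the sums;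
the coefficient of `w (T ∪ T0)` is the sum over `S0 ⊇ T0` of the probabilities, that is
`∏_{p ∈ T0} (1/p) * ∑_{S' ⊆ Q \ T0} ∏_{p ∈ S'} (1/p) ∏_{p ∈ (Q \ T0) \ S'} (1 - 1/p)
 = ∏_{p ∈ T0} (1/p) * ∏_{p ∈ Q \ T0} (1/p + (1 - 1/p)) = ∏_{p ∈ T0} (1/p)` (`Finset.prod_add`).
(Or by induction on `Q`, inserting one prime.) -/
def AVG_Stmt : Prop :=
  ∀ (Q S : Finset ℕ) (w : Finset ℕ → ℝ), Disjoint Q S →
    ∑ S0 ∈ Q.powerset, (∏ p ∈ S0, 1 / (p : ℝ)) * (∏ p ∈ Q \ S0, (1 - 1 / (p : ℝ))) *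
        subsum w (S ∪ S0) =
      ∑ T ∈ S.powerset, ∑ T0 ∈ Q.powerset, w (T ∪ T0) * ∏ p ∈ T0, 1 / (p : ℝ)

/-- MNL. Means of one-sided weights. PROOF. AVG with `S = ∅` says that `meanw w Q` is the average
of `subsum w S0` over the random subset `S0` of `Q`; the weights of the average are `≥ 0` for
primes, and the average of `ind0 S0` is the probability of `S0 = ∅`, which is
`∏_{p ∈ Q} (1 - 1/p)`. Proof from AVG_Stmt as a hypothesis. -/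
def MNL_Stmt : Prop :=
  ∀ (Q : Finset ℕ) (w : Finset ℕ → ℝ), (∀ p ∈ Q, p.Prime) →
    ((∀ S ⊆ Q, ind0 S ≤ subsum w S) → ∏ p ∈ Q, (1 - 1 / (p : ℝ)) ≤ meanw w Q) ∧
    ((∀ S ⊆ Q, subsum w S ≤ ind0 S) → meanw w Q ≤ ∏ p ∈ Q, (1 - 1 / (p : ℝ)))

/-- RW. Restriction of sieve weights to the primes in `(y, z)`. PROOF (from AVG_Stmt). Put
`Up' T = (V (y+1))⁻¹ * ∑_{T0 ⊆ P0 y} Up (T ∪ T0) ∏_{p ∈ T0} (1/p)` for `T ⊆ P1 y z`, and the same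
for `Low'`. (`primesBelow z = P0 y ∪ P1 y z`, disjoint, as `y < z`; `V (y+1) = ∏_{p ∈ P0 y} (1-1/p)
> 0`.) up: by AVG (`Q = P0 y`), `V (y+1) * subsum Up' S` is the average of `subsum Up (S ∪ S0) ≥
ind0 (S ∪ S0) ≥ 0`, which is at least `prob (S0 = ∅) * ind0 S = V (y+1) * ind0 S`. low: the average
of `subsum Low (S ∪ S0) ≤ ind0 (S ∪ S0)`, and the average of `ind0 (S ∪ S0)` is
`ind0 S * V (y+1)`. abs: `|Up' T| ≤ (V (y+1))⁻¹ ∏_{p ∈ P0 y} (1 + 1/p) ≤ (V (y+1))⁻¹ ^ 2` because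
`1 + x ≤ (1 - x)⁻¹`. level: if `Up' T ≠ 0` some `Up (T ∪ T0) ≠ 0`, so `∏ T ≤ ∏ (T ∪ T0) ≤ z ^ s`.
mean: `meanw Up' (P1 y z) = (V (y+1))⁻¹ meanw Up (primesBelow z)` (the subsets of
`P0 y ∪ P1 y z` are the `T ∪ T0`). -/
def RW_Stmt : Prop :=
  ∀ (y z s : ℕ) (τ : ℝ) (Up Low : Finset ℕ → ℝ), y < z → SieveWeights z s τ Up Low →
    ∃ Up' Low' : Finset ℕ → ℝ, RWt y z ((V (y + 1))⁻¹ ^ 2) (z ^ s) τ Up' Low'

/-- ARS. `∑ 1/a` over the `a ≡ c (mod m)` in `(Y, 2Y]`. PROOF. If `a_1 < ... < a_k` are these `a`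
(consecutive ones differ by `m`, `a_1 ≤ Y + m`, `a_k + m > 2Y`), then
`1/a_{i+1} ≤ (1/m) (log a_{i+1} - log a_i) ≤ 1/a_i`, so the sum is at most
`1/a_1 + (1/m) (log a_k - log a_1) ≤ 1/Y + (log 2)/m` and at least
`(1/m) (log (a_k + m) - log a_1) ≥ (1/m) (log (2Y) - log (Y + m)) ≥ (log 2)/m - 1/Y`
(`log (1 + m/Y) ≤ m/Y`; if there is no such `a` then `m ≥ Y` and `(log 2)/m ≤ 1/Y`). For instance
compare, for all `a` in `(Y, 2Y]`, `1/a` with the increments of `log`, and use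
`Nat.Ioc_filter_modEq_card`-like counting in every initial segment with Abel summation (then the
error is `≤ 2/Y`, which is what is asked). -/
def ARS_Stmt : Prop :=
  ∀ Y m c : ℕ, 1 ≤ Y → 1 ≤ m →
    |(∑ a ∈ (Ioc Y (2 * Y)).filter (fun a => a ≡ c [MOD m]), (1 : ℝ) / a) - Real.log 2 / m| ≤ 2 / Y

/-- CLS. The sums of the coefficients `c_a` over a residue class modulo `∏ U`, `U ⊆ P1 y z`.
PROOF (from ARS_Stmt). `ca w0 y r a = (1/a) ∑_{T0 ⊆ P0 y, a ≡ r mod p for p in T0} w0 T0`. The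
conditions `a ≡ c (mod p)`, `p ∈ U`, and `a ≡ r (mod p)`, `p ∈ T0`, describe one residue class
modulo `∏ U * ∏ T0` (distinct primes; CRT), so by ARS the sum over it is
`log 2 / (∏ U * ∏ T0) + O(2/Y)`. Multiply by `w0 T0` and add: main term
`meanw w0 (P0 y) * log 2 / ∏ U`, error `≤ (2/Y) ∑ |w0 T0| ≤ 2 L0 / Y` (`sum_abs_le` of
Weights.lean). -/
def CLS_Stmt : Prop :=
  ∀ (y z Y r c L0 : ℕ) (w0 : Finset ℕ → ℝ) (U : Finset ℕ), 1 ≤ Y → U ⊆ P1 y z →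
    (∀ T, |w0 T| ≤ 1) → (∀ T ⊆ P0 y, w0 T ≠ 0 → ∏ q ∈ T, q ≤ L0) →
    |(∑ a ∈ (Ioc Y (2 * Y)).filter (fun a => ∀ p ∈ U, a ≡ c [MOD p]), ca w0 y r a) -
      meanw w0 (P0 y) * Real.log 2 / ∏ p ∈ U, (p : ℝ)| ≤ 2 * L0 / Y

/-- CAB. Bounds for the coefficients. PROOF. `|subsum w0 (hit ..)| ≤ ∑_{T ⊆ P0 y} |w0 T| ≤ L0`
(`sum_abs_le`), `1/a ≤ 1/Y` on the block, and `∑_{a ∈ (Y, 2Y]} 1/a ≤ Y * (1/Y) = 1`. -/
def CAB_Stmt : Prop :=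
  ∀ (y Y r L0 : ℕ) (w0 : Finset ℕ → ℝ), 1 ≤ Y →
    (∀ T, |w0 T| ≤ 1) → (∀ T ⊆ P0 y, w0 T ≠ 0 → ∏ q ∈ T, q ≤ L0) →
    (∀ a ∈ Ioc Y (2 * Y), |ca w0 y r a| ≤ L0 / Y) ∧ ∑ a ∈ Ioc Y (2 * Y), |ca w0 y r a| ≤ L0

/-- CSQ. PROOF (from CLS_Stmt, CAB_Stmt). Let `g = ∏ U`, `C_c = ∑_{a ≡ c (g)} c_a` for `c < g`,
`m = meanw w0 (P0 y) * log 2`, `|m| ≤ 2`. The left double sum is `∑_{c < g} C_c²` (the condition
`a ≡ b (mod p)` for all `p ∈ U` is `a ≡ b (mod g)`). If `g² ≤ Y`: by CLS `|C_c - m/g| ≤ 2 L0 / Y`,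
so `|g ∑_c C_c² - m²| = |g ∑_c (C_c - m/g)(C_c + m/g)| ≤ g * g * (2 L0/Y) (2 |m|/g + 2 L0/Y)
≤ 8 L0 g / Y + 4 L0² g² / Y² ≤ 12 L0² g / √Y` (`g ≤ √Y`, `Y ≥ 1`). If `g² > Y`: by CAB
`g ∑_{a ≡ b} |c_a c_b| ≤ g (L0/Y)² * #{(a,b)} ≤ g (L0/Y)² * Y (Y/g + 1) = L0² (1 + g/Y)
≤ 2 L0² g/√Y` (`g/√Y ≥ 1`, and for fixed `a` there are at most `Y/g + 1` such `b`) and
`m² ≤ 4 ≤ 4 g/√Y ≤ 4 L0² g / √Y`. -/
def CSQ_Stmt : Prop :=
  ∀ (y z Y r L0 : ℕ) (w0 : Finset ℕ → ℝ) (U : Finset ℕ), 1 ≤ Y → 1 ≤ L0 → U ⊆ P1 y z →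
    (∀ T, |w0 T| ≤ 1) → (∀ T ⊆ P0 y, w0 T ≠ 0 → ∏ q ∈ T, q ≤ L0) →
    |meanw w0 (P0 y)| ≤ 2 →
    |(∏ p ∈ U, (p : ℝ)) * (∑ a ∈ Ioc Y (2 * Y),
        ∑ b ∈ (Ioc Y (2 * Y)).filter (fun b => ∀ p ∈ U, a ≡ b [MOD p]),
          ca w0 y r a * ca w0 y r b) - (meanw w0 (P0 y) * Real.log 2) ^ 2| ≤
      16 * (L0 : ℝ) ^ 2 * (∏ p ∈ U, (p : ℝ)) / √(Y : ℝ)

/-- CNT. Counting in the class with prescribed residues modulo primes `> y`. PROOF. If for some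
`p ∈ T ∩ T'` one has `a ≢ b (mod p)`, there is no such `n`. Otherwise the conditions are
`n ≡ r (mod qq y)`, `n ≡ a (mod p)` for `p ∈ T`, `n ≡ b (mod p)` for `p ∈ T' \ T`: one residue
class modulo `qq y * ∏_{T ∪ T'} p` (CRT; the primes are distinct and `> y`), and the number of `n`
in `(M, M + K]` is `K / modulus + O(1)` (`count_modEq`; `count_crt` of Count.lean with one residue
per prime, `B p = {c_p}`, gives it directly). `∏_{T ∪ T'} p = ∏_T p ∏_{T'} p / ∏_{T ∩ T'} p`. -/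
def CNT_Stmt : Prop :=
  ∀ (y z M K r a b : ℕ) (T T' : Finset ℕ), T ⊆ P1 y z → T' ⊆ P1 y z →
    ((∀ p ∈ T ∩ T', a ≡ b [MOD p]) →
      |((((cls M K (qq y) r).filter (fun n => (∀ p ∈ T, n ≡ a [MOD p]) ∧
          ∀ p ∈ T', n ≡ b [MOD p])).card : ℕ) : ℝ) -
        (K : ℝ) / qq y * ((∏ p ∈ T ∩ T', (p : ℝ)) / ((∏ p ∈ T, (p : ℝ)) * ∏ p ∈ T', (p : ℝ)))| ≤ 1) ∧
    ((¬ ∀ p ∈ T ∩ T', a ≡ b [MOD p]) →
      (cls M K (qq y) r).filter (fun n => (∀ p ∈ T, n ≡ a [MOD p]) ∧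
          ∀ p ∈ T', n ≡ b [MOD p]) = ∅)

/-- FCA. On the class of `r` the sieve sum has the coefficients `c_a`. PROOF. For `n ≡ r (mod q)`
and `p ≤ y` one has `n ≡ a (mod p)` iff `r ≡ a (mod p)` (as `p ∣ q`), so
`hit (P0 y) n a = hit (P0 y) r a`; and `subsum w1 (hit (P1 y z) n a)` is the sum of `w1 T` over
the `T ⊆ P1 y z` with `n ≡ a (mod p)` for all `p ∈ T`. -/
def FCA_Stmt : Prop :=
  ∀ (y z Y M K r n : ℕ) (w0 w1 : Finset ℕ → ℝ), n ∈ cls M K (qq y) r →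
    F w0 w1 y z n Y = ∑ a ∈ Ioc Y (2 * Y), ca w0 y r a *
      ∑ T ∈ (P1 y z).powerset, w1 T * (if ∀ p ∈ T, n ≡ a [MOD p] then 1 else 0)

/-- MO1. First moment. PROOF (from FCA, CNT, CLS, CAB). Sum FCA over the class, exchange, use CNT
with `T' = ∅` (`b` arbitrary): `∑_n F = ∑_a c_a ∑_T w1 T ((K/q)/∏T + θ) = (K/q) m1 ∑_a c_a + Θ`,
`|Θ| ≤ ∑ |c_a| ∑ |w1 T| ≤ L0 * (K1 L1)` (CAB; at most `L1` sets `T` have `w1 T ≠ 0`, see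
`card_support_le`). By CLS with `U = ∅`, `|∑_a c_a - m0 log 2| ≤ 2 L0/Y`, and `|m1| ≤ 2`. -/
def MO1_Stmt : Prop :=
  ∀ (y z Y M K r L0 L1 : ℕ) (K1 : ℝ) (w0 w1 : Finset ℕ → ℝ), Dat y z Y L0 L1 K1 w0 w1 →
    |(∑ n ∈ cls M K (qq y) r, F w0 w1 y z n Y) -
        (K : ℝ) / qq y * (meanw w0 (P0 y) * meanw w1 (P1 y z) * Real.log 2)| ≤
      (K : ℝ) / qq y * (4 * L0 / Y) + L0 * K1 * L1

/-- SG3. PROOF. The pairs `(T, T')` of subsets of `P` correspond to the maps `P → {neither, only T,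
only T', both}`, with local factors `1, 1/p, 1/p, p/p²`; the product is `∏ (1 + 3/p)`. By
induction on `P` (`Finset.sum_powerset_insert` twice), or `Finset.prod_one_add` twice: for fixed
`T` the inner sum is `(1/∏T) ∏_{p ∈ P} (1 + [p ∈ T] 1 + [p ∉ T] 1/p)`. -/
def SG3_Stmt : Prop :=
  ∀ P : Finset ℕ, (∀ p ∈ P, 0 < p) →
    ∑ T ∈ P.powerset, ∑ T' ∈ P.powerset,
      (∏ p ∈ T ∩ T', (p : ℝ)) / ((∏ p ∈ T, (p : ℝ)) * ∏ p ∈ T', (p : ℝ)) =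
    ∏ p ∈ P, (1 + 3 / (p : ℝ))

/-- MO2. Second moment. PROOF (from FCA, CNT, CSQ, CAB, SG3). Square FCA, sum over the class,
exchange: `∑_n F² = ∑_{a,b} c_a c_b ∑_{T,T'} w1 T w1 T' #(T,T',a,b)`. By CNT the count is
`[a ≡ b mod p for p ∈ T ∩ T'] (K/q) g/(∏T ∏T') + θ`, `g = ∏ (T ∩ T')`. The `θ` contribute at most
`(∑ |c_a|)² (∑ |w1 T|)² ≤ (L0 K1 L1)²`. The rest is `(K/q) ∑_{T,T'} (w1 T w1 T' / (∏T ∏T')) *
[g ∑_a ∑_{b ≡ a} c_a c_b]`, and by CSQ (`U = T ∩ T'`) the bracket is `(m0 log 2)² + O(16 L0² g/√Y)`;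
the main terms add up to `(K/q) (m0 log 2)² m1²`, the errors to at most
`(K/q) 16 L0² K1² /√Y * ∑_{T,T'} g/(∏T ∏T') = (K/q) 16 L0² K1² G3 / √Y` (SG3). -/
def MO2_Stmt : Prop :=
  ∀ (y z Y M K r L0 L1 : ℕ) (K1 : ℝ) (w0 w1 : Finset ℕ → ℝ), Dat y z Y L0 L1 K1 w0 w1 →
    |(∑ n ∈ cls M K (qq y) r, F w0 w1 y z n Y ^ 2) -
        (K : ℝ) / qq y * (meanw w0 (P0 y) * meanw w1 (P1 y z) * Real.log 2) ^ 2| ≤
      (K : ℝ) / qq y * (16 * K1 ^ 2 * (L0 : ℝ) ^ 2 * G3 y z / √(Y : ℝ)) + (L0 * K1 * L1) ^ 2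

/-- VAR. PROOF (from MO1, MO2; `count_modEq` for the size of the class, which is `K/q + O(1)`).
With `μ = m0 m1 log 2`, `|μ| ≤ 2.8`: `∑ (F - μ)² = ∑ F² - 2 μ ∑ F + μ² #cls ≤
(K/q)(16 K1² L0² G3/√Y + 2 |μ| 4 L0/Y) + (L0 K1 L1)² + 2 |μ| L0 K1 L1 + μ²`, and
`8 |μ| L0/Y ≤ 24 K1² L0² G3/√Y`, `1 + 5.6 + 7.84 ≤ 40` (`L0, L1, K1, G3, Y ≥ 1`). -/
def VAR_Stmt : Prop :=
  ∀ (y z Y M K r L0 L1 : ℕ) (K1 : ℝ) (w0 w1 : Finset ℕ → ℝ), Dat y z Y L0 L1 K1 w0 w1 →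
    ∑ n ∈ cls M K (qq y) r,
        (F w0 w1 y z n Y - meanw w0 (P0 y) * meanw w1 (P1 y z) * Real.log 2) ^ 2 ≤
      40 * K1 ^ 2 * (L0 : ℝ) ^ 2 * ((K : ℝ) / qq y * (G3 y z / √(Y : ℝ)) + (L1 : ℝ) ^ 2)

/-- SND. PROOF. For each `a` of the block let `x = ind0 (hit (P0 y) n a)`,
`x' = ind0 (hit (P1 y z) n a)`; `ind0 (hit (primesBelow z) n a) = x x'` (`primesBelow z` is the
union of `P0 y` and `P1 y z`). With `X⁺ = subsum Up0 ..`, `X⁻ = subsum Low0 ..`, and `X'⁺`, `X'⁻` for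
the other primes: `X⁻ ≤ x ≤ X⁺`, `X'⁻ ≤ x' ≤ X'⁺`, `x, x' ≥ 0`, so `x x' ≤ X⁺ X'⁺` and
`X⁺ X'⁺ - x x' = (X⁺ - x) X'⁺ + x (X'⁺ - x') ≤ (X⁺ - X⁻) X'⁺ + X⁺ (X'⁺ - X'⁻)`.
Multiply by `1/a` and sum. -/
def SND_Stmt : Prop :=
  ∀ (y z s0 : ℕ) (τ0 : ℝ) (Up0 Low0 : Finset ℕ → ℝ) (K1 : ℝ) (L : ℕ) (τ1 : ℝ)
    (Up1 Low1 : Finset ℕ → ℝ), y < z → SieveWeights (y + 1) s0 τ0 Up0 Low0 →
    RWt y z K1 L τ1 Up1 Low1 → ∀ n Y : ℕ,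
      R (Nat.primesBelow z) n Y ≤ F Up0 Up1 y z n Y ∧
      F Low0 Up1 y z n Y + F Up0 Low1 y z n Y - F Up0 Up1 y z n Y ≤ R (Nat.primesBelow z) n Y

/-- SQZ. PROOF. For `a ∈ (Y, 2Y]`, `a < n`: `p ∣ n - a` iff `n ≡ a [MOD p]`
(`Nat.modEq_iff_dvd'`, symmetric). Lower bound: if no prime `< 2Y` divides `n - a` then `a` is
selected (`sel_of_rough` of Greedy.lean, as `a ≤ 2Y`). Upper bound: the selected `a` of the block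
with `hit (primesBelow z) n a = ∅` contribute at most `R`. To each other selected `a` attach a
prime `p(a) < z` dividing `n - a`; for two different selected `a, b` the numbers `n - a`, `n - b`
are coprime (`sel_coprime`), so `a ↦ p(a)` is injective, there are at most `z` of them, each with
`1/a ≤ 1/Y`. -/
def SQZ_Stmt : Prop :=
  ∀ n Y z : ℕ, 1 ≤ Y → 2 * Y < n →
    R (Nat.primesBelow (2 * Y)) n Y ≤ Bk n Y ∧
    Bk n Y ≤ R (Nat.primesBelow z) n Y + (z : ℝ) / Y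

/-- MER. Mertens' third theorem with a rate. PROOF. `log_V` (VAsymp.lean):
`log V (n+1) = -∑_{p ≤ n} 1/p - ∑_{p ≤ n} gg p` up to its precise form; `mertens_second` has the rate
`C / log n`, the tail of `∑ gg` beyond `n` is `≤ ∑_{m > n} 2/m² ≤ 2/n` (`gg_bounds`), and
`M + GG = γ` is `M_add_GG` (Gamma2.lean). So `|log V (n+1) + log log n + γ| ≤ C / log n`, and
`|e^t - 1| ≤ C' |t|` for bounded `t`; `log (n+1) = log n + O(1/n)`. Small `n` by enlarging `C`. -/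
def MER_Stmt : Prop :=
  ∃ C : ℝ, 0 < C ∧ ∀ z : ℕ, 2 ≤ z → |V z - gam / Real.log z| ≤ C / Real.log z ^ 2

/-- PAR. Choice of the parameters of the sieves. PROOF. Let `Θ` be as in `brun_hooley_strong`,
`b* ` with `2 Θ b ≤ 1/4` and `b Θ b ≤ 1` for `b ≥ b*`, `b* ≥ 1`. Given `x ≥ 2` (an integer) and a
real `t ≥ x ^ (4 b* + 6)` let `b ≥ b*` be the largest with `x ^ (4 b + 6) ≤ t`; then
`t < x ^ (4 b + 10) ≤ x ^ (14 b)`, so `1/b ≤ 14 log x / log t`, and `τ = 2 Θ b ≤ 2/b`. -/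
def PAR_Stmt : Prop :=
  ∃ B : ℕ, 1 ≤ B ∧ ∃ C : ℝ, 0 < C ∧ ∀ x : ℕ, 2 ≤ x → ∀ t : ℝ, (x : ℝ) ^ B ≤ t →
    ∃ (s : ℕ) (τ : ℝ) (Up Low : Finset ℕ → ℝ), SieveWeights x s τ Up Low ∧
      (x : ℝ) ^ s ≤ t ∧ 0 ≤ τ ∧ τ ≤ 1 / 4 ∧ τ ≤ C * Real.log x / Real.log t

/-- KPN. Mean square of the rough sum of a block. PROOF (from PAR, RW, MNL, SND, VAR;
`V_bounds`). Let `q = qq y`, `Y ≥ (y+1)^B` with `B` large. Weights on the primes `≤ y`: PAR with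
`x = y + 1`, `t = Y^(1/16)`: `L0 = (y+1)^s0 ≤ Y^(1/16)`, `τ0 ≤ C log y / log Y`. Weights on the
primes in `(y, z)`: PAR with `x = z`, `t = K^(1/8)` (possible as `z ≤ 2Y` and `Y^B ≤ K`), then RW:
`L1 = z^s1 ≤ K^(1/8)`, `K1 = (V (y+1))⁻¹ ^ 2 ≤ (C log (y+1))² `, `τ1 ≤ C log Y / log K`. Put
`V0 = V (y+1)`, `V1 = V z / V0 ≤ 1`. By MNL and the fields `*_mean` the four means satisfy
`V0 ≤ m0⁺ ≤ V0 (1+τ0)`, `V0 (1-τ0) ≤ m0⁻ ≤ V0`, and the same with `V1, τ1` (so all are `≤ 2` in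
absolute value and Dat holds). With `μ^{ik} = m0^i m1^k log 2` and `E` the bound of VAR for each of
the pairs `(+,+), (-,+), (+,-)`, SND gives pointwise
`|R - V z log 2| ≤ 3 |F⁺⁺ - μ⁺⁺| + |F⁻⁺ - μ⁻⁺| + |F⁺⁻ - μ⁺⁻| + 3 V z (τ0 + τ1)`
(e.g. `μ⁻⁺ + μ⁺⁻ - μ⁺⁺ ≥ V z log 2 ((1-τ0) + (1-τ1) - (1+τ0)(1+τ1)) ≥ V z log 2 (1 - 3 τ0 - 3 τ1)`).
Square (5 terms, or `(x1+..+x4)² ≤ 4 ∑ x_i²`) and sum over the class, which has at most `K/q + 1 ≤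
2 K/q` elements: `∑ ≤ C E + C (K/q) V z² (τ0 + τ1)²`. Here `E = 40 K1² L0² ((K/q) G3/√Y + L1²) ≤
C (K/q) (log Y)^8 Y^(1/8) ((log Y)^3 Y^(-1/2) + K^(1/4) q / K) ≤ C (K/q) Y^(-1/4)` (`G3 ≤ V z ^(-3)`,
`q ≤ K^(1/4)`, `Y ≤ K^(1/B)`), `V z ≤ C / log z ≤ 2C/log Y` (`Y ≤ z²`), and
`Y^(-1/8) ≤ C log y / (log Y)²`. -/
def KPN_Stmt : Prop :=
  ∃ B : ℕ, 1 ≤ B ∧ ∃ C : ℝ, 0 < C ∧ ∀ (y z Y M K r : ℕ), 2 ≤ y → (y + 1) ^ B ≤ Y → Y ≤ z ^ 2 →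
    z ≤ 2 * Y → Y ^ B ≤ K → qq y ^ 4 ≤ K →
    ∑ n ∈ cls M K (qq y) r, (R (Nat.primesBelow z) n Y - V z * Real.log 2) ^ 2 ≤
      (K : ℝ) / qq y * (C * (Real.log y / Real.log Y ^ 2 + 1 / Real.log K)) ^ 2

/-- BLK. One block `Y = 2^j`. PROOF (from KPN, MER, SQZ). KPN for `z = 2^(j+1)` and for
`z = ⌊2^j / j²⌋` (`Y ≤ z²` and `y < z` hold for `Y ≥ (y+1)^B`, `B` large), MER: for both `z`,
`|V z log 2 - gam / j| ≤ C (1 + log j)/j²` (`log z = j log 2 + O(1 + log j)`). SQZ (`2Y < n` as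
`2Y ≤ M < n`): `Bk - gam/j` lies between `R⁻ - gam/j` and `R⁺ - gam/j + 1/j²`, so its square is at
most `3 (R⁻ - V⁻ log 2)² + 3 (R⁺ - V⁺ log 2)² + 3 (C (1 + log j)/j²)²`; sum over the class, which
has at most `2 K/q` elements. `log Y = j log 2`. -/
def BLK_Stmt : Prop :=
  ∃ B : ℕ, 1 ≤ B ∧ ∃ C : ℝ, 0 < C ∧ ∀ (y j M K r : ℕ), 2 ≤ y → (y + 1) ^ B ≤ 2 ^ j →
    2 * 2 ^ j ≤ M → (2 ^ j) ^ B ≤ K → qq y ^ 4 ≤ K →
    ∑ n ∈ cls M K (qq y) r, (Bk n (2 ^ j) - gam / j) ^ 2 ≤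
      (K : ℝ) / qq y * (C * ((Real.log y + Real.log j + 1) / (j : ℝ) ^ 2 + 1 / Real.log K)) ^ 2

/-- MIN. Minkowski's inequality in the form needed. PROOF. For every `n`, by Cauchy-Schwarz,
`(∑_j |f j n|)² ≤ (∑_j e j) (∑_j (f j n)² / e j)` (`Finset.sum_div_sq_le..`/`inner_mul_le_norm_mul_norm`,
or `Finset.sum_mul_sq_le_sq_mul_sq` with `√e` and `|f|/√e`). Sum over `n`. -/
def MIN_Stmt : Prop :=
  ∀ (I J : Finset ℕ) (f : ℕ → ℕ → ℝ) (e : ℕ → ℝ) (A : ℝ), (∀ j ∈ J, 0 < e j) →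
    (∀ j ∈ J, ∑ n ∈ I, f j n ^ 2 ≤ A * e j ^ 2) →
    ∑ n ∈ I, (∑ j ∈ J, |f j n|) ^ 2 ≤ A * (∑ j ∈ J, e j) ^ 2

/-- SER. Numerical sums. PROOF. `∑_{j ≥ J0} 1/j² ≤ 2/J0`, `∑_j (log j + 1)/j² < ∞`,
`J1 ≤ 2 log K` terms `1/log K` from `2^J1 ≤ K`. (`log y ≤ J0` from `y ≤ 2^J0`.) -/
def SER_Stmt : Prop :=
  ∃ C : ℝ, 0 < C ∧ ∀ (y J0 J1 K : ℕ), 2 ≤ y → y ≤ 2 ^ J0 → 1 ≤ J0 → 2 ^ J1 ≤ K →
    ∑ j ∈ Ico J0 J1, ((Real.log y + Real.log j + 1) / (j : ℝ) ^ 2 + 1 / Real.log K) ≤ C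

/-- HAR. PROOF. `log ((j+1)/j) ≤ 1/j ≤ log (j/(j-1))`; so `∑_{J0 ≤ j < J1} 1/j = log (J1/J0) +
O(1)`. -/
def HAR_Stmt : Prop :=
  ∀ J0 J1 : ℕ, 1 ≤ J0 → J0 ≤ J1 → |(∑ j ∈ Ico J0 J1, 1 / (j : ℝ)) - Real.log (J1 / J0)| ≤ 1

/-- DEC. Decomposition of `S(n)`, for every `n`. PROOF. `totalSum false n` is the sum over the
selected `a` (all `< n`); split at `y`, `2^J0`, `2^J1`; the middle part is the sum of the blocks
`(2^j, 2^(j+1)]` (induction on `J1`), and `tail_bound` (Upper.lean) bounds the parts `(y, 2^J0]`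
and `(2^J1, n - 1]`: `C (1/log y + log (J0 log 2 / log y))`, `C (1 + log (log n / (J1 log 2)))`. -/
def DEC_Stmt : Prop :=
  ∃ C : ℝ, 0 < C ∧ ∀ (y n J0 J1 : ℕ), 2 ≤ y → y ≤ 2 ^ J0 → J0 ≤ J1 → 2 ^ J1 < n → 1 ≤ J0 →
    |totalSum false n - (∑ a ∈ (selected false n).filter (fun a => a ≤ y), (1 : ℝ) / a) -
        ∑ j ∈ Ico J0 J1, Bk n (2 ^ j)| ≤
      C * (1 + Real.log (J0 * Real.log 2 / Real.log y) + Real.log (Real.log n / (J1 * Real.log 2)))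

/-- SMA. Trivial bound for small `n`. PROOF. `0 ≤ totalSum false n ≤ ∑_{a < n} 1/a ≤ 1 + log n`,
the part with `a ≤ y` is between `0` and `totalSum`, `gam ≤ 1`, and
`log (log N / log y) ≤ log N / log y ≤ 2 log N`, and `≥ 0` as `y ≤ N`. -/
def SMA_Stmt : Prop :=
  ∀ (y N n : ℕ), 2 ≤ y → y ≤ N → 1 ≤ n → n ≤ N →
    (totalSum false n - (∑ a ∈ (selected false n).filter (fun a => a ≤ y), (1 : ℝ) / a) -
      gam * Real.log (Real.log N / Real.log y)) ^ 2 ≤ (1 + 3 * Real.log N) ^ 2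

/-- MAI. The main part `√N < n ≤ N`. PROOF (from BLK, MIN, SER, HAR, DEC). Take `M = Nat.sqrt N`,
`K = N - M ≥ N/2`, `B` from BLK, `J0` = least with `(y+1)^B ≤ 2^J0`, so `J0 log 2 ≤ B log (y+1) +
log 2 ≤ 4 B log y`; `J1` = largest with `(2^J1)^(2B+4) ≤ N`, so `2^(J1+1) ≤ M`, `(2^J1)^B ≤ K`,
`J1 log 2 ≥ log N/(2B+4) - log 2 ≥ log N/(4B+8)`. `qq y ≤ 4^y` (`primorial_le_4_pow`), so
`qq y ^4 ≤ K` and `J0 ≤ J1` hold if `N ≥ exp (C y)`, `C` large. For `n` in the class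
(`M < n ≤ N`), DEC and HAR:
`|S - S_y - gam log (log N/log y)| ≤ C' + ∑_{J0 ≤ j < J1} |Bk n (2^j) - gam/j|`
(`|log (J1/J0) - log (log N/log y)| ≤ C'`). Square: `(C' + X)² ≤ 2 C'² + 2 X²`; MIN with
`A = K/q`, `e j` from BLK, and SER: `∑_n X² ≤ C'' K/q`. The class has at most `K/q + 1 ≤ 2 K/q`
elements. -/
def MAI_Stmt : Prop :=
  ∃ C : ℝ, 0 < C ∧ ∀ (y N r : ℕ), 2 ≤ y → Real.exp (C * y) ≤ N →
    ∑ n ∈ cls (Nat.sqrt N) (N - Nat.sqrt N) (qq y) r,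
      (totalSum false n - (∑ a ∈ (selected false n).filter (fun a => a ≤ y), (1 : ℝ) / a) -
        gam * Real.log (Real.log N / Real.log y)) ^ 2 ≤ C * ((N : ℝ) / qq y)

/-- FIN. THEOREM U. PROOF (from MAI, SMA). Split `n ≤ √N` and `n > √N`. The first part has at most
`√N / q + 1` elements (`count_modEq`), each contributes at most `(1 + 3 log N)²` (SMA), and
`(√N/q + 1) (1 + 3 log N)² ≤ C N/q` because `(log N)² ≤ C √N` and `q (log N)² ≤ 4^y (log N)² ≤ C N`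
for `N ≥ exp (C y)`. `qq y = primorial y` (unfold: `primorial` is the product over the primes of
`range (y+1)`). -/
def FIN_Stmt : Prop :=
  ∃ C : ℝ, 0 < C ∧ ∀ (y N r : ℕ), 2 ≤ y → Real.exp (C * y) ≤ N →
    ∑ n ∈ (Icc 1 N).filter (fun n => n ≡ r [MOD primorial y]),
      (totalSum false n - (∑ a ∈ (selected false n).filter (fun a => a ≤ y), (1 : ℝ) / a) -
        Real.exp (-Real.eulerMascheroniConstant) * Real.log (Real.log N / Real.log y)) ^ 2 ≤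
      C * ((N : ℝ) / primorial y)

end Pool.Agent.GSU
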