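import Pool.Agent.GSU.St

/-!
# Module VAR: the variance of the sieve sum from the two moments
-/

set_option autoImplicit false

namespace Pool.Agent.GSU

open Finset N435e839e Pool.Agent.Lib_helper10.Erdos460

namespace LVAR

theorem one_le_G3 (y z : ℕ) : 1 ≤ G3 y z := by
  unfold G3
  have h : ∀ p ∈ P1 y z, (1 : ℝ) ≤ 1 + 3 / (p : ℝ) := fun p _ => by
    have : (0 : ℝ) ≤ 3 / (p : ℝ) := by positivity
    linarith
  calc (1 : ℝ) = ∏ _p ∈ P1 y z, (1 : ℝ) := by simp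
    _ ≤ _ := prod_le_prod (fun _ _ => zero_le_one) h

theorem qq_pos (y : ℕ) : 0 < qq y :=
  prod_pos fun _ hp => (Nat.mem_primesBelow.1 hp).2.pos

/-- the purely numerical part -/
theorem num (A B c κ μ K1 L0 L1 G rY Y : ℝ) (hκ : 0 ≤ κ) (hμ : |μ| ≤ 2.8) (hK1 : 1 ≤ K1)
    (hL0 : 1 ≤ L0) (hL1 : 1 ≤ L1) (hG : 1 ≤ G) (hrY : 1 ≤ rY) (hY : Y = rY ^ 2)
    (hA : |A - κ * μ ^ 2| ≤ κ * (16 * K1 ^ 2 * L0 ^ 2 * G / rY) + (L0 * K1 * L1) ^ 2)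
    (hB : |B - κ * μ| ≤ κ * (4 * L0 / Y) + L0 * K1 * L1) (hc : |c - κ| ≤ 1) :
    A - 2 * μ * B + μ ^ 2 * c ≤ 40 * K1 ^ 2 * L0 ^ 2 * (κ * (G / rY) + L1 ^ 2) := by
  have h1 : A - 2 * μ * B + μ ^ 2 * c =
      (A - κ * μ ^ 2) - 2 * μ * (B - κ * μ) + μ ^ 2 * (c - κ) := by ring
  have hB0 : 0 ≤ κ * (4 * L0 / Y) + L0 * K1 * L1 := (abs_nonneg _).trans hB
  have h2 : - (2 * μ * (B - κ * μ)) ≤ 2 * 2.8 * (κ * (4 * L0 / Y) + L0 * K1 * L1) := by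
    have h3 : |2 * μ * (B - κ * μ)| ≤ 2 * 2.8 * (κ * (4 * L0 / Y) + L0 * K1 * L1) := by
      rw [abs_mul, abs_mul, abs_two]
      exact mul_le_mul (by linarith) hB (abs_nonneg _) (by norm_num)
    exact (neg_le_abs _).trans h3
  have h3 : μ ^ 2 * (c - κ) ≤ 7.84 := by
    have h4 : μ ^ 2 ≤ 7.84 := by
      rw [← sq_abs]
      nlinarith [abs_nonneg μ]
    have h5 : c - κ ≤ 1 := (le_abs_self _).trans hc
    nlinarith [sq_nonneg μ]
  have h4 : A - κ * μ ^ 2 ≤ κ * (16 * K1 ^ 2 * L0 ^ 2 * G / rY) + (L0 * K1 * L1) ^ 2 :=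
    (le_abs_self _).trans hA
  -- the term with `κ`
  set s : ℝ := κ * (K1 ^ 2 * L0 ^ 2 * G / rY) with hs
  have hrY0 : 0 < rY := by linarith
  have h5 : κ * (4 * L0 / Y) ≤ 4 * s := by
    have h6 : L0 / Y ≤ K1 ^ 2 * L0 ^ 2 * G / rY := by
      rw [hY, div_le_div_iff₀ (by positivity) hrY0]
      have e1 : L0 ≤ K1 ^ 2 * L0 ^ 2 * G := by
        have a1 : 1 ≤ K1 ^ 2 := one_le_pow₀ hK1
        have a2 : L0 ≤ L0 ^ 2 := by nlinarith
        calc L0 ≤ L0 ^ 2 := a2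
          _ ≤ K1 ^ 2 * L0 ^ 2 := by nlinarith [sq_nonneg L0]
          _ ≤ K1 ^ 2 * L0 ^ 2 * G := le_mul_of_one_le_right (by positivity) hG
      have e2 : rY ≤ rY ^ 2 := by nlinarith
      exact mul_le_mul e1 e2 hrY0.le (by positivity)
    have e : κ * (4 * L0 / Y) = 4 * (κ * (L0 / Y)) := by ring
    rw [e, hs]
    exact mul_le_mul_of_nonneg_left (mul_le_mul_of_nonneg_left h6 hκ) (by norm_num)
  have h6 : κ * (16 * K1 ^ 2 * L0 ^ 2 * G / rY) = 16 * s := by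
    rw [hs]
    ring
  have hs0 : 0 ≤ s := by rw [hs]; positivity
  -- the term without
  set t : ℝ := L0 * K1 * L1 with ht
  have ht1 : 1 ≤ t := by
    rw [ht]
    exact one_le_mul_of_one_le_of_one_le (one_le_mul_of_one_le_of_one_le hL0 hK1) hL1
  have h7 : 40 * K1 ^ 2 * L0 ^ 2 * (κ * (G / rY) + L1 ^ 2) = 40 * s + 40 * t ^ 2 := by
    rw [hs, ht]
    ring
  rw [h1, h7]
  rw [h6] at h4
  nlinarith

end LVAR

open LVAR

theorem VAR (h1 : MO1_Stmt) (h2 : MO2_Stmt) : VAR_Stmt := by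
  intro y z Y M K r L0 L1 K1 w0 w1 hD
  have hM1 := h1 y z Y M K r L0 L1 K1 w0 w1 hD
  have hM2 := h2 y z Y M K r L0 L1 K1 w0 w1 hD
  set μ : ℝ := meanw w0 (P0 y) * meanw w1 (P1 y z) * Real.log 2 with hμ
  have hq := qq_pos y
  have hcard := count_modEq M K (qq y) r hq
  have hμ' : |μ| ≤ 2.8 := by
    rw [hμ, abs_mul, abs_mul, abs_of_pos (Real.log_pos (by norm_num : (1 : ℝ) < 2))]
    have a1 : |meanw w0 (P0 y)| * |meanw w1 (P1 y z)| ≤ 2 * 2 :=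
      mul_le_mul hD.hm0 hD.hm1 (abs_nonneg _) (by norm_num)
    have a2 := Real.log_two_lt_d9
    have a3 := Real.log_two_gt_d9
    have a4 : 0 ≤ |meanw w0 (P0 y)| * |meanw w1 (P1 y z)| := by positivity
    nlinarith
  have hY1 : (1 : ℝ) ≤ (Y : ℝ) := by exact_mod_cast hD.hY
  have hrY : (1 : ℝ) ≤ √(Y : ℝ) := Real.one_le_sqrt.2 hY1
  have hsum : ∑ n ∈ cls M K (qq y) r, (F w0 w1 y z n Y - μ) ^ 2 =
      (∑ n ∈ cls M K (qq y) r, F w0 w1 y z n Y ^ 2) -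
        2 * μ * (∑ n ∈ cls M K (qq y) r, F w0 w1 y z n Y) +
        μ ^ 2 * ((cls M K (qq y) r).card : ℝ) := by
    rw [mul_sum, ← sum_sub_distrib, mul_comm (μ ^ 2), ← nsmul_eq_mul, ← sum_const,
      ← sum_add_distrib]
    refine sum_congr rfl fun n _ => ?_
    ring
  rw [hsum]
  exact num _ _ _ _ μ K1 L0 L1 (G3 y z) (√(Y : ℝ)) Y (by positivity) hμ' hD.hK1
    (by exact_mod_cast hD.hL0) (by exact_mod_cast hD.hL1) (one_le_G3 y z) hrY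
    (Real.sq_sqrt (by positivity)).symm hM2 hM1 hcard

end Pool.Agent.GSU
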